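import Pool.Agent.H16.TU.Pf
import Pool.Agent.H16.TU.Tc
import Pool.Agent.H16.TU.Wh
import Pool.Agent.H16.TU.Wd
import Pool.Agent.H16.TU.Wb
import Pool.Agent.H87.NS.Sob

/-! Definitions for the bound of the dissipation by the energy at one scale. -/

set_option autoImplicit false

open Set Filter Topology MeasureTheory
open scoped ContDiff

namespace Pool.Agent.H94.LS

open Pool.Agent.H16 Pool.Agent.H87.NS Pool.Agent.H72.CC Pool.Agent.H16.TU

/-- The far kernel `max(|x|, l)⁻⁴` applied to a triple of functions. -/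
noncomputable def FB (l : ℝ) (F : Fin 3 → E3 → ℝ) (y : E3) : ℝ := ∫ x, ((max ‖x - y‖ l) ^ 4)⁻¹ * ∑ k : Fin 3, |F k x|

/-- The energy in each ball of radius `r` is at most `K r`. -/
def Mo (r K : ℝ) (v : E3 → E3) : Prop := ∀ y : E3, ∫ x in Metric.ball y r, ‖v x‖ ^ 2 ≤ K * r

/-- The local energy. -/
noncomputable def E1 (r : ℝ) (v : E3 → E3) (y : E3) : ℝ := ∫ x in Metric.ball y r, ‖v x‖ ^ 2

/-- The local `H¹` norm at the scale `r`. -/
noncomputable def G1 (r : ℝ) (v : E3 → E3) (y : E3) : ℝ := ∫ x in Metric.ball y r, (gv v x + (r ^ 2)⁻¹ * ‖v x‖ ^ 2)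

end Pool.Agent.H94.LS
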