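/-
ROW DA (MP_09540e_DS). Averages over balls against the weights wt r r z. PROOF. By wt_cmp (Wd.lean, A = 1): wt r r z x ≤ 64 wt r r z y for ‖x - y‖ ≤ r (both ways). The ball of radius a has volume (4 π / 3) a³, between 4 a³ and 5 a³ (EuclideanSpace.volume_ball_fin_three, as in Wh_K_int).
Fubini for the nonnegative function (y, x) ↦ wt y 1_{‖x-y‖<a} f x, which is integrable on the product: it is at most 64 wt x f x 1_{‖x-y‖<a}, and f wt is integrable (f integrable, wt ≤ 1: wt_le) (use Wh_K a (x - y), Wh_set, Wh_dbl and Integrable.convolution_integrand as in Wh.lean, or integrable_prod_iff). So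
∫_y wt y ∫_{ball y a} f = ∫_x f x ∫_y 1_{‖x-y‖<a} wt y dy, and 1/64 · 4 a³ wt x ≤ ∫_{ball x a} wt ≤ 64 · 5 a³ wt x. So C = 320 works in both inequalities.
-/
import Pool.Agent.H94.LS.DDefs

set_option autoImplicit false

open Set Filter Topology MeasureTheory
open scoped ContDiff

namespace Pool.Agent.H94.LS

open Pool.Agent.H16 Pool.Agent.H87.NS Pool.Agent.H72.CC Pool.Agent.H16.TU

theorem DA_vol {l : ℝ} (hl : 0 < l) : 4 * l ^ 3 ≤ ∫ x, Wh_K l x := by
  have hv : volume (Metric.ball (0 : E3) l) = ENNReal.ofReal l ^ 3 * ENNReal.ofReal (Real.pi * 4 / 3) :=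
    EuclideanSpace.volume_ball_fin_three 0 l
  unfold Wh_K
  rw [integral_indicator measurableSet_ball, setIntegral_const, smul_eq_mul, mul_one, Measure.real, hv,
    ENNReal.toReal_mul, ENNReal.toReal_pow, ENNReal.toReal_ofReal hl.le,
    ENNReal.toReal_ofReal (by positivity)]
  have h1 : 4 ≤ Real.pi * 4 / 3 := by linarith [Real.pi_gt_three]
  nlinarith [pow_pos hl 3]

theorem avg : ∃ C : ℝ, 0 < C ∧ ∀ r a z : ℝ, 0 < a → a ≤ r → ∀ (f : E3 → ℝ) (B : ℝ), Continuous f → (∀ x, 0 ≤ f x ∧ f x ≤ B) → Integrable f →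
    Integrable (fun y => wt r r z y * ∫ x in Metric.ball y a, f x) ∧
    ∫ x, f x * wt r r z x ≤ C * (a ^ 3)⁻¹ * ∫ y, wt r r z y * ∫ x in Metric.ball y a, f x ∧
    ∫ y, wt r r z y * ∫ x in Metric.ball y a, f x ≤ C * a ^ 3 * ∫ x, f x * wt r r z x := by
  refine ⟨320, by norm_num, ?_⟩
  intro r a z ha har f B hfc hf hfi
  have hr : 0 < r := lt_of_lt_of_le ha har
  have hwc : Continuous (wt r r z) := (wt_sm hr hr z).continuous
  have hw0 : ∀ x, 0 < wt r r z x := wt_pos hr hr z
  have hw1 : ∀ x, wt r r z x ≤ 1 := wt_le hr hr z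
  have ha3 : 0 < a ^ 3 := pow_pos ha 3
  -- the product
  have h1 : Integrable (fun p : E3 × E3 => f p.2 * Wh_K a (p.1 - p.2)) (volume.prod volume) :=
    Integrable.convolution_integrand (ContinuousLinearMap.mul ℝ ℝ) hfi (Wh_K_int ha).1
  have h2 : Integrable (fun p : E3 × E3 => wt r r z p.1 * (f p.2 * Wh_K a (p.1 - p.2)))
      (volume.prod volume) := by
    refine h1.bdd_mul (c := 1) ((hwc.comp continuous_fst).aestronglyMeasurable) ?_
    refine Filter.Eventually.of_forall fun p => ?_
    rw [Real.norm_eq_abs, abs_of_nonneg (hw0 _).le]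
    exact hw1 _
  have e1 : (fun y => wt r r z y * ∫ x in Metric.ball y a, f x) =
      fun y => ∫ x, wt r r z y * (f x * Wh_K a (y - x)) := by
    funext y
    rw [Wh_set, ← integral_const_mul]
    refine integral_congr_ae (Filter.Eventually.of_forall fun x => ?_)
    beta_reduce
    rw [Wh_K_symm, mul_comm (Wh_K a (y - x))]
  have h3 : Integrable (fun y => ∫ x, wt r r z y * (f x * Wh_K a (y - x))) := h2.integral_prod_left
  have h4 : Integrable (fun x => ∫ y, wt r r z y * (f x * Wh_K a (y - x))) := h2.integral_prod_right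
  have e2 : ∫ y, ∫ x, wt r r z y * (f x * Wh_K a (y - x)) =
      ∫ x, ∫ y, wt r r z y * (f x * Wh_K a (y - x)) :=
    integral_integral_swap (f := fun y x => wt r r z y * (f x * Wh_K a (y - x))) h2
  have hfw : Integrable (fun x => f x * wt r r z x) := by
    have h5 : Integrable (fun x => wt r r z x * f x) := by
      refine hfi.bdd_mul (c := 1) hwc.aestronglyMeasurable ?_
      refine Filter.Eventually.of_forall fun p => ?_
      rw [Real.norm_eq_abs, abs_of_nonneg (hw0 _).le]
      exact hw1 _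
    refine h5.congr (Filter.Eventually.of_forall fun x => ?_)
    beta_reduce
    ring
  -- the inner integral
  have iK : ∀ x : E3, Integrable (fun y => Wh_K a (y - x)) := fun x =>
    (Wh_K_int ha).1.comp_sub_right x
  have eK : ∀ x : E3, ∫ y, Wh_K a (y - x) = ∫ y, Wh_K a y := fun x =>
    integral_sub_right_eq_self (fun y => Wh_K a y) x
  have iKw : ∀ x : E3, Integrable (fun y => wt r r z y * Wh_K a (y - x)) := fun x => by
    refine (iK x).bdd_mul (c := 1) hwc.aestronglyMeasurable ?_
    refine Filter.Eventually.of_forall fun p => ?_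
    rw [Real.norm_eq_abs, abs_of_nonneg (hw0 _).le]
    exact hw1 _
  have hin : ∀ x : E3, ∫ y, wt r r z y * (f x * Wh_K a (y - x)) =
      f x * ∫ y, wt r r z y * Wh_K a (y - x) := fun x => by
    rw [← integral_const_mul]
    refine integral_congr_ae (Filter.Eventually.of_forall fun y => ?_)
    beta_reduce
    ring
  have hup : ∀ x : E3, ∫ y, wt r r z y * Wh_K a (y - x) ≤ 320 * a ^ 3 * wt r r z x := fun x => by
    have h6 : ∫ y, wt r r z y * Wh_K a (y - x) ≤ ∫ y, 64 * wt r r z x * Wh_K a (y - x) := by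
      refine integral_mono (iKw x) ((iK x).const_mul _) fun y => ?_
      beta_reduce
      by_cases h : ‖y - x‖ < a
      · have h7 := wt_cmp (A := 1) le_rfl hr (le_refl r) z (x := y) (y := x) (by linarith)
        have h8 : wt r r z y ≤ 64 * wt r r z x := by simpa using h7
        exact mul_le_mul_of_nonneg_right h8 (Wh_K_nn _ _)
      · rw [Wh_K_eq, if_neg h, mul_zero, mul_zero]
    rw [integral_const_mul, eK] at h6
    have h9 := (Wh_K_int ha).2
    have h10 := hw0 x
    nlinarith [mul_le_mul_of_nonneg_left h9 (show (0 : ℝ) ≤ 64 * wt r r z x by positivity)]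
  have hlo : ∀ x : E3, 4 * a ^ 3 * wt r r z x ≤ 64 * ∫ y, wt r r z y * Wh_K a (y - x) := fun x => by
    have h6 : ∫ y, wt r r z x * Wh_K a (y - x) ≤ ∫ y, 64 * (wt r r z y * Wh_K a (y - x)) := by
      refine integral_mono ((iK x).const_mul _) ((iKw x).const_mul _) fun y => ?_
      beta_reduce
      by_cases h : ‖y - x‖ < a
      · have h7 := wt_cmp (A := 1) le_rfl hr (le_refl r) z (x := x) (y := y)
          (by rw [norm_sub_rev]; linarith)
        have h8 : wt r r z x ≤ 64 * wt r r z y := by simpa using h7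
        have := mul_le_mul_of_nonneg_right h8 (Wh_K_nn a (y - x))
        linarith
      · rw [Wh_K_eq, if_neg h, mul_zero, mul_zero, mul_zero]
    rw [integral_const_mul, integral_const_mul, eK] at h6
    have h9 := DA_vol ha
    have h10 := hw0 x
    nlinarith [mul_le_mul_of_nonneg_left h9 h10.le]
  have e3 : ∫ y, wt r r z y * ∫ x in Metric.ball y a, f x =
      ∫ x, f x * ∫ y, wt r r z y * Wh_K a (y - x) := by
    rw [e1, e2]
    exact integral_congr_ae (Filter.Eventually.of_forall hin)
  have h4' : Integrable (fun x => f x * ∫ y, wt r r z y * Wh_K a (y - x)) := by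
    refine h4.congr (Filter.Eventually.of_forall hin)
  refine ⟨by rw [e1]; exact h3, ?_, ?_⟩
  · rw [e3]
    have h6 : ∫ x, f x * wt r r z x ≤
        ∫ x, 320 * (a ^ 3)⁻¹ * (f x * ∫ y, wt r r z y * Wh_K a (y - x)) := by
      refine integral_mono hfw (h4'.const_mul _) fun x => ?_
      beta_reduce
      have h7 := hlo x
      have h8 : wt r r z x ≤ 320 * (a ^ 3)⁻¹ * ∫ y, wt r r z y * Wh_K a (y - x) := by
        have h9 : 0 ≤ ∫ y, wt r r z y * Wh_K a (y - x) :=
          integral_nonneg fun y => mul_nonneg (hw0 y).le (Wh_K_nn _ _)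
        have h10 : wt r r z x ≤ (a ^ 3)⁻¹ * (16 * ∫ y, wt r r z y * Wh_K a (y - x)) := by
          rw [← div_eq_inv_mul, le_div_iff₀ ha3]
          linarith
        have h11 : 0 ≤ (a ^ 3)⁻¹ * ∫ y, wt r r z y * Wh_K a (y - x) :=
          mul_nonneg (inv_nonneg.2 ha3.le) h9
        nlinarith
      calc f x * wt r r z x ≤ f x * (320 * (a ^ 3)⁻¹ * ∫ y, wt r r z y * Wh_K a (y - x)) :=
            mul_le_mul_of_nonneg_left h8 (hf x).1
        _ = _ := by ring
    rw [integral_const_mul] at h6
    exact h6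
  · rw [e3, ← integral_const_mul]
    refine integral_mono h4' (hfw.const_mul _) fun x => ?_
    beta_reduce
    calc f x * ∫ y, wt r r z y * Wh_K a (y - x) ≤ f x * (320 * a ^ 3 * wt r r z x) :=
          mul_le_mul_of_nonneg_left (hup x) (hf x).1
      _ = _ := by ring

end Pool.Agent.H94.LS
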