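/-
ROW DSo (MP_09540e_DS). Local Sobolev inequalities, without fractional powers. PROOF. χ x = zc (r/2) r (x - y): smooth, 0 ≤ χ ≤ 1, χ = 1 for ‖x-y‖ ≤ r/2 (zc_one), χ = 0 for ‖x-y‖ ≥ r (zc_zero), |pd i χ| ≤ 3 C / r (Pk_cut in H16/TU/Pk.lean with l = r, translated).
f_j x = χ x v_j x, j = 0, 1, 2: smooth with compact support. Sob_cpt (H87/NS/Sob.lean) or sobolev: ∫ f_j⁶ ≤ S³ (∫ gsq f_j)³, and gsq f_j ≤ 2 χ² gsq v_j + 2 v_j² gsq χ ≤ 2 gv v + 2 · 27 C² r⁻² ‖v‖² on the ball of radius r, 0 outside, so ∫ gsq f_j ≤ C' G1 r v y and (with sobolev or lintegral form) ∫ f_j⁶ ≤ C'' G1³.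
Cauchy-Schwarz: (∫ f_j⁴)² ≤ (∫ f_j²) (∫ f_j⁶) ≤ E1 · C'' G1³ (f_j² ≤ ‖v‖² on the ball, zero outside). On the ball of radius r/2: ‖v‖⁴ = (∑ f_j²)² ≤ 3 ∑ f_j⁴, so (∫_{ball y (r/2)} ‖v‖⁴)² ≤ (3 ∑_j ∫ f_j⁴)² ≤ 27 ∑_j (∫ f_j⁴)² ≤ 81 C'' E1 G1³.
Second: Cauchy-Schwarz on ball y (r/2): (∫ ‖v‖³)² ≤ (∫ ‖v‖²) (∫ ‖v‖⁴) ≤ E1 ∫ ‖v‖⁴; squared: (∫ ‖v‖³)⁴ ≤ E1² (∫ ‖v‖⁴)² ≤ E1² · C E1 G1³.
(Cauchy-Schwarz in the form (∫ f g)² ≤ ∫ f² ∫ g²: see integral_mul_le_Lp_mul_Lq_of_nonneg with p = q = 2, or a lemma cs of the H87/NS files. All integrands are continuous, on balls of finite measure.)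
-/
import Pool.Agent.H94.LS.DDefs

set_option autoImplicit false

open Set Filter Topology MeasureTheory
open scoped ContDiff

namespace Pool.Agent.H94.LS

open Pool.Agent.H16 Pool.Agent.H87.NS Pool.Agent.H72.CC Pool.Agent.H16.TU

theorem DSo_add3 {μ : Measure E3} {f g h : E3 → ℝ} (hf : Integrable f μ) (hg : Integrable g μ)
    (hh : Integrable h μ) : ∫ x, (f x + g x) + h x ∂μ = (∫ x, f x ∂μ) + (∫ x, g x ∂μ) + ∫ x, h x ∂μ := by
  have h1 : Integrable (fun x => f x + g x) μ := hf.add hg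
  rw [integral_add h1 hh, integral_add hf hg]

/-- Cauchy-Schwarz -/
theorem DSo_cs {μ : Measure E3} {f g : E3 → ℝ} (hf : MemLp f 2 μ) (hg : MemLp g 2 μ) :
    (∫ x, f x * g x ∂μ) ^ 2 ≤ (∫ x, f x ^ 2 ∂μ) * ∫ x, g x ^ 2 ∂μ := by
  have hA := hf.integrable_sq
  have hC := hg.integrable_sq
  have hB : Integrable (fun x => f x * g x) μ := hf.integrable_mul hg
  set A : ℝ := ∫ x, f x ^ 2 ∂μ with hAd
  set C : ℝ := ∫ x, g x ^ 2 ∂μ with hCd
  set B : ℝ := ∫ x, f x * g x ∂μ with hBd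
  have hA0 : 0 ≤ A := integral_nonneg fun x => sq_nonneg _
  have hC0 : 0 ≤ C := integral_nonneg fun x => sq_nonneg _
  have hq : ∀ s t : ℝ, 0 ≤ s ^ 2 * A + 2 * (s * t) * B + t ^ 2 * C := by
    intro s t
    have h1 : 0 ≤ ∫ x, (s * f x + t * g x) ^ 2 ∂μ := integral_nonneg fun x => sq_nonneg _
    have h2 : ∫ x, (s * f x + t * g x) ^ 2 ∂μ = s ^ 2 * A + 2 * (s * t) * B + t ^ 2 * C := by
      have h3 : (fun x => (s * f x + t * g x) ^ 2) =
          fun x => (s ^ 2 * f x ^ 2 + 2 * (s * t) * (f x * g x)) + t ^ 2 * g x ^ 2 := by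
        funext x
        ring
      rw [h3, DSo_add3 (hA.const_mul _) (hB.const_mul _) (hC.const_mul _), integral_const_mul,
        integral_const_mul, integral_const_mul]
    linarith
  by_contra hcon
  push Not at hcon
  have h1 := hq C (-B)
  have h2 := hq B (-A)
  have h3 := hq 1 1
  have h4 := hq 1 (-1)
  have hd : A * C - B ^ 2 < 0 := by linarith
  have hC1 : C = 0 := by
    by_contra hne
    have hpos : 0 < C := lt_of_le_of_ne hC0 (Ne.symm hne)
    have : C * (A * C - B ^ 2) < 0 := mul_neg_of_pos_of_neg hpos hd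
    linarith only [h1, this]
  have hA1 : A = 0 := by
    by_contra hne
    have hpos : 0 < A := lt_of_le_of_ne hA0 (Ne.symm hne)
    have : A * (A * C - B ^ 2) < 0 := mul_neg_of_pos_of_neg hpos hd
    linarith only [h2, this]
  rw [hC1, hA1] at h3 h4 hd
  have : B = 0 := by linarith
  rw [this] at hd
  norm_num at hd

/-- the Sobolev inequality for functions of compact support -/
theorem DSo_sob : ∃ κ : ℝ, 0 ≤ κ ∧ ∀ g : E3 → ℝ, ContDiff ℝ ∞ g → HasCompactSupport g →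
    ∫ x, g x ^ 6 ≤ κ * (∫ x, gsq g x) ^ 3 := by
  set c : ℝ := ((eLpNormLESNormFDerivOfEqInnerConst (volume : Measure E3) 2 : NNReal) : ℝ) with hcd
  have hc0 : 0 ≤ c := NNReal.coe_nonneg _
  refine ⟨c ^ 6, by positivity, fun g hg hc => ?_⟩
  have h1 := Sob_cpt (hg.of_le (by simp)) hc
  have hgc : Continuous (gsq g) := by
    unfold gsq
    exact continuous_finset_sum _ fun i _ => (Pk_sm hg i).continuous.pow 2
  have hgs : HasCompactSupport (gsq g) := by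
    have h2 : HasCompactSupport (fderiv ℝ g) := hc.fderiv (𝕜 := ℝ)
    refine h2.mono ?_
    intro x hx
    rw [Function.mem_support] at hx ⊢
    intro h3
    refine hx ?_
    unfold gsq pd
    simp [h3]
  have hgi : Integrable (gsq g) := hgc.integrable_of_hasCompactSupport hgs
  have h6s : HasCompactSupport (fun x => g x ^ 6) := by
    refine hc.mono ?_
    intro x hx
    rw [Function.mem_support] at hx ⊢
    intro h3
    exact hx (by simp [h3])
  have h6i : Integrable (fun x => g x ^ 6) := (hg.continuous.pow 6).integrable_of_hasCompactSupport h6s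
  have e1 : ∫⁻ y, ‖g y‖ₑ ^ (6 : ℝ) = ENNReal.ofReal (∫ x, g x ^ 6) := by
    rw [ofReal_integral_eq_lintegral_ofReal h6i (Filter.Eventually.of_forall fun x => by positivity)]
    refine lintegral_congr fun x => ?_
    rw [← ofReal_norm, ENNReal.ofReal_rpow_of_nonneg (norm_nonneg _) (by norm_num)]
    congr 1
    rw [Real.norm_eq_abs, show (6:ℝ) = ((6:ℕ):ℝ) by norm_num, Real.rpow_natCast]
    exact (Even.pow_abs (by decide) _)
  have e2 : ∫⁻ y, ENNReal.ofReal (gsq g y) = ENNReal.ofReal (∫ x, gsq g x) :=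
    (ofReal_integral_eq_lintegral_ofReal hgi (Filter.Eventually.of_forall fun x => gsq_nonneg g x)).symm
  have hG0 : 0 ≤ ∫ x, gsq g x := integral_nonneg fun x => gsq_nonneg g x
  rw [e1, e2, ENNReal.ofReal_rpow_of_nonneg hG0 (by norm_num)] at h1
  have e3 : ((eLpNormLESNormFDerivOfEqInnerConst (volume : Measure E3) 2 : NNReal) : ENNReal) ^ (6 : ℝ) =
      ENNReal.ofReal (c ^ 6) := by
    rw [← ENNReal.ofReal_coe_nnreal, ← hcd, ENNReal.ofReal_rpow_of_nonneg hc0 (by norm_num)]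
    congr 1
    rw [show (6:ℝ) = ((6:ℕ):ℝ) by norm_num, Real.rpow_natCast]
  have e4 : (∫ x, gsq g x) ^ (3 : ℝ) = (∫ x, gsq g x) ^ 3 := by
    rw [show (3:ℝ) = ((3:ℕ):ℝ) by norm_num, Real.rpow_natCast]
  rw [e3, e4, ← ENNReal.ofReal_mul (by positivity)] at h1
  exact (ENNReal.ofReal_le_ofReal_iff (by positivity)).1 h1

/-- derivatives of a translate -/
theorem DSo_tr (f : E3 → ℝ) (y : E3) (i : Fin 3) (x : E3) :
    pd i (fun z => f (z - y)) x = pd i f (x - y) := by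
  unfold pd
  rw [fderiv_comp_sub]

/-- the cut-off functions -/
theorem DSo_cut : ∃ C : ℝ, 1 ≤ C ∧ ∀ r : ℝ, 0 < r → ∀ y : E3, ∃ χ : E3 → ℝ, ContDiff ℝ ∞ χ ∧
    (∀ x, 0 ≤ χ x ∧ χ x ≤ 1) ∧ (∀ x ∈ Metric.ball y (r / 2), χ x = 1) ∧
    (∀ x, x ∉ Metric.ball y r → χ x = 0 ∧ ∀ i, pd i χ x = 0) ∧
    ∀ i x, pd i χ x ^ 2 ≤ 9 * C ^ 2 * (r ^ 2)⁻¹ := by
  obtain ⟨C, hC, h⟩ := Pk_cut
  refine ⟨C, hC, fun r hr y => ⟨fun x => zc (r / 2) r (x - y), ?_, ?_, ?_, ?_, ?_⟩⟩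
  · exact (zc_smooth (r / 2) r).comp (contDiff_id.sub contDiff_const)
  · exact fun x => ⟨zc_nonneg _ _ _, zc_le _ _ _⟩
  · intro x hx
    rw [mem_ball_iff_norm] at hx
    exact zc_one (by positivity) (by linarith) hx.le
  · intro x hx
    rw [mem_ball_iff_norm, not_lt] at hx
    refine ⟨zc_zero (by positivity) (by linarith) hx, fun i => ?_⟩
    rw [DSo_tr]
    exact ((h r hr (x - y) i i).2.2 hx).1
  · intro i x
    rw [DSo_tr]
    have h1 := (h r hr (x - y) i i).1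
    have h2 : pd i (zc (r / 2) r) (x - y) ^ 2 ≤ (3 * C / r) ^ 2 := by
      rw [← sq_abs]
      exact pow_le_pow_left₀ (abs_nonneg _) h1 2
    refine h2.trans (le_of_eq ?_)
    field_simp
    ring

theorem DSo_nsq (x : E3) : ‖x‖ ^ 2 = x 0 ^ 2 + x 1 ^ 2 + x 2 ^ 2 := Cut_nsq x

theorem DSo_comp (x : E3) (j : Fin 3) : x j ^ 2 ≤ ‖x‖ ^ 2 := by
  rw [← sq_abs]
  exact pow_le_pow_left₀ (abs_nonneg _) (Pk_co x j) 2

theorem DSo_io {f : E3 → ℝ} (hf : Continuous f) (y : E3) (r : ℝ) :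
    IntegrableOn f (Metric.ball y r) :=
  (hf.continuousOn.integrableOn_compact (isCompact_closedBall y r)).mono_set
    Metric.ball_subset_closedBall

theorem locs : ∃ C : ℝ, 0 < C ∧ ∀ v : E3 → E3, Vf v → ∀ r : ℝ, 0 < r → ∀ y : E3,
    (∫ x in Metric.ball y (r / 2), ‖v x‖ ^ 4) ^ 2 ≤ C * E1 r v y * G1 r v y ^ 3 ∧
    (∫ x in Metric.ball y (r / 2), ‖v x‖ ^ 3) ^ 4 ≤ C * E1 r v y ^ 3 * G1 r v y ^ 3 := by
  obtain ⟨κ, hκ, hsob⟩ := DSo_sob
  obtain ⟨C, hC, hcut⟩ := DSo_cut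
  set D : ℝ := 54 * C ^ 2 + 2 with hD
  have hD0 : 0 ≤ D := by positivity
  refine ⟨81 * (κ * D ^ 3) + 1, by positivity, fun v hv r hr y => ?_⟩
  obtain ⟨χ, hχs, hχ01, hχ1, hχ0, hχd⟩ := hcut r hr y
  have hvs : ContDiff ℝ ∞ v := hv.1
  have hvj : ∀ j : Fin 3, ContDiff ℝ ∞ (fun x => v x j) := fun j => (Cut_coord j).comp hvs
  have hvc : Continuous v := hvs.continuous
  have hgsc : ∀ g : E3 → ℝ, ContDiff ℝ ∞ g → Continuous (gsq g) := by
    intro g hg
    unfold gsq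
    exact continuous_finset_sum _ fun i _ => (Pk_sm hg i).continuous.pow 2
  have hgvc : Continuous (gv v) := by
    unfold gv
    exact continuous_finset_sum _ fun j _ => hgsc _ (hvj j)
  have hgv0 : ∀ x, 0 ≤ gv v x := fun x => Finset.sum_nonneg fun j _ => gsq_nonneg _ x
  have hE0 : 0 ≤ E1 r v y := integral_nonneg fun x => by positivity
  have hG0 : 0 ≤ G1 r v y := integral_nonneg fun x => by
    have := hgv0 x
    positivity
  -- the truncated components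
  set f : Fin 3 → E3 → ℝ := fun j x => χ x * v x j with hf
  have hfs : ∀ j, ContDiff ℝ ∞ (f j) := fun j => hχs.mul (hvj j)
  have hf0 : ∀ j x, x ∉ Metric.ball y r → f j x = 0 := by
    intro j x hx
    simp only [hf]
    rw [(hχ0 x hx).1, zero_mul]
  have hfcs : ∀ j, HasCompactSupport (f j) := fun j =>
    HasCompactSupport.intro (isCompact_closedBall y r) fun x hx => hf0 j x fun h =>
      hx (Metric.ball_subset_closedBall h)
  have hfpow : ∀ j (n : ℕ), n ≠ 0 → HasCompactSupport (fun x => f j x ^ n) := fun j n hn =>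
    HasCompactSupport.intro (isCompact_closedBall y r) fun x hx => by
      rw [hf0 j x fun h => hx (Metric.ball_subset_closedBall h), zero_pow hn]
  have hfi : ∀ j (n : ℕ), n ≠ 0 → Integrable (fun x => f j x ^ n) := fun j n hn =>
    ((hfs j).continuous.pow n).integrable_of_hasCompactSupport (hfpow j n hn)
  have hfsq : ∀ j x, f j x ^ 2 ≤ ‖v x‖ ^ 2 := by
    intro j x
    simp only [hf]
    rw [mul_pow]
    have h1 := DSo_comp (v x) j
    have h2 : χ x ^ 2 ≤ 1 := pow_le_one₀ (hχ01 x).1 (hχ01 x).2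
    nlinarith [sq_nonneg (v x j)]
  have hgf : ∀ j, ∫ x, gsq (f j) x ≤ D * G1 r v y := by
    intro j
    have hpd : ∀ i x, pd i (f j) x = pd i χ x * v x j + χ x * pd i (fun z => v z j) x := by
      intro i x
      have := Pk_mul hχs (hvj j) i
      exact congrFun this x
    have hz : ∀ x, x ∉ Metric.ball y r → gsq (f j) x = 0 := by
      intro x hx
      unfold gsq
      refine Finset.sum_eq_zero fun i _ => ?_
      rw [hpd i x, (hχ0 x hx).1, (hχ0 x hx).2 i]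
      ring
    have h1 : ∫ x, gsq (f j) x = ∫ x in Metric.ball y r, gsq (f j) x :=
      (setIntegral_eq_integral_of_forall_compl_eq_zero hz).symm
    rw [h1]
    unfold G1
    rw [← integral_const_mul]
    refine setIntegral_mono (DSo_io (hgsc _ (hfs j)) y r)
      (DSo_io (continuous_const.mul (hgvc.add (continuous_const.mul (hvc.norm.pow 2)))) y r) ?_
    intro x
    have h2 : ∀ i, pd i (f j) x ^ 2 ≤ 2 * (9 * C ^ 2 * (r ^ 2)⁻¹) * ‖v x‖ ^ 2 + 2 * pd i (fun z => v z j) x ^ 2 := by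
      intro i
      rw [hpd i x]
      have h3 := DSo_comp (v x) j
      have h4 : χ x ^ 2 ≤ 1 := pow_le_one₀ (hχ01 x).1 (hχ01 x).2
      have h5 := hχd i x
      have h6 : (pd i χ x * v x j + χ x * pd i (fun z => v z j) x) ^ 2 ≤
          2 * (pd i χ x ^ 2 * v x j ^ 2) + 2 * (χ x ^ 2 * pd i (fun z => v z j) x ^ 2) := by
        linarith only [sq_nonneg (pd i χ x * v x j - χ x * pd i (fun z => v z j) x)]
      have h7 : pd i χ x ^ 2 * v x j ^ 2 ≤ (9 * C ^ 2 * (r ^ 2)⁻¹) * ‖v x‖ ^ 2 :=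
        mul_le_mul h5 h3 (sq_nonneg _) (by positivity)
      have h8 : χ x ^ 2 * pd i (fun z => v z j) x ^ 2 ≤ pd i (fun z => v z j) x ^ 2 := by
        nlinarith only [sq_nonneg (pd i (fun z => v z j) x), h4]
      linarith
    have h3 : gsq (f j) x ≤ 6 * (9 * C ^ 2 * (r ^ 2)⁻¹) * ‖v x‖ ^ 2 + 2 * gsq (fun z => v z j) x := by
      unfold gsq
      rw [Fin.sum_univ_three, Fin.sum_univ_three]
      have a0 := h2 0
      have a1 := h2 1
      have a2 := h2 2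
      linarith
    have h4 : gsq (fun z => v z j) x ≤ gv v x := by
      unfold gv
      exact Finset.single_le_sum (f := fun j => gsq (fun z => v z j) x) (fun k _ => gsq_nonneg _ x)
        (Finset.mem_univ j)
    have h5 : 0 ≤ (r ^ 2)⁻¹ * ‖v x‖ ^ 2 := by positivity
    have h6 : 0 ≤ C ^ 2 * gv v x := mul_nonneg (sq_nonneg _) (hgv0 x)
    calc gsq (f j) x ≤ 6 * (9 * C ^ 2 * (r ^ 2)⁻¹) * ‖v x‖ ^ 2 + 2 * gv v x := by linarith
      _ ≤ D * (gv v x + (r ^ 2)⁻¹ * ‖v x‖ ^ 2) := by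
        rw [hD]
        linarith only [h5, h6]
  have hGf0 : ∀ j, 0 ≤ ∫ x, gsq (f j) x := fun j => integral_nonneg fun x => gsq_nonneg _ x
  set M : ℝ := E1 r v y * (κ * (D * G1 r v y) ^ 3) with hM
  have hM0 : 0 ≤ M := by positivity
  have hf4 : ∀ j, (∫ x, f j x ^ 4) ^ 2 ≤ M := by
    intro j
    have m1 : MemLp (f j) 2 := (memLp_two_iff_integrable_sq (hfs j).continuous.aestronglyMeasurable).2
      (hfi j 2 (by norm_num))
    have m2 : MemLp (fun x => f j x ^ 3) 2 := by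
      refine (memLp_two_iff_integrable_sq ((hfs j).continuous.pow 3).aestronglyMeasurable).2 ?_
      refine (hfi j 6 (by norm_num)).congr (Filter.Eventually.of_forall fun x => ?_)
      change f j x ^ 6 = (f j x ^ 3) ^ 2
      ring
    have h1 := DSo_cs m1 m2
    have e1 : ∫ x, f j x * f j x ^ 3 = ∫ x, f j x ^ 4 := integral_congr_ae
      (Filter.Eventually.of_forall fun x => by simp only; ring)
    have e2 : ∫ x, (f j x ^ 3) ^ 2 = ∫ x, f j x ^ 6 := integral_congr_ae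
      (Filter.Eventually.of_forall fun x => by simp only; ring)
    rw [e1, e2] at h1
    have h2 : ∫ x, f j x ^ 2 ≤ E1 r v y := by
      have h3 : ∫ x, f j x ^ 2 = ∫ x in Metric.ball y r, f j x ^ 2 :=
        (setIntegral_eq_integral_of_forall_compl_eq_zero fun x hx => by
          rw [hf0 j x hx]
          norm_num).symm
      rw [h3]
      unfold E1
      exact setIntegral_mono (DSo_io ((hfs j).continuous.pow 2) y r) (DSo_io (hvc.norm.pow 2) y r)
        fun x => hfsq j x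
    have h3 : ∫ x, f j x ^ 6 ≤ κ * (D * G1 r v y) ^ 3 :=
      (hsob _ (hfs j) (hfcs j)).trans
        (mul_le_mul_of_nonneg_left (pow_le_pow_left₀ (hGf0 j) (hgf j) 3) hκ)
    have h4 : 0 ≤ ∫ x, f j x ^ 6 := integral_nonneg fun x => by positivity
    exact h1.trans (mul_le_mul h2 h3 h4 hE0)
  have ha0 : ∀ j, 0 ≤ ∫ x, f j x ^ 4 := fun j => integral_nonneg fun x => by positivity
  -- fourth powers
  have hI4 : ∫ x in Metric.ball y (r / 2), ‖v x‖ ^ 4 ≤ 3 * ((∫ x, f 0 x ^ 4) + (∫ x, f 1 x ^ 4) + ∫ x, f 2 x ^ 4) := by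
    have h1 : ∀ x ∈ Metric.ball y (r / 2), ‖v x‖ ^ 4 ≤ 3 * (f 0 x ^ 4 + f 1 x ^ 4 + f 2 x ^ 4) := by
      intro x hx
      simp only [hf]
      rw [hχ1 x hx, one_mul, one_mul, one_mul]
      have h2 := DSo_nsq (v x)
      calc ‖v x‖ ^ 4 = (‖v x‖ ^ 2) ^ 2 := by ring
        _ = (v x 0 ^ 2 + v x 1 ^ 2 + v x 2 ^ 2) ^ 2 := by rw [h2]
        _ ≤ _ := by
          linarith only [sq_nonneg (v x 0 ^ 2 - v x 1 ^ 2), sq_nonneg (v x 0 ^ 2 - v x 2 ^ 2),
            sq_nonneg (v x 1 ^ 2 - v x 2 ^ 2)]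
    have hi : Integrable (fun x => 3 * ((f 0 x ^ 4 + f 1 x ^ 4) + f 2 x ^ 4)) :=
      (((hfi 0 4 (by norm_num)).add (hfi 1 4 (by norm_num))).add (hfi 2 4 (by norm_num))).const_mul 3
    calc ∫ x in Metric.ball y (r / 2), ‖v x‖ ^ 4 ≤
        ∫ x in Metric.ball y (r / 2), 3 * ((f 0 x ^ 4 + f 1 x ^ 4) + f 2 x ^ 4) :=
          setIntegral_mono_on (DSo_io (hvc.norm.pow 4) y (r / 2)) hi.integrableOn
            Metric.isOpen_ball.measurableSet h1
      _ ≤ ∫ x, 3 * ((f 0 x ^ 4 + f 1 x ^ 4) + f 2 x ^ 4) :=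
          setIntegral_le_integral hi (Filter.Eventually.of_forall fun x => by positivity)
      _ = _ := by
          rw [integral_const_mul, DSo_add3 (hfi 0 4 (by norm_num)) (hfi 1 4 (by norm_num))
            (hfi 2 4 (by norm_num))]
  have hI40 : 0 ≤ ∫ x in Metric.ball y (r / 2), ‖v x‖ ^ 4 := integral_nonneg fun x => by positivity
  have hone : (∫ x in Metric.ball y (r / 2), ‖v x‖ ^ 4) ^ 2 ≤ 81 * M := by
    have a0 := hf4 0
    have a1 := hf4 1
    have a2 := hf4 2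
    have h1 : (∫ x in Metric.ball y (r / 2), ‖v x‖ ^ 4) ^ 2 ≤
        (3 * ((∫ x, f 0 x ^ 4) + (∫ x, f 1 x ^ 4) + ∫ x, f 2 x ^ 4)) ^ 2 :=
      pow_le_pow_left₀ hI40 hI4 2
    refine h1.trans ?_
    linarith only [sq_nonneg ((∫ x, f 0 x ^ 4) - ∫ x, f 1 x ^ 4), sq_nonneg ((∫ x, f 0 x ^ 4) - ∫ x, f 2 x ^ 4),
      sq_nonneg ((∫ x, f 1 x ^ 4) - ∫ x, f 2 x ^ 4), a0, a1, a2]
  have hMe : 81 * M = 81 * (κ * D ^ 3) * E1 r v y * G1 r v y ^ 3 := by
    rw [hM]
    ring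
  have hEG : 0 ≤ E1 r v y * G1 r v y ^ 3 := by positivity
  refine ⟨?_, ?_⟩
  · refine hone.trans ?_
    rw [hMe]
    linarith only [hEG]
  · have hb : MemLp (fun x => ‖v x‖) 2 (volume.restrict (Metric.ball y (r / 2))) := by
      refine (memLp_two_iff_integrable_sq hvc.norm.aestronglyMeasurable).2 ?_
      exact DSo_io (hvc.norm.pow 2) y (r / 2)
    have hb2 : MemLp (fun x => ‖v x‖ ^ 2) 2 (volume.restrict (Metric.ball y (r / 2))) := by
      refine (memLp_two_iff_integrable_sq (hvc.norm.pow 2).aestronglyMeasurable).2 ?_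
      exact DSo_io ((hvc.norm.pow 2).pow 2) y (r / 2)
    have h1 := DSo_cs hb hb2
    have e1 : ∫ x in Metric.ball y (r / 2), ‖v x‖ * ‖v x‖ ^ 2 = ∫ x in Metric.ball y (r / 2), ‖v x‖ ^ 3 :=
      integral_congr_ae (Filter.Eventually.of_forall fun x => by simp only; ring)
    have e2 : ∫ x in Metric.ball y (r / 2), (‖v x‖ ^ 2) ^ 2 = ∫ x in Metric.ball y (r / 2), ‖v x‖ ^ 4 :=
      integral_congr_ae (Filter.Eventually.of_forall fun x => by simp only; ring)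
    rw [e1, e2] at h1
    have h2 : ∫ x in Metric.ball y (r / 2), ‖v x‖ ^ 2 ≤ E1 r v y :=
      setIntegral_mono_set (DSo_io (hvc.norm.pow 2) y r)
        (Filter.Eventually.of_forall fun x => by positivity)
        (Filter.Eventually.of_forall (Metric.ball_subset_ball (by linarith only [hr])))
    have h3 : (∫ x in Metric.ball y (r / 2), ‖v x‖ ^ 3) ^ 2 ≤
        E1 r v y * ∫ x in Metric.ball y (r / 2), ‖v x‖ ^ 4 :=
      h1.trans (mul_le_mul_of_nonneg_right h2 hI40)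
    have h4 : (∫ x in Metric.ball y (r / 2), ‖v x‖ ^ 3) ^ 4 ≤
        (E1 r v y * ∫ x in Metric.ball y (r / 2), ‖v x‖ ^ 4) ^ 2 := by
      have := pow_le_pow_left₀ (sq_nonneg _) h3 2
      calc (∫ x in Metric.ball y (r / 2), ‖v x‖ ^ 3) ^ 4 =
          ((∫ x in Metric.ball y (r / 2), ‖v x‖ ^ 3) ^ 2) ^ 2 := by ring
        _ ≤ _ := this
    refine h4.trans ?_
    rw [mul_pow]
    have h5 : E1 r v y ^ 2 * (∫ x in Metric.ball y (r / 2), ‖v x‖ ^ 4) ^ 2 ≤ E1 r v y ^ 2 * (81 * M) :=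
      mul_le_mul_of_nonneg_left hone (sq_nonneg _)
    refine h5.trans ?_
    rw [hMe]
    have h6 : 0 ≤ E1 r v y ^ 3 * G1 r v y ^ 3 := by positivity
    calc E1 r v y ^ 2 * (81 * (κ * D ^ 3) * E1 r v y * G1 r v y ^ 3) =
        81 * (κ * D ^ 3) * (E1 r v y ^ 3 * G1 r v y ^ 3) := by ring
      _ ≤ (81 * (κ * D ^ 3) + 1) * (E1 r v y ^ 3 * G1 r v y ^ 3) := by linarith
      _ = _ := by ring

end Pool.Agent.H94.LS
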