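/-
ROW DC (MP_09540e_DS). Uses DA (avg) and DSo (locs) (statements). The weighted energy and the cubic term. PROOF. Ψ = wt r r z, wt_int: VV Ψ ≤ 10 r³; wt_wc. Mo gives E1 r v y ≤ K r for all y.
mo_ss: avg with a = r, f = ‖v‖² (bounded, integrable by Vf: DB): ∫ ‖v‖² Ψ ≤ C r⁻³ ∫_y Ψ y (K r) ≤ 10 C K r.
g_avg: avg with a = r and f = gv v + r⁻² ‖v‖² (continuous ba_gvc, bounded, integrable: Vf): ∫_y Ψ y G1 r v y ≤ C r³ (DD v Ψ + r⁻² SS v Ψ) ≤ C r³ (DD v Ψ + 10 C K / r).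
cub: avg with a = r/2, f = ‖v‖³ (bounded, integrable: ‖v‖³ ≤ B ‖v‖²): ∫ ‖v‖³ Ψ ≤ C 8 r⁻³ ∫_y Ψ y M y, M y = ∫_{ball y (r/2)} ‖v‖³, and locs: M⁴ ≤ C E1³ G1³ ≤ C K³ r³ G³ (G = G1 r v y ≥ 0). Elementary: if x, a, G ≥ 0, η > 0 and x⁴ ≤ a G³ then x ≤ η G + a / η³
(if G ≥ a / η⁴ then a G³ ≤ η⁴ G⁴; else x⁴ ≤ a (a/η⁴)³ = (a/η³)⁴). With x = M / r, a = C K³ / r: M ≤ r (η G + C K³ / (r η³)). Integrate against Ψ: ∫ ‖v‖³ Ψ ≤ 8 C r⁻³ · r (η ∫ Ψ G + C K³/(r η³) VV Ψ) ≤ r (8 C² η (DD + 10 C K / r) + 80 C² K³/(r η³)). Choose η with 8 C² η ≤ δ (η = δ / (8 C²)); K, K³ ≤ (1+K)⁵.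
(integrability of Ψ y M y and Ψ y G y: first part of avg.)
-/
import Pool.Agent.H94.LS.DA
import Pool.Agent.H94.LS.DSo

set_option autoImplicit false

open Set Filter Topology MeasureTheory
open scoped ContDiff

namespace Pool.Agent.H94.LS

open Pool.Agent.H16 Pool.Agent.H87.NS Pool.Agent.H72.CC Pool.Agent.H16.TU

theorem DC_el {x a G η : ℝ} (ha : 0 ≤ a) (hG : 0 ≤ G) (hη : 0 < η)
    (h : x ^ 4 ≤ a * G ^ 3) : x ≤ η * G + a / η ^ 3 := by
  by_contra hc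
  push Not at hc
  obtain ⟨u, hu⟩ : ∃ u, u = η * G := ⟨_, rfl⟩
  obtain ⟨w, hw⟩ : ∃ w, w = a / η ^ 3 := ⟨_, rfl⟩
  have hu0 : 0 ≤ u := by rw [hu]; positivity
  have hw0 : 0 ≤ w := by rw [hw]; positivity
  rw [← hu, ← hw] at hc
  have h1 : (u + w) ^ 4 < x ^ 4 := pow_lt_pow_left₀ hc (by positivity) (by norm_num)
  have h2 : a * G ^ 3 = u ^ 3 * w := by
    rw [hu, hw]
    field_simp
  have h3 : u ^ 3 * w ≤ (u + w) ^ 4 := by
    have e : (u + w) ^ 4 = u ^ 3 * w + (u ^ 4 + 3 * u ^ 3 * w + 6 * u ^ 2 * w ^ 2 +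
        4 * u * w ^ 3 + w ^ 4) := by ring
    rw [e]
    have : 0 ≤ u ^ 4 + 3 * u ^ 3 * w + 6 * u ^ 2 * w ^ 2 + 4 * u * w ^ 3 + w ^ 4 := by positivity
    linarith
  linarith

theorem mo_ss : ∃ C : ℝ, 0 < C ∧ ∀ r K z : ℝ, 0 < r → 0 ≤ K → ∀ v : E3 → E3, Vf v → Mo r K v → SS v (wt r r z) ≤ C * K * r := by
  obtain ⟨C, hC, h⟩ := avg
  refine ⟨10 * C, by positivity, fun r K z hr hK v hv hm => ?_⟩
  obtain ⟨B, hB, hb, i2, ig⟩ := ba_vf hv
  have w := wt_wc hr le_rfl z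
  have hV := (wt_int hr hr z).2
  have cn := (ba_gvc hv.sm).2.1
  obtain ⟨h1, h2, -⟩ := h r r z hr le_rfl (fun x => ‖v x‖ ^ 2) (B ^ 2) (cn.pow 2)
    (fun x => ⟨by positivity, pow_le_pow_left₀ (norm_nonneg _) (hb x).1 2⟩) i2
  have h4 : ∫ y, wt r r z y * ∫ x in Metric.ball y r, ‖v x‖ ^ 2 ≤ VV (wt r r z) * (K * r) := by
    unfold VV
    rw [← integral_mul_const]
    exact integral_mono h1 (w.int.mul_const _)
      (fun y => mul_le_mul_of_nonneg_left (hm y) (w.nn y))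
  have h5 : VV (wt r r z) * (K * r) ≤ 10 * r ^ 2 * r * (K * r) :=
    mul_le_mul_of_nonneg_right hV (by positivity)
  have h6 : SS v (wt r r z) ≤ C * (r ^ 3)⁻¹ * (10 * r ^ 2 * r * (K * r)) := by
    refine h2.trans ?_
    exact mul_le_mul_of_nonneg_left (h4.trans h5) (by positivity)
  refine h6.trans (le_of_eq ?_)
  field_simp

theorem g_avg : ∃ C : ℝ, 0 < C ∧ ∀ r K z : ℝ, 0 < r → 0 ≤ K → ∀ v : E3 → E3, Vf v → Mo r K v →
    Integrable (fun y => wt r r z y * G1 r v y) ∧ ∫ y, wt r r z y * G1 r v y ≤ C * r ^ 3 * (DD v (wt r r z) + K / r) := by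
  obtain ⟨C, hC, h⟩ := avg
  obtain ⟨C₁, hC₁, h'⟩ := mo_ss
  refine ⟨C * (1 + C₁), by positivity, fun r K z hr hK v hv hm => ?_⟩
  obtain ⟨B, hB, hb, i2, ig⟩ := ba_vf hv
  have w := wt_wc hr le_rfl z
  obtain ⟨cg, cn, -⟩ := ba_gvc hv.sm
  have hg0 : ∀ x, 0 ≤ gv v x := fun x => (ba_gv x 0 0).1
  obtain ⟨h1, -, h3⟩ := h r r z hr le_rfl (fun x => gv v x + (r ^ 2)⁻¹ * ‖v x‖ ^ 2)
    (B + (r ^ 2)⁻¹ * B ^ 2) (cg.add ((cn.pow 2).const_mul _))
    (fun x => ⟨by have := hg0 x; positivity, by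
      have h4 := pow_le_pow_left₀ (norm_nonneg _) (hb x).1 2
      have h5 := mul_le_mul_of_nonneg_left h4 (show (0:ℝ) ≤ (r ^ 2)⁻¹ by positivity)
      have h6 := (hb x).2.1
      linarith⟩) (ig.add (i2.const_mul _))
  have e0 : (fun y => wt r r z y * G1 r v y) = fun y => wt r r z y *
      ∫ x in Metric.ball y r, (gv v x + (r ^ 2)⁻¹ * ‖v x‖ ^ 2) := rfl
  rw [e0]
  refine ⟨h1, h3.trans ?_⟩
  have i3 : Integrable (fun x => gv v x * wt r r z x) := wi w cg (K := B) (fun x => by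
    rw [abs_of_nonneg (hg0 x)]
    exact (hb x).2.1)
  have i4 : Integrable (fun x => ‖v x‖ ^ 2 * wt r r z x) := wi w (cn.pow 2) (K := B ^ 2) (fun x => by
    rw [abs_of_nonneg (by positivity)]
    exact pow_le_pow_left₀ (norm_nonneg _) (hb x).1 2)
  have e1 : ∫ x, (gv v x + (r ^ 2)⁻¹ * ‖v x‖ ^ 2) * wt r r z x =
      DD v (wt r r z) + (r ^ 2)⁻¹ * SS v (wt r r z) := by
    unfold DD SS
    rw [← integral_const_mul, ← integral_add i3 (i4.const_mul _)]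
    refine integral_congr_ae (Filter.Eventually.of_forall fun x => ?_)
    simp only
    ring
  have hD : 0 ≤ DD v (wt r r z) := by
    unfold DD
    exact integral_nonneg fun x => mul_nonneg (hg0 x) (w.nn x)
  rw [e1]
  have h7 := h' r K z hr hK v hv hm
  have h8 : (r ^ 2)⁻¹ * SS v (wt r r z) ≤ C₁ * (K / r) := by
    have h9 := mul_le_mul_of_nonneg_left h7 (show (0:ℝ) ≤ (r ^ 2)⁻¹ by positivity)
    refine h9.trans (le_of_eq ?_)
    field_simp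
  have h10 : DD v (wt r r z) + (r ^ 2)⁻¹ * SS v (wt r r z) ≤
      (1 + C₁) * (DD v (wt r r z) + K / r) := by
    have h11 : 0 ≤ K / r := by positivity
    nlinarith [mul_nonneg hC₁.le hD]
  calc C * r ^ 3 * (DD v (wt r r z) + (r ^ 2)⁻¹ * SS v (wt r r z))
      ≤ C * r ^ 3 * ((1 + C₁) * (DD v (wt r r z) + K / r)) :=
        mul_le_mul_of_nonneg_left h10 (by positivity)
    _ = _ := by ring

theorem cub : ∀ δ : ℝ, 0 < δ → ∃ C : ℝ, 0 < C ∧ ∀ r K z : ℝ, 0 < r → 0 ≤ K → ∀ v : E3 → E3, Vf v → Mo r K v →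
    ∫ x, ‖v x‖ ^ 3 * wt r r z x ≤ r * (δ * DD v (wt r r z) + C * (1 + K) ^ 5 / r) := by
  intro δ hδ
  obtain ⟨C₂, hC₂, h2⟩ := avg
  obtain ⟨C₃, hC₃, h3⟩ := g_avg
  obtain ⟨C, hC, h4⟩ := locs
  obtain ⟨η, hη⟩ : ∃ η, η = δ / (8 * C₂ * C₃) := ⟨_, rfl⟩
  have hη0 : 0 < η := by rw [hη]; positivity
  refine ⟨δ + 80 * C₂ * C / η ^ 3, by positivity, fun r K z hr hK v hv hm => ?_⟩
  obtain ⟨B, hB, hb, i2, ig⟩ := ba_vf hv
  have w := wt_wc hr le_rfl z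
  have hV := (wt_int hr hr z).2
  obtain ⟨cg, cn, -⟩ := ba_gvc hv.sm
  have hg0 : ∀ x, 0 ≤ gv v x := fun x => (ba_gv x 0 0).1
  obtain ⟨h5, h6⟩ := h3 r K z hr hK v hv hm
  have i3 : Integrable (fun x => ‖v x‖ ^ 3) := by
    refine Integrable.mono' (i2.const_mul B) (cn.pow 3).aestronglyMeasurable ?_
    refine Filter.Eventually.of_forall fun x => ?_
    rw [Real.norm_eq_abs, abs_of_nonneg (by positivity)]
    have := mul_le_mul_of_nonneg_right (hb x).1 (show (0:ℝ) ≤ ‖v x‖ ^ 2 by positivity)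
    calc ‖v x‖ ^ 3 = ‖v x‖ * ‖v x‖ ^ 2 := by ring
      _ ≤ _ := this
  obtain ⟨h7, h8, -⟩ := h2 r (r / 2) z (by positivity) (by linarith) (fun x => ‖v x‖ ^ 3) (B ^ 3)
    (cn.pow 3) (fun x => ⟨by positivity, pow_le_pow_left₀ (norm_nonneg _) (hb x).1 3⟩) i3
  have hD : 0 ≤ DD v (wt r r z) := by
    unfold DD
    exact integral_nonneg fun x => mul_nonneg (hg0 x) (w.nn x)
  have hG : ∀ y, 0 ≤ G1 r v y := fun y => by
    unfold G1
    refine integral_nonneg fun x => ?_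
    have := hg0 x
    change 0 ≤ gv v x + (r ^ 2)⁻¹ * ‖v x‖ ^ 2
    positivity
  have hE0 : ∀ y, 0 ≤ E1 r v y := fun y => by
    unfold E1
    exact integral_nonneg fun x => by positivity
  have hE : ∀ y, E1 r v y ≤ K * r := fun y => hm y
  have hM : ∀ y, ∫ x in Metric.ball y (r / 2), ‖v x‖ ^ 3 ≤ η * r * G1 r v y + C * K ^ 3 / η ^ 3 := by
    intro y
    have h9 := (h4 v hv r hr y).2
    have h10 : C * E1 r v y ^ 3 * G1 r v y ^ 3 ≤ C * (K * r) ^ 3 * G1 r v y ^ 3 := by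
      have h11 := pow_le_pow_left₀ (hE0 y) (hE y) 3
      have h12 := hG y
      have h13 := mul_le_mul_of_nonneg_left h11 hC.le
      exact mul_le_mul_of_nonneg_right h13 (by positivity)
    have h14 := DC_el (a := C * (K * r) ^ 3) (η := η * r) (by positivity) (hG y) (by positivity)
      (h9.trans h10)
    refine h14.trans (le_of_eq ?_)
    congr 1
    field_simp
  have h15 : ∫ y, wt r r z y * ∫ x in Metric.ball y (r / 2), ‖v x‖ ^ 3 ≤
      η * r * (∫ y, wt r r z y * G1 r v y) + C * K ^ 3 / η ^ 3 * VV (wt r r z) := by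
    unfold VV
    rw [← integral_const_mul, ← integral_const_mul, ← integral_add (h5.const_mul _)
      (w.int.const_mul _)]
    refine integral_mono h7 ((h5.const_mul _).add (w.int.const_mul _)) fun y => ?_
    have h16 := mul_le_mul_of_nonneg_left (hM y) (w.nn y)
    change wt r r z y * ∫ x in Metric.ball y (r / 2), ‖v x‖ ^ 3 ≤
      η * r * (wt r r z y * G1 r v y) + C * K ^ 3 / η ^ 3 * wt r r z y
    refine h16.trans (le_of_eq ?_)
    ring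
  have h17 : ∫ y, wt r r z y * ∫ x in Metric.ball y (r / 2), ‖v x‖ ^ 3 ≤
      η * r * (C₃ * r ^ 3 * (DD v (wt r r z) + K / r)) + C * K ^ 3 / η ^ 3 * (10 * r ^ 2 * r) := by
    refine h15.trans (add_le_add ?_ ?_)
    · exact mul_le_mul_of_nonneg_left h6 (by positivity)
    · exact mul_le_mul_of_nonneg_left hV (by positivity)
  have h18 : ∫ x, ‖v x‖ ^ 3 * wt r r z x ≤ C₂ * ((r / 2) ^ 3)⁻¹ *
      (η * r * (C₃ * r ^ 3 * (DD v (wt r r z) + K / r)) +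
        C * K ^ 3 / η ^ 3 * (10 * r ^ 2 * r)) := by
    refine h8.trans ?_
    exact mul_le_mul_of_nonneg_left h17 (by positivity)
  refine h18.trans ?_
  have e1 : C₂ * ((r / 2) ^ 3)⁻¹ *
      (η * r * (C₃ * r ^ 3 * (DD v (wt r r z) + K / r)) +
        C * K ^ 3 / η ^ 3 * (10 * r ^ 2 * r)) =
      r * ((8 * C₂ * C₃ * η) * DD v (wt r r z) +
        ((8 * C₂ * C₃ * η) * K + 80 * C₂ * C / η ^ 3 * K ^ 3) / r) := by
    field_simp
    ring
  have e2 : 8 * C₂ * C₃ * η = δ := by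
    rw [hη]
    field_simp
  rw [e1, e2]
  have hK1 : K ≤ (1 + K) ^ 5 := by
    have : 1 + K ≤ (1 + K) ^ 5 := le_self_pow₀ (by linarith) (by norm_num)
    linarith
  have hK3 : K ^ 3 ≤ (1 + K) ^ 5 := by
    have h19 : (1 + K) ^ 3 ≤ (1 + K) ^ 5 := pow_le_pow_right₀ (by linarith) (by norm_num)
    have h20 : K ^ 3 ≤ (1 + K) ^ 3 := pow_le_pow_left₀ hK (by linarith) 3
    linarith
  refine mul_le_mul_of_nonneg_left (add_le_add le_rfl ?_) hr.le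
  refine div_le_div_of_nonneg_right ?_ hr.le
  have h21 := mul_le_mul_of_nonneg_left hK1 hδ.le
  have h22 := mul_le_mul_of_nonneg_left hK3 (show 0 ≤ 80 * C₂ * C / η ^ 3 by positivity)
  linarith

end Pool.Agent.H94.LS
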