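/-
ROW DF (MP_09540e_DS). The far part. PROOF. Let l = r/4, w z = ((max ‖z‖ l)⁴)⁻¹, continuous, integrable with ∫ w ≤ C / l (ball of radius l: volume (4π/3) l³ times l⁻⁴; outside: 4 π ∫_l^∞ s⁻² ds = 4 π / l; or: w ≤ 16 (‖z‖² + l²)⁻² and scale).
Step 1: for each x, U x = ∫ ‖v y‖² w (x - y) dy ≤ C K / r³. For ‖z' - z‖ ≤ r/2 = 2 l: max ‖z'‖ l ≤ max ‖z‖ l + 2 l ≤ 3 max ‖z‖ l, so w z ≤ 81 w z'. The ball of radius r/2 has volume ≥ 4 (r/2)³ = r³/2, so w z ≤ 162 r⁻³ ∫_{‖z'-z‖<r/2} w z' dz'.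
So U x ≤ 162 r⁻³ ∫_y ‖v y‖² ∫_{z'} 1(‖z' - (x-y)‖ < r/2) w z' dz' dy = 162 r⁻³ ∫_{z'} w z' (∫_{ball (x - z') (r/2)} ‖v‖²) dz' ≤ 162 r⁻³ · K r · ∫ w ≤ C K r⁻³ (Fubini for nonnegative functions: ‖v‖² integrable by Vf (Pe_vi or DB_BL), w integrable; Mo r K v gives the inner bound, ball (r/2) ⊆ ball r).
Step 2: ∫_y ‖v y‖² FB l F y = ∫_x (∑ |F k x|) U x dx (Fubini, all nonnegative, F k integrable (TF), w bounded, ‖v‖² integrable; w (x - y) = w (y - x)) ≤ C K / r³ ∫ ∑ |F k|.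
-/
import Pool.Agent.H94.LS.DDefs

set_option autoImplicit false

open Set Filter Topology MeasureTheory
open scoped ContDiff

namespace Pool.Agent.H94.LS

open Pool.Agent.H16 Pool.Agent.H87.NS Pool.Agent.H72.CC Pool.Agent.H16.TU

/-- The far kernel. -/
noncomputable def DF_w (l : ℝ) (z : E3) : ℝ := ((max ‖z‖ l) ^ 4)⁻¹

theorem DF_pos {l : ℝ} (hl : 0 < l) (z : E3) : 0 < DF_w l z := by
  unfold DF_w
  have : 0 < max ‖z‖ l := lt_max_of_lt_right hl
  positivity

theorem DF_le {l : ℝ} (hl : 0 < l) (z : E3) : DF_w l z ≤ (l ^ 4)⁻¹ := by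
  unfold DF_w
  exact inv_anti₀ (by positivity) (pow_le_pow_left₀ hl.le (le_max_right _ _) 4)

theorem DF_cont {l : ℝ} (hl : 0 < l) : Continuous (DF_w l) := by
  unfold DF_w
  refine Continuous.inv₀ (by fun_prop) ?_
  intro z
  have : 0 < max ‖z‖ l := lt_max_of_lt_right hl
  positivity

theorem DF_scale {l : ℝ} (hl : 0 < l) (z : E3) : DF_w l z = (l ^ 4)⁻¹ * DF_w 1 (l⁻¹ • z) := by
  unfold DF_w
  rw [norm_smul, norm_inv, Real.norm_of_nonneg hl.le, ← mul_inv, ← mul_pow,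
    mul_max_of_nonneg _ _ hl.le, mul_one, mul_inv_cancel_left₀ hl.ne']

theorem DF_int1 : Integrable (DF_w 1) := by
  have h : Integrable (fun x : E3 => (1 + ‖x‖ ^ 2) ^ (-(4 : ℝ) / 2)) :=
    integrable_rpow_neg_one_add_norm_sq (by simp; norm_num)
  refine (h.const_mul 4).mono' (DF_cont one_pos).aestronglyMeasurable
    (Eventually.of_forall fun x => ?_)
  rw [Real.norm_of_nonneg (DF_pos one_pos x).le]
  have e : (1 + ‖x‖ ^ 2) ^ (-(4 : ℝ) / 2) = ((1 + ‖x‖ ^ 2) ^ 2)⁻¹ := by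
    rw [show (-(4 : ℝ) / 2) = -(2 : ℕ) by norm_num, Real.rpow_neg (by positivity), Real.rpow_natCast]
  rw [e]
  unfold DF_w
  have h1 : (1 : ℝ) ≤ max ‖x‖ 1 := le_max_right _ _
  have h2 : ‖x‖ ≤ max ‖x‖ 1 := le_max_left _ _
  have h3 : (1 + ‖x‖ ^ 2) ≤ 2 * max ‖x‖ 1 ^ 2 := by
    nlinarith [norm_nonneg x]
  have h4 : (1 + ‖x‖ ^ 2) ^ 2 ≤ 4 * max ‖x‖ 1 ^ 4 := by
    have : (1 + ‖x‖ ^ 2) ^ 2 ≤ (2 * max ‖x‖ 1 ^ 2) ^ 2 := pow_le_pow_left₀ (by positivity) h3 2
    nlinarith
  rw [← div_eq_mul_inv, inv_eq_one_div, div_le_div_iff₀ (by positivity) (by positivity)]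
  linarith

theorem DF_int {l : ℝ} (hl : 0 < l) : Integrable (DF_w l) := by
  have h : Integrable (fun z : E3 => DF_w 1 (l⁻¹ • z)) := DF_int1.comp_smul (inv_ne_zero hl.ne')
  exact (h.const_mul ((l ^ 4)⁻¹)).congr (Eventually.of_forall fun z => (DF_scale hl z).symm)

theorem DF_val {l : ℝ} (hl : 0 < l) : ∫ z, DF_w l z = (∫ z, DF_w 1 z) / l := by
  have h : ∫ z, DF_w l z = ∫ z : E3, (l ^ 4)⁻¹ * DF_w 1 (l⁻¹ • z) :=
    integral_congr_ae (Eventually.of_forall fun z => DF_scale hl z)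
  rw [h, integral_const_mul, Measure.integral_comp_inv_smul_of_nonneg _ _ hl.le]
  simp only [finrank_euclideanSpace, Fintype.card_fin, smul_eq_mul]
  field_simp

theorem DF_cmp {l : ℝ} (hl : 0 < l) {z z' : E3} (h : ‖z' - z‖ < 2 * l) :
    DF_w l z ≤ 81 * DF_w l z' := by
  unfold DF_w
  have hz : 0 < max ‖z‖ l := lt_max_of_lt_right hl
  have hz' : 0 < max ‖z'‖ l := lt_max_of_lt_right hl
  have h1 : max ‖z'‖ l ≤ 3 * max ‖z‖ l := by
    have a1 : ‖z'‖ ≤ ‖z‖ + 2 * l := by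
      have : z' = z + (z' - z) := by abel
      rw [this]
      exact (norm_add_le _ _).trans (by linarith)
    have a2 : ‖z‖ ≤ max ‖z‖ l := le_max_left _ _
    have a3 : l ≤ max ‖z‖ l := le_max_right _ _
    exact max_le (by linarith) (by linarith)
  have h2 : max ‖z'‖ l ^ 4 ≤ 81 * max ‖z‖ l ^ 4 := by
    calc max ‖z'‖ l ^ 4 ≤ (3 * max ‖z‖ l) ^ 4 := pow_le_pow_left₀ hz'.le h1 4
      _ = 81 * max ‖z‖ l ^ 4 := by ring
  rw [← div_eq_mul_inv, inv_eq_one_div, div_le_div_iff₀ (by positivity) (by positivity)]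
  linarith

/-- Step 1: the convolution of the far kernel with the energy density. -/
theorem DF_U {r K : ℝ} (hr : 0 < r) {v : E3 → E3} (hv : Vf v) (hM : Mo r K v) (x : E3) :
    ∫ y, ‖v y‖ ^ 2 * DF_w (r / 4) (x - y) ≤
      (2592 * (∫ z, DF_w 1 z) / volume.real (Metric.ball (0 : E3) 1)) * K / r ^ 3 := by
  have hl : 0 < r / 4 := by positivity
  set w := DF_w (r / 4) with hw
  have fi : Integrable (fun y => ‖v y‖ ^ 2) := (Pe_vi hv).2.2.2
  have fi' : Integrable (fun z => ‖v (x - z)‖ ^ 2) := fi.comp_sub_left x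
  have wi : Integrable w := DF_int hl
  have wc : Continuous w := DF_cont hl
  have vc : Continuous v := hv.sm.continuous
  -- the double integral
  set Z : Set (E3 × E3) := {p | ‖p.2 - p.1‖ < r / 2} with hZ
  have Zo : IsOpen Z := isOpen_lt (by fun_prop) continuous_const
  have J1 : Integrable (fun p : E3 × E3 => ‖v (x - p.1)‖ ^ 2 * w p.2) (volume.prod volume) :=
    fi'.mul_prod wi
  have J2 : Integrable (Z.indicator (fun p : E3 × E3 => ‖v (x - p.1)‖ ^ 2 * w p.2))
      (volume.prod volume) := J1.indicator Zo.measurableSet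
  have swap := integral_integral_swap (f := fun z z' => Z.indicator
    (fun p : E3 × E3 => ‖v (x - p.1)‖ ^ 2 * w p.2) (z, z')) J2
  set V := volume.real (Metric.ball (0 : E3) 1) with hV
  have V0 : 0 < V := ENNReal.toReal_pos (Metric.measure_ball_pos _ _ one_pos).ne' measure_ball_lt_top.ne
  have Vb : ∀ z : E3, volume.real (Metric.ball z (r / 2)) = (r / 2) ^ 3 * V := by
    intro z
    rw [Measure.real, Measure.addHaar_ball _ _ (by positivity), ENNReal.toReal_mul,
      ENNReal.toReal_ofReal (by positivity)]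
    simp [hV, Measure.real]
  -- inner integrals
  have in1 : ∀ z, ‖v (x - z)‖ ^ 2 * w z * ((r / 2) ^ 3 * V / 81) ≤
      ∫ z', Z.indicator (fun p : E3 × E3 => ‖v (x - p.1)‖ ^ 2 * w p.2) (z, z') := by
    intro z
    have e : (fun z' => Z.indicator (fun p : E3 × E3 => ‖v (x - p.1)‖ ^ 2 * w p.2) (z, z')) =
        (Metric.ball z (r / 2)).indicator (fun z' => ‖v (x - z)‖ ^ 2 * w z') := by
      funext z'
      by_cases h : ‖z' - z‖ < r / 2
      · rw [indicator_of_mem (by exact h), indicator_of_mem (by simpa [dist_eq_norm] using h)]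
      · rw [indicator_of_notMem (by exact h), indicator_of_notMem (by simpa [dist_eq_norm] using h)]
    rw [e, integral_indicator Metric.isOpen_ball.measurableSet, integral_const_mul]
    have h1 : w z / 81 * ((r / 2) ^ 3 * V) ≤ ∫ z' in Metric.ball z (r / 2), w z' := by
      rw [← Vb z]
      have h2 : ∫ z' in Metric.ball z (r / 2), w z / 81 = w z / 81 * volume.real (Metric.ball z (r / 2)) := by
        rw [setIntegral_const, smul_eq_mul, mul_comm]
      rw [← h2]
      refine setIntegral_mono_on (integrableOn_const measure_ball_lt_top.ne) wi.integrableOn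
        Metric.isOpen_ball.measurableSet fun z' hz' => ?_
      have := DF_cmp hl (z := z) (z' := z') (by
        rw [Metric.mem_ball, dist_eq_norm] at hz'
        linarith)
      rw [hw]
      linarith
    calc ‖v (x - z)‖ ^ 2 * w z * ((r / 2) ^ 3 * V / 81)
        = ‖v (x - z)‖ ^ 2 * (w z / 81 * ((r / 2) ^ 3 * V)) := by ring
      _ ≤ _ := mul_le_mul_of_nonneg_left h1 (by positivity)
  have in2 : ∀ z', ∫ z, Z.indicator (fun p : E3 × E3 => ‖v (x - p.1)‖ ^ 2 * w p.2) (z, z') ≤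
      K * r * w z' := by
    intro z'
    have e : (fun z => Z.indicator (fun p : E3 × E3 => ‖v (x - p.1)‖ ^ 2 * w p.2) (z, z')) =
        fun z => (Metric.ball (x - z') (r / 2)).indicator (fun y => ‖v y‖ ^ 2) (x - z) * w z' := by
      funext z
      by_cases h : ‖z' - z‖ < r / 2
      · rw [indicator_of_mem (by exact h), indicator_of_mem (by
          rw [Metric.mem_ball, dist_eq_norm]
          rw [show x - z - (x - z') = z' - z by abel]
          exact h)]
      · rw [indicator_of_notMem (by exact h), indicator_of_notMem (by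
          rw [Metric.mem_ball, dist_eq_norm]
          rw [show x - z - (x - z') = z' - z by abel]
          exact h), zero_mul]
    rw [e, integral_mul_const, integral_sub_left_eq_self
      (fun y => (Metric.ball (x - z') (r / 2)).indicator (fun y => ‖v y‖ ^ 2) y),
      integral_indicator Metric.isOpen_ball.measurableSet]
    refine mul_le_mul_of_nonneg_right ?_ (DF_pos hl z').le
    refine le_trans ?_ (hM (x - z'))
    exact setIntegral_mono_set fi.integrableOn (Eventually.of_forall fun y => by positivity)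
      (Metric.ball_subset_ball (by linarith)).eventuallyLE
  -- combine
  have c1 : (∫ z, ‖v (x - z)‖ ^ 2 * w z) * ((r / 2) ^ 3 * V / 81) ≤
      ∫ z, ∫ z', Z.indicator (fun p : E3 × E3 => ‖v (x - p.1)‖ ^ 2 * w p.2) (z, z') := by
    rw [← integral_mul_const]
    refine integral_mono_of_nonneg (Eventually.of_forall fun z => ?_) J2.integral_prod_left
      (Eventually.of_forall in1)
    have := (DF_pos hl z).le
    show 0 ≤ ‖v (x - z)‖ ^ 2 * w z * ((r / 2) ^ 3 * V / 81)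
    positivity
  have c2 : ∫ z', ∫ z, Z.indicator (fun p : E3 × E3 => ‖v (x - p.1)‖ ^ 2 * w p.2) (z, z') ≤
      ∫ z', K * r * w z' := by
    refine integral_mono J2.integral_prod_right (wi.const_mul _) in2
  rw [integral_const_mul, hw, DF_val hl] at c2
  have c3 : ∫ y, ‖v y‖ ^ 2 * w (x - y) = ∫ z, ‖v (x - z)‖ ^ 2 * w z := by
    rw [← integral_sub_left_eq_self (fun y => ‖v y‖ ^ 2 * w (x - y)) volume x]
    refine integral_congr_ae (Eventually.of_forall fun z => ?_)
    show ‖v (x - z)‖ ^ 2 * w (x - (x - z)) = _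
    rw [sub_sub_cancel]
  rw [c3]
  have c4 := (c1.trans_eq swap).trans c2
  set W := ∫ z, DF_w 1 z
  have c5 : (∫ z, ‖v (x - z)‖ ^ 2 * w z) * ((r / 2) ^ 3 * V / 81) ≤ 4 * K * W := by
    refine c4.trans_eq ?_
    field_simp
  have : (2592 * W / V) * K / r ^ 3 = (4 * K * W) / ((r / 2) ^ 3 * V / 81) := by
    field_simp
    ring
  rw [this, le_div_iff₀ (by positivity)]
  exact c5

theorem far : ∃ C : ℝ, 0 < C ∧ ∀ r K : ℝ, 0 < r → 0 ≤ K → ∀ v : E3 → E3, Vf v → Mo r K v → ∀ F : Fin 3 → E3 → ℝ, (∀ k, TF (F k)) →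
    ∫ y, ‖v y‖ ^ 2 * FB (r / 4) F y ≤ C * K / r ^ 3 * ∫ x, ∑ k : Fin 3, |F k x| := by
  set W := ∫ z : E3, DF_w 1 z with hW
  set V := volume.real (Metric.ball (0 : E3) 1) with hV
  have V0 : 0 < V := ENNReal.toReal_pos (Metric.measure_ball_pos _ _ one_pos).ne' measure_ball_lt_top.ne
  have W0 : 0 ≤ W := integral_nonneg fun z => (DF_pos one_pos z).le
  refine ⟨2592 * W / V + 1, by positivity, fun r K hr hK v hv hM F hF => ?_⟩
  have hl : 0 < r / 4 := by positivity
  have fi : Integrable (fun y => ‖v y‖ ^ 2) := (Pe_vi hv).2.2.2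
  have Si : Integrable (fun x => ∑ k : Fin 3, |F k x|) :=
    integrable_finsetSum _ fun k _ => (hF k).int.abs
  have S0 : ∀ x, 0 ≤ ∑ k : Fin 3, |F k x| := fun x => Finset.sum_nonneg fun k _ => abs_nonneg _
  have P1 : Integrable (fun p : E3 × E3 => ‖v p.1‖ ^ 2 * (∑ k : Fin 3, |F k p.2|))
      (volume.prod volume) := fi.mul_prod Si
  have P2 : Integrable (fun p : E3 × E3 => DF_w (r / 4) (p.2 - p.1) *
      (‖v p.1‖ ^ 2 * (∑ k : Fin 3, |F k p.2|))) (volume.prod volume) := by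
    refine P1.bdd_mul (c := ((r / 4) ^ 4)⁻¹) ?_ (Eventually.of_forall fun p => ?_)
    · exact ((DF_cont hl).comp (continuous_snd.sub continuous_fst)).aestronglyMeasurable
    · rw [Real.norm_of_nonneg (DF_pos hl _).le]
      exact DF_le hl _
  have sw := integral_integral_swap (f := fun y x => DF_w (r / 4) (x - y) *
      (‖v y‖ ^ 2 * (∑ k : Fin 3, |F k x|))) P2
  have e1 : ∫ y, ‖v y‖ ^ 2 * FB (r / 4) F y = ∫ y, ∫ x, DF_w (r / 4) (x - y) *
      (‖v y‖ ^ 2 * (∑ k : Fin 3, |F k x|)) := by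
    refine integral_congr_ae (Eventually.of_forall fun y => ?_)
    show ‖v y‖ ^ 2 * FB (r / 4) F y = _
    unfold FB
    rw [← integral_const_mul]
    refine integral_congr_ae (Eventually.of_forall fun x => ?_)
    show ‖v y‖ ^ 2 * (DF_w (r / 4) (x - y) * _) = _
    ring
  rw [e1, sw, ← integral_const_mul]
  refine integral_mono_of_nonneg (Eventually.of_forall fun x => ?_) (Si.const_mul _)
    (Eventually.of_forall fun x => ?_)
  · refine integral_nonneg fun y => ?_
    have := (DF_pos hl (x - y)).le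
    have := S0 x
    show 0 ≤ DF_w (r / 4) (x - y) * (‖v y‖ ^ 2 * (∑ k : Fin 3, |F k x|))
    positivity
  · show ∫ y, DF_w (r / 4) (x - y) * (‖v y‖ ^ 2 * (∑ k : Fin 3, |F k x|)) ≤ _
    have e2 : ∫ y, DF_w (r / 4) (x - y) * (‖v y‖ ^ 2 * (∑ k : Fin 3, |F k x|)) =
        (∫ y, ‖v y‖ ^ 2 * DF_w (r / 4) (x - y)) * (∑ k : Fin 3, |F k x|) := by
      rw [← integral_mul_const]
      refine integral_congr_ae (Eventually.of_forall fun y => ?_)
      show DF_w (r / 4) (x - y) * (‖v y‖ ^ 2 * (∑ k : Fin 3, |F k x|)) = _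
      ring
    rw [e2]
    refine mul_le_mul_of_nonneg_right ((DF_U hr hv hM x).trans ?_) (S0 x)
    have : 2592 * W / V * K / r ^ 3 ≤ (2592 * W / V + 1) * K / r ^ 3 := by
      gcongr
      linarith
    exact this

end Pool.Agent.H94.LS
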