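/-
ROW DK (MP_09540e_DS). Third derivatives of the far kernel k2 (H16/TU/Pk.lean), uniformly in ε. PROOF. As k_b in H16/TU/Pk.lean, one order more.
k2 ε l = (1 - ζ) nk ε with ζ = zc (l/2) l (function of ‖x‖²: ζ = h (‖x‖²), Cut_h). nk ε x = (‖x‖²+ε²)^(-1/2); pd i nk = - MK ε i, pd j (MK ε i) = δ_ij P^(-3/2) - 3 x_i x_j P^(-5/2), P = ‖x‖²+ε² (MK_pd),
so pd m pd j pd i nk = 3 (δ_ij x_m + δ_im x_j + δ_jm x_i) P^(-5/2) - 15 x_i x_j x_m P^(-7/2) (pd m (P^a) = 2 a x_m P^(a-1), as in Newt_K), at most 24 ‖x‖⁻⁴ for x ≠ 0 (Pk_pw, |x_i| ≤ ‖x‖).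
Cut-off: smoothTransition s has a bounded third derivative too (it is smooth, constant for y ≤ 0 and y ≥ 1: continuous with compact support, as in Cut_bd), so |pd m pd i pd j ζ| ≤ C / l³ (three derivatives of h (‖x‖²), |x_i| ≤ l on the support of the derivatives of ζ, i.e. ‖x‖ ≤ l), zero for l ≤ ‖x‖.
For ‖x‖ < l/2 the kernel k2 vanishes near x (as in k_b: zc_one), all derivatives are zero. For ‖x‖ ≥ l/2 Leibniz (8 terms, Pk_mul twice and once more): |ζ-derivative of order a| |nk-derivative of order 3-a| ≤ C l^(-a) [‖x‖ ≤ l] ‖x‖^(-1-(3-a)) ≤ C ‖x‖⁻⁴,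
and max ‖x‖ l ≤ 2 ‖x‖, so ‖x‖⁻⁴ ≤ 16 (max ‖x‖ l)⁻⁴. Auxiliary lemmas of your own in this file are welcome (names DK_...).
-/
import Pool.Agent.H94.LS.DDefs

set_option autoImplicit false

open Set Filter Topology MeasureTheory
open scoped ContDiff

namespace Pool.Agent.H94.LS

open Pool.Agent.H16 Pool.Agent.H87.NS Pool.Agent.H72.CC Pool.Agent.H16.TU

theorem DK_p7 : (-(5/2) : ℝ) - 1 = -(7/2) := by norm_num

theorem DK_p5 : (-(3/2) : ℝ) - 1 = -(5/2) := by norm_num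

theorem DK_rp {ε : ℝ} (hε : 0 < ε) (a : ℝ) (m : Fin 3) (z : E3) :
    pd m (fun z : E3 => (‖z‖ ^ 2 + ε ^ 2) ^ a) z = 2 * a * z m * (‖z‖ ^ 2 + ε ^ 2) ^ (a - 1) := by
  have hP := KInt_P_pos hε z
  have h2 : HasFDerivAt (fun z : E3 => ‖z‖ ^ 2) (2 • (innerSL ℝ z : E3 →L[ℝ] ℝ)) z :=
    (hasStrictFDerivAt_norm_sq z).hasFDerivAt
  have h3 : HasFDerivAt (fun z : E3 => ‖z‖ ^ 2 + ε ^ 2) (2 • (innerSL ℝ z : E3 →L[ℝ] ℝ)) z :=
    h2.add_const _
  have h4 := h3.rpow_const (p := a) (Or.inl hP.ne')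
  unfold pd
  rw [h4.fderiv]
  have h7 : inner ℝ z (e m) = z m := by
    simp [e, EuclideanSpace.inner_single_right]
  simp only [_root_.smul_apply, smul_eq_mul, innerSL_apply_apply, nsmul_eq_mul, h7]
  push_cast
  ring

theorem DK_co (c : ℝ) (k m : Fin 3) (x : E3) : pd m (fun y : E3 => c * y k) x = if k = m then c else 0 := by
  unfold pd
  have h : HasFDerivAt (fun y : E3 => c * y k) (c • (EuclideanSpace.proj (𝕜 := ℝ) k : E3 →L[ℝ] ℝ)) x :=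
    ((EuclideanSpace.proj (𝕜 := ℝ) k : E3 →L[ℝ] ℝ).hasFDerivAt).const_mul c
  rw [h.fderiv]
  have h8 : (EuclideanSpace.proj k : E3 →L[ℝ] ℝ) (e m) = if k = m then 1 else 0 := e_apply m k
  simp only [_root_.smul_apply, smul_eq_mul, h8]
  split_ifs <;> ring

theorem DK_sm (c : ℝ) (k : Fin 3) : ContDiff ℝ ∞ (fun y : E3 => c * y k) := contDiff_const.mul (Cut_coord k)

theorem DK_cm (c : ℝ) {g : E3 → ℝ} (hg : ContDiff ℝ ∞ g) (m : Fin 3) (x : E3) :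
    pd m (fun y => c * g y) x = c * pd m g x := by
  have h := congrFun (Pk_mul (contDiff_const (c := c)) hg m) x
  rw [h]
  have h0 : pd m (fun _ : E3 => c) x = 0 := by
    unfold pd
    simp
  simp only [h0]
  ring

/-- the third derivatives of the kernel -/
theorem DK_n3 {ε : ℝ} (hε : 0 < ε) (m i j : Fin 3) (x : E3) :
    pd m (pd i (pd j (nk ε))) x =
      (if j = i then -1 else 0) * (-3 * x m * (‖x‖ ^ 2 + ε ^ 2) ^ (-(5/2) : ℝ)) +
      (((if j = m then 3 else 0) * (1 * x i) + 3 * x j * (if i = m then 1 else 0)) * (‖x‖ ^ 2 + ε ^ 2) ^ (-(5/2) : ℝ) +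
      3 * x j * (1 * x i) * (-5 * x m * (‖x‖ ^ 2 + ε ^ 2) ^ (-(7/2) : ℝ))) := by
  have h0 : pd i (pd j (nk ε)) = fun x : E3 => (if j = i then -1 else 0) * (‖x‖ ^ 2 + ε ^ 2) ^ (-(3/2) : ℝ) +
      (3 * x j) * (1 * x i) * (‖x‖ ^ 2 + ε ^ 2) ^ (-(5/2) : ℝ) := by
    funext y
    rw [Pk_nk2 hε, MK_pd hε]
    split_ifs <;> ring
  have s3 : ContDiff ℝ ∞ (fun z : E3 => (‖z‖ ^ 2 + ε ^ 2) ^ (-(3/2) : ℝ)) := KInt_rpow_smooth hε _
  have s5 : ContDiff ℝ ∞ (fun z : E3 => (‖z‖ ^ 2 + ε ^ 2) ^ (-(5/2) : ℝ)) := KInt_rpow_smooth hε _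
  have sj := DK_sm 3 j
  have si := DK_sm 1 i
  have sji : ContDiff ℝ ∞ (fun x : E3 => (3 * x j) * (1 * x i)) := sj.mul si
  rw [h0, Pk_add (contDiff_const.mul s3) (sji.mul s5), DK_cm _ s3, DK_rp hε, DK_p5, Pk_mul sji s5]
  simp only
  rw [Pk_mul sj si, DK_rp hε, DK_p7]
  simp only
  rw [DK_co, DK_co]
  ring

theorem DK_n3b {ε : ℝ} (hε : 0 < ε) {x : E3} (hx : 0 < ‖x‖) (m i j : Fin 3) :
    |pd m (pd i (pd j (nk ε))) x| ≤ 24 * (‖x‖ ^ 4)⁻¹ := by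
  have e5 := Pk_pw (ε := ε) (q := -(5/2)) hx 5 (by norm_num)
  have e7 := Pk_pw (ε := ε) (q := -(7/2)) hx 7 (by norm_num)
  rw [DK_n3 hε]
  obtain ⟨P, hP⟩ : ∃ P, P = (‖x‖ ^ 2 + ε ^ 2) ^ (-(5/2) : ℝ) := ⟨_, rfl⟩
  obtain ⟨Q, hQ⟩ : ∃ Q, Q = (‖x‖ ^ 2 + ε ^ 2) ^ (-(7/2) : ℝ) := ⟨_, rfl⟩
  rw [← hP] at e5 ⊢
  rw [← hQ] at e7 ⊢
  have hm := Pk_co x m
  have hi := Pk_co x i
  have hj := Pk_co x j
  have a1 : |(if j = i then -1 else 0) * (-3 * x m * P)| ≤ 3 * (‖x‖ ^ 4)⁻¹ := by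
    have c1 : |(if j = i then -1 else 0 : ℝ)| ≤ 1 := by split_ifs <;> norm_num
    have c2 : |(-3 : ℝ) * x m * P| ≤ 3 * ‖x‖ * (‖x‖ ^ 5)⁻¹ := by
      rw [abs_mul, abs_mul, abs_of_nonneg e5.1]
      have c3 : |(-3 : ℝ)| * |x m| ≤ 3 * ‖x‖ := by
        rw [abs_neg, abs_of_pos (by norm_num : (0:ℝ) < 3)]
        linarith
      exact mul_le_mul c3 e5.2 e5.1 (by positivity)
    rw [abs_mul]
    calc _ ≤ 1 * (3 * ‖x‖ * (‖x‖ ^ 5)⁻¹) := mul_le_mul c1 c2 (abs_nonneg _) (by norm_num)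
      _ = 3 * (‖x‖ ^ 4)⁻¹ := by field_simp
  have a2 : |((if j = m then 3 else 0) * (1 * x i) + 3 * x j * (if i = m then 1 else 0)) * P| ≤ 6 * (‖x‖ ^ 4)⁻¹ := by
    have c1 : |(if j = m then 3 else 0 : ℝ) * (1 * x i)| ≤ 3 * ‖x‖ := by
      rw [abs_mul, one_mul]
      have : |(if j = m then 3 else 0 : ℝ)| ≤ 3 := by split_ifs <;> norm_num
      exact mul_le_mul this hi (abs_nonneg _) (by norm_num)
    have c2 : |3 * x j * (if i = m then 1 else 0 : ℝ)| ≤ 3 * ‖x‖ := by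
      rw [abs_mul, abs_mul, abs_of_pos (by norm_num : (0:ℝ) < 3)]
      have : |(if i = m then 1 else 0 : ℝ)| ≤ 1 := by split_ifs <;> norm_num
      calc 3 * |x j| * _ ≤ 3 * ‖x‖ * 1 := mul_le_mul (by linarith) this (abs_nonneg _) (by positivity)
        _ = 3 * ‖x‖ := mul_one _
    rw [abs_mul, abs_of_nonneg e5.1]
    calc _ ≤ (3 * ‖x‖ + 3 * ‖x‖) * (‖x‖ ^ 5)⁻¹ :=
          mul_le_mul ((abs_add_le _ _).trans (add_le_add c1 c2)) e5.2 e5.1 (by positivity)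
      _ = 6 * (‖x‖ ^ 4)⁻¹ := by field_simp; norm_num
  have a3 : |3 * x j * (1 * x i) * (-5 * x m * Q)| ≤ 15 * (‖x‖ ^ 4)⁻¹ := by
    have c1 : |3 * x j * (1 * x i)| ≤ 3 * ‖x‖ * ‖x‖ := by
      rw [abs_mul, abs_mul, one_mul, abs_of_pos (by norm_num : (0:ℝ) < 3)]
      exact mul_le_mul (by linarith) hi (abs_nonneg _) (by positivity)
    have c2 : |(-5 : ℝ) * x m * Q| ≤ 5 * ‖x‖ * (‖x‖ ^ 7)⁻¹ := by
      rw [abs_mul, abs_mul, abs_of_nonneg e7.1]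
      have c3 : |(-5 : ℝ)| * |x m| ≤ 5 * ‖x‖ := by
        rw [abs_neg, abs_of_pos (by norm_num : (0:ℝ) < 5)]
        linarith
      exact mul_le_mul c3 e7.2 e7.1 (by positivity)
    rw [abs_mul]
    calc _ ≤ 3 * ‖x‖ * ‖x‖ * (5 * ‖x‖ * (‖x‖ ^ 7)⁻¹) := mul_le_mul c1 c2 (abs_nonneg _) (by positivity)
      _ = 15 * (‖x‖ ^ 4)⁻¹ := by field_simp; norm_num
  calc _ ≤ _ := abs_add_le _ _
    _ ≤ 3 * (‖x‖ ^ 4)⁻¹ + (6 * (‖x‖ ^ 4)⁻¹ + 15 * (‖x‖ ^ 4)⁻¹) :=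
        add_le_add a1 ((abs_add_le _ _).trans (add_le_add a2 a3))
    _ = 24 * (‖x‖ ^ 4)⁻¹ := by ring

/-- the third derivative of the transition function -/
theorem DK_bd : ∃ C : ℝ, 1 ≤ C ∧ (∀ y, |deriv (deriv (deriv Real.smoothTransition)) y| ≤ C) ∧
    (∀ y, y ≤ 0 → deriv (deriv (deriv Real.smoothTransition)) y = 0) := by
  have hs : ContDiff ℝ ∞ Real.smoothTransition := Real.smoothTransition.contDiff
  have hs1 : ContDiff ℝ ∞ (deriv Real.smoothTransition) := (contDiff_infty_iff_deriv.1 hs).2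
  have hs2 : ContDiff ℝ ∞ (deriv (deriv Real.smoothTransition)) := (contDiff_infty_iff_deriv.1 hs1).2
  have hs3 : ContDiff ℝ ∞ (deriv (deriv (deriv Real.smoothTransition))) := (contDiff_infty_iff_deriv.1 hs2).2
  have key : ∀ (c y : ℝ), Real.smoothTransition =ᶠ[𝓝 y] (fun _ => c) → deriv (deriv (deriv Real.smoothTransition)) y = 0 := by
    intro c y e1
    have e3 : deriv Real.smoothTransition =ᶠ[𝓝 y] fun _ => 0 := by
      filter_upwards [e1.deriv] with z hz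
      rw [hz]
      simp
    have e4 : deriv (deriv Real.smoothTransition) =ᶠ[𝓝 y] fun _ => 0 := by
      filter_upwards [e3.deriv] with z hz
      rw [hz]
      simp
    rw [e4.deriv_eq]
    simp
  have h1 : ∀ y : ℝ, 1 < y → deriv (deriv (deriv Real.smoothTransition)) y = 0 := by
    intro y hy
    refine key 1 y ?_
    filter_upwards [lt_mem_nhds hy] with z hz
    exact Real.smoothTransition.one_of_one_le hz.le
  have h0 : ∀ y : ℝ, y < 0 → deriv (deriv (deriv Real.smoothTransition)) y = 0 := by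
    intro y hy
    refine key 0 y ?_
    filter_upwards [gt_mem_nhds hy] with z hz
    exact Real.smoothTransition.zero_of_nonpos (le_of_lt hz)
  have h00 : ∀ y : ℝ, y ≤ 0 → deriv (deriv (deriv Real.smoothTransition)) y = 0 := by
    intro y hy
    have c1 : IsClosed {s | deriv (deriv (deriv Real.smoothTransition)) s = 0} := isClosed_eq hs3.continuous continuous_const
    have d1 := c1.closure_subset_iff.2 (fun (s : ℝ) (hs : s ∈ Iio (0:ℝ)) => h0 s hs)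
    rw [closure_Iio] at d1
    exact d1 hy
  obtain ⟨A, hA⟩ := isCompact_Icc.exists_bound_of_continuousOn (s := Icc (0:ℝ) 1) hs3.continuous.continuousOn
  refine ⟨max 1 A, le_max_left _ _, fun y => ?_, h00⟩
  have hC0 : (0:ℝ) ≤ max 1 A := zero_le_one.trans (le_max_left _ _)
  rcases lt_or_ge y 0 with hy | hy
  · rw [h0 y hy, abs_zero]
    exact hC0
  · rcases lt_or_ge 1 y with hy' | hy'
    · rw [h1 y hy', abs_zero]
      exact hC0
    · exact (hA y ⟨hy, hy'⟩).trans (le_max_right _ _)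

theorem DK_dddh (a b y : ℝ) : HasDerivAt (deriv (deriv (Cut_h a b)))
    (- deriv (deriv (deriv Real.smoothTransition)) ((b ^ 2 - y) / (b ^ 2 - a ^ 2)) / (b ^ 2 - a ^ 2) ^ 3) y := by
  have hs : ContDiff ℝ ∞ Real.smoothTransition := Real.smoothTransition.contDiff
  have hs1 : ContDiff ℝ ∞ (deriv Real.smoothTransition) := (contDiff_infty_iff_deriv.1 hs).2
  have hs2 : ContDiff ℝ ∞ (deriv (deriv Real.smoothTransition)) := (contDiff_infty_iff_deriv.1 hs1).2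
  have h0 : deriv (deriv (Cut_h a b)) =
      fun y => deriv (deriv Real.smoothTransition) ((b ^ 2 - y) / (b ^ 2 - a ^ 2)) / (b ^ 2 - a ^ 2) ^ 2 :=
    funext fun y => (Cut_ddh a b y).deriv
  rw [h0]
  have h2 : HasDerivAt (deriv (deriv Real.smoothTransition))
      (deriv (deriv (deriv Real.smoothTransition)) ((b ^ 2 - y) / (b ^ 2 - a ^ 2)))
      ((b ^ 2 - y) / (b ^ 2 - a ^ 2)) :=
    (hs2.differentiable (by simp) _).hasDerivAt
  have h3 := (h2.comp y (Cut_arg a b y)).div_const ((b ^ 2 - a ^ 2) ^ 2)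
  have h4 : HasDerivAt (fun y => deriv (deriv Real.smoothTransition) ((b ^ 2 - y) / (b ^ 2 - a ^ 2)) / (b ^ 2 - a ^ 2) ^ 2) _ y := h3
  refine h4.congr_deriv ?_
  rcases eq_or_ne (b ^ 2 - a ^ 2) 0 with h | h
  · simp [h]
  · field_simp

/-- third derivatives of functions of `‖x‖²` -/
theorem DK_pd3 {h : ℝ → ℝ} (hh : ContDiff ℝ ∞ h) (m i j : Fin 3) (x : E3) :
    pd m (pd i (pd j (fun y => h (‖y‖ ^ 2)))) x =
      (deriv (deriv (deriv h)) (‖x‖ ^ 2) * (2 * x m) * (2 * x i) + deriv (deriv h) (‖x‖ ^ 2) * (if i = m then 2 else 0)) *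
        (2 * x j) + deriv (deriv h) (‖x‖ ^ 2) * (2 * x i) * (if j = m then 2 else 0) +
      (if j = i then 2 else 0) * (deriv (deriv h) (‖x‖ ^ 2) * (2 * x m)) := by
  have hh1 : ContDiff ℝ ∞ (deriv h) := (contDiff_infty_iff_deriv.1 hh).2
  have hh2 : ContDiff ℝ ∞ (deriv (deriv h)) := (contDiff_infty_iff_deriv.1 hh1).2
  have h0 : pd i (pd j (fun y => h (‖y‖ ^ 2))) = fun x : E3 =>
      deriv (deriv h) (‖x‖ ^ 2) * (2 * x i) * (2 * x j) + (if j = i then 2 else 0) * deriv h (‖x‖ ^ 2) := by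
    funext y
    rw [Pk_pdd hh]
    ring
  have s2 : ContDiff ℝ ∞ (fun y : E3 => deriv (deriv h) (‖y‖ ^ 2)) := hh2.comp (contDiff_norm_sq ℝ)
  have s1 : ContDiff ℝ ∞ (fun y : E3 => deriv h (‖y‖ ^ 2)) := hh1.comp (contDiff_norm_sq ℝ)
  have s3 : ContDiff ℝ ∞ (fun y : E3 => deriv (deriv h) (‖y‖ ^ 2) * (2 * y i)) := s2.mul (DK_sm 2 i)
  rw [h0, Pk_add (s3.mul (DK_sm 2 j)) (contDiff_const.mul s1), DK_cm _ s1, Cut_pd hh1, Pk_mul s3 (DK_sm 2 j)]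
  simp only
  rw [Pk_mul s2 (DK_sm 2 i)]
  simp only
  rw [Cut_pd hh2, DK_co, DK_co]

theorem DK_cut : ∃ C : ℝ, 1 ≤ C ∧ ∀ l : ℝ, 0 < l → ∀ x : E3, ∀ m i j : Fin 3,
    |pd i (zc (l / 2) l) x| ≤ 3 * C / l ∧ |pd i (pd j (zc (l / 2) l)) x| ≤ 10 * C / l ^ 2 ∧
    |pd m (pd i (pd j (zc (l / 2) l))) x| ≤ 50 * C / l ^ 3 ∧
    (l ≤ ‖x‖ → pd i (zc (l / 2) l) x = 0 ∧ pd i (pd j (zc (l / 2) l)) x = 0 ∧
      pd m (pd i (pd j (zc (l / 2) l))) x = 0) := by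
  obtain ⟨C₁, hC₁, h₁⟩ := Pk_cut
  obtain ⟨C₂, hC₂, hb₂, hz₂⟩ := DK_bd
  obtain ⟨C₃, hC₃, -, hb₃, hz₃⟩ := Cut_bd
  obtain ⟨C, hC⟩ : ∃ C, C = max C₁ (max C₂ C₃) := ⟨_, rfl⟩
  have l1 : C₁ ≤ C := hC ▸ le_max_left _ _
  have l2 : C₂ ≤ C := hC ▸ (le_max_left _ _).trans (le_max_right _ _)
  have l3 : C₃ ≤ C := hC ▸ (le_max_right _ _).trans (le_max_right _ _)
  have hC0 : 0 < C := by linarith
  refine ⟨C, by linarith, fun l hl x m i j => ?_⟩
  obtain ⟨g1, g2, g3⟩ := h₁ l hl x i j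
  have hsm := Cut_h_smooth (l / 2) l
  have hd : l ^ 2 - (l / 2) ^ 2 = 3 / 4 * l ^ 2 := by ring
  obtain ⟨u, hu⟩ : ∃ u, u = deriv (deriv Real.smoothTransition) ((l ^ 2 - ‖x‖ ^ 2) / (3 / 4 * l ^ 2)) := ⟨_, rfl⟩
  obtain ⟨w, hw⟩ : ∃ w, w = deriv (deriv (deriv Real.smoothTransition)) ((l ^ 2 - ‖x‖ ^ 2) / (3 / 4 * l ^ 2)) := ⟨_, rfl⟩
  have e3 : pd m (pd i (pd j (zc (l / 2) l))) x =
      (- w / (3 / 4 * l ^ 2) ^ 3 * (2 * x m) * (2 * x i) + u / (3 / 4 * l ^ 2) ^ 2 * (if i = m then 2 else 0)) *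
        (2 * x j) + u / (3 / 4 * l ^ 2) ^ 2 * (2 * x i) * (if j = m then 2 else 0) +
      (if j = i then 2 else 0) * (u / (3 / 4 * l ^ 2) ^ 2 * (2 * x m)) := by
    have h := DK_pd3 hsm m i j x
    rw [(DK_dddh (l / 2) l (‖x‖ ^ 2)).deriv, (Cut_ddh (l / 2) l (‖x‖ ^ 2)).deriv, hd] at h
    rw [hu, hw]
    exact h
  have hz : l ≤ ‖x‖ → u = 0 ∧ w = 0 := by
    intro h
    have h2 : (l ^ 2 - ‖x‖ ^ 2) / (3 / 4 * l ^ 2) ≤ 0 := by
      have := pow_le_pow_left₀ hl.le h 2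
      exact div_nonpos_of_nonpos_of_nonneg (by linarith only [this]) (by positivity)
    exact ⟨by rw [hu]; exact (hz₃ _ h2).2, by rw [hw]; exact hz₂ _ h2⟩
  have hlast : l ≤ ‖x‖ → pd m (pd i (pd j (zc (l / 2) l))) x = 0 := by
    intro h
    obtain ⟨h1, h2⟩ := hz h
    rw [e3, h1, h2]
    simp
  have m1 : 3 * C₁ / l ≤ 3 * C / l := by gcongr
  have m2 : 10 * C₁ / l ^ 2 ≤ 10 * C / l ^ 2 := by gcongr
  refine ⟨g1.trans m1, g2.trans m2, ?_, fun h => ⟨(g3 h).1, (g3 h).2, hlast h⟩⟩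
  rcases le_or_gt l ‖x‖ with h | h
  · rw [hlast h, abs_zero]
    positivity
  · have hxm : |x m| ≤ l := (Pk_co x m).trans h.le
    have hxi : |x i| ≤ l := (Pk_co x i).trans h.le
    have hxj : |x j| ≤ l := (Pk_co x j).trans h.le
    have huC : |u| ≤ C := (hu ▸ hb₃ _ : |u| ≤ C₃).trans l3
    have hwC : |w| ≤ C := (hw ▸ hb₂ _ : |w| ≤ C₂).trans l2
    have hU : |u / (3 / 4 * l ^ 2) ^ 2| ≤ 16 / 9 * C / l ^ 4 := by
      rw [abs_div, abs_of_pos (by positivity : 0 < (3 / 4 * l ^ 2) ^ 2)]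
      calc |u| / (3 / 4 * l ^ 2) ^ 2 ≤ C / (3 / 4 * l ^ 2) ^ 2 := by gcongr
        _ = 16 / 9 * C / l ^ 4 := by field_simp; norm_num
    have hW : |- w / (3 / 4 * l ^ 2) ^ 3| ≤ 64 / 27 * C / l ^ 6 := by
      rw [abs_div, abs_neg, abs_of_pos (by positivity : 0 < (3 / 4 * l ^ 2) ^ 3)]
      calc |w| / (3 / 4 * l ^ 2) ^ 3 ≤ C / (3 / 4 * l ^ 2) ^ 3 := by gcongr
        _ = 64 / 27 * C / l ^ 6 := by field_simp; norm_num
    have d1 : ∀ k k' : Fin 3, |(if k = k' then 2 else 0 : ℝ)| ≤ 2 := by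
      intro k k'
      split_ifs <;> norm_num
    have t2 : ∀ k : Fin 3, |x k| ≤ l → |2 * x k| ≤ 2 * l := by
      intro k hk
      rw [abs_mul, abs_of_pos (by norm_num : (0:ℝ) < 2)]
      linarith only [hk]
    rw [e3]
    obtain ⟨U, hUd⟩ : ∃ U, U = u / (3 / 4 * l ^ 2) ^ 2 := ⟨_, rfl⟩
    obtain ⟨W, hWd⟩ : ∃ W, W = - w / (3 / 4 * l ^ 2) ^ 3 := ⟨_, rfl⟩
    rw [← hUd] at hU ⊢
    rw [← hWd] at hW ⊢
    have q1 : |W * (2 * x m) * (2 * x i)| ≤ 64 / 27 * C / l ^ 6 * (2 * l) * (2 * l) := by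
      rw [abs_mul, abs_mul]
      exact mul_le_mul (mul_le_mul hW (t2 m hxm) (abs_nonneg _) (by positivity)) (t2 i hxi) (abs_nonneg _) (by positivity)
    have q2 : |U * (if i = m then 2 else 0)| ≤ 16 / 9 * C / l ^ 4 * 2 := by
      rw [abs_mul]
      exact mul_le_mul hU (d1 i m) (abs_nonneg _) (by positivity)
    have q3 : |(W * (2 * x m) * (2 * x i) + U * (if i = m then 2 else 0)) * (2 * x j)| ≤
        (64 / 27 * C / l ^ 6 * (2 * l) * (2 * l) + 16 / 9 * C / l ^ 4 * 2) * (2 * l) := by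
      rw [abs_mul]
      exact mul_le_mul ((abs_add_le _ _).trans (add_le_add q1 q2)) (t2 j hxj) (abs_nonneg _) (by positivity)
    have q4 : |U * (2 * x i) * (if j = m then 2 else 0)| ≤ 16 / 9 * C / l ^ 4 * (2 * l) * 2 := by
      rw [abs_mul, abs_mul]
      exact mul_le_mul (mul_le_mul hU (t2 i hxi) (abs_nonneg _) (by positivity)) (d1 j m) (abs_nonneg _) (by positivity)
    have q5 : |(if j = i then 2 else 0) * (U * (2 * x m))| ≤ 2 * (16 / 9 * C / l ^ 4 * (2 * l)) := by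
      rw [abs_mul, abs_mul]
      exact mul_le_mul (d1 j i) (mul_le_mul hU (t2 m hxm) (abs_nonneg _) (by positivity)) (by positivity) (by norm_num)
    calc _ ≤ _ := abs_add_le _ _
      _ ≤ ((64 / 27 * C / l ^ 6 * (2 * l) * (2 * l) + 16 / 9 * C / l ^ 4 * 2) * (2 * l) +
          16 / 9 * C / l ^ 4 * (2 * l) * 2) + 2 * (16 / 9 * C / l ^ 4 * (2 * l)) :=
          add_le_add ((abs_add_le _ _).trans (add_le_add q3 q4)) q5
      _ = (512 / 27 + 64 / 3) * C / l ^ 3 := by field_simp; norm_num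
      _ ≤ 50 * C / l ^ 3 := by gcongr; norm_num

theorem DK_mul3 {f g : E3 → ℝ} (hf : ContDiff ℝ ∞ f) (hg : ContDiff ℝ ∞ g) (m i j : Fin 3) (x : E3) :
    pd m (pd i (pd j (fun y => f y * g y))) x =
      (pd m (pd i (pd j f)) x * g x + pd i (pd j f) x * pd m g x) +
      (pd m (pd j f) x * pd i g x + pd j f x * pd m (pd i g) x) +
      ((pd m (pd i f) x * pd j g x + pd i f x * pd m (pd j g) x) +
      (pd m f x * pd i (pd j g) x + f x * pd m (pd i (pd j g)) x)) := by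
  have h0 : pd i (pd j (fun y => f y * g y)) = fun x => pd i (pd j f) x * g x + pd j f x * pd i g x +
      (pd i f x * pd j g x + f x * pd i (pd j g) x) := funext fun y => Pk_mul2 hf hg i j y
  have fj := Pk_sm hf j
  have fi := Pk_sm hf i
  have fij := Pk_sm fj i
  have gj := Pk_sm hg j
  have gi := Pk_sm hg i
  have gij := Pk_sm gj i
  rw [h0, Pk_add ((fij.mul hg).add (fj.mul gi)) ((fi.mul gj).add (hf.mul gij)), Pk_add (fij.mul hg) (fj.mul gi),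
    Pk_add (fi.mul gj) (hf.mul gij), Pk_mul fij hg, Pk_mul fj gi, Pk_mul fi gj, Pk_mul hf gij]

theorem DK_8 {a b c d s t u v A B D E S T U V : ℝ} (ha : |a| ≤ A) (hb : |b| ≤ B) (hc : |c| ≤ D) (hd : |d| ≤ E)
    (hs : |s| ≤ S) (ht : |t| ≤ T) (hu : |u| ≤ U) (hv : |v| ≤ V) :
    |(a + b) + (c + d) + ((s + t) + (u + v))| ≤ (A + B) + (D + E) + ((S + T) + (U + V)) :=
  (abs_add_le _ _).trans (add_le_add
    ((abs_add_le _ _).trans (add_le_add ((abs_add_le _ _).trans (add_le_add ha hb))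
      ((abs_add_le _ _).trans (add_le_add hc hd))))
    ((abs_add_le _ _).trans (add_le_add ((abs_add_le _ _).trans (add_le_add hs ht))
      ((abs_add_le _ _).trans (add_le_add hu hv)))))

theorem DK_m {a b A B : ℝ} (ha : |a| ≤ A) (hb : |b| ≤ B) : |(-a) * b| ≤ A * B := by
  rw [abs_mul, abs_neg]
  exact mul_le_mul ha hb (abs_nonneg _) ((abs_nonneg _).trans ha)

theorem DK_lz {f : E3 → ℝ} {x : E3} (h : f =ᶠ[𝓝 x] fun _ => 0) (i : Fin 3) : pd i f =ᶠ[𝓝 x] fun _ => 0 := by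
  filter_upwards [h.eventuallyEq_nhds] with y hy
  unfold pd
  rw [hy.fderiv_eq]
  simp

theorem k_b3 : ∃ C : ℝ, 0 < C ∧ ∀ ε l : ℝ, 0 < ε → 0 < l → ∀ (x : E3) (m i j : Fin 3),
    |pd m (pd i (pd j (k2 ε l))) x| ≤ C * ((max ‖x‖ l) ^ 4)⁻¹ := by
  obtain ⟨C, hC1, hC⟩ := DK_cut
  have hC0 : 0 < C := by linarith
  refine ⟨1000 * C, by linarith, fun ε l hε hl x m i j => ?_⟩
  have hζ := zc_smooth (l / 2) l
  have hη : ContDiff ℝ ∞ (fun y => 1 - zc (l / 2) l y) := contDiff_const.sub hζ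
  have hn := Pk_nsm hε
  have z0 := zc_nonneg (l / 2) l x
  have z1 := zc_le (l / 2) l x
  have hl2 : 0 < l / 2 := by linarith
  have hll : l / 2 < l := by linarith
  rcases lt_or_ge ‖x‖ (l / 2) with h | h
  · have hev : k2 ε l =ᶠ[𝓝 x] fun _ => 0 := by
      have : ∀ᶠ y in 𝓝 x, ‖y‖ < l / 2 := continuous_norm.continuousAt.eventually_lt continuousAt_const h
      filter_upwards [this] with y hy
      unfold k2
      rw [zc_one hl2 hll hy.le]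
      ring
    have h3 := (DK_lz (DK_lz (DK_lz hev j) i) m).eq_of_nhds
    rw [h3, abs_zero]
    positivity
  · have hx' : 0 < ‖x‖ := by linarith
    have ek : pd m (pd i (pd j (k2 ε l))) x =
        (-(pd m (pd i (pd j (zc (l / 2) l))) x) * nk ε x + -(pd i (pd j (zc (l / 2) l)) x) * pd m (nk ε) x) +
        (-(pd m (pd j (zc (l / 2) l)) x) * pd i (nk ε) x + -(pd j (zc (l / 2) l) x) * pd m (pd i (nk ε)) x) +
        ((-(pd m (pd i (zc (l / 2) l)) x) * pd j (nk ε) x + -(pd i (zc (l / 2) l) x) * pd m (pd j (nk ε)) x) +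
        (-(pd m (zc (l / 2) l) x) * pd i (pd j (nk ε)) x + (1 - zc (l / 2) l x) * pd m (pd i (pd j (nk ε))) x)) := by
      have h := DK_mul3 hη hn m i j x
      rw [Pk_one, Pk_one, Pk_one, Pk_neg, Pk_neg, Pk_neg, Pk_neg] at h
      exact h
    have n3 := DK_n3b hε hx' m i j
    obtain ⟨n0, n0', nm, nij⟩ := Pk_nb hε hx' m j
    obtain ⟨-, -, nm', nmj⟩ := Pk_nb hε hx' m j
    obtain ⟨-, -, ni, nij'⟩ := Pk_nb hε hx' i j
    obtain ⟨-, -, nj, -⟩ := Pk_nb hε hx' j i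
    obtain ⟨-, -, -, nmi⟩ := Pk_nb hε hx' m i
    have z2 : |1 - zc (l / 2) l x| ≤ 1 := by
      rw [abs_of_nonneg (by linarith)]
      linarith
    have hlast : |(1 - zc (l / 2) l x) * pd m (pd i (pd j (nk ε))) x| ≤ 1 * (24 * (‖x‖ ^ 4)⁻¹) := by
      rw [abs_mul]
      exact mul_le_mul z2 n3 (abs_nonneg _) (by norm_num)
    rcases le_or_gt l ‖x‖ with h' | h'
    · have v1 := (hC l hl x m i j).2.2.2 h'
      have v2 := (hC l hl x m m j).2.2.2 h'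
      have v3 := (hC l hl x m j i).2.2.2 h'
      have v4 := (hC l hl x m m i).2.2.2 h'
      rw [ek, v1.1, v1.2.1, v1.2.2, v2.1, v2.2.1, v3.1, v4.2.1, max_eq_left h']
      simp only [neg_zero, zero_mul, zero_add]
      calc _ ≤ _ := hlast
        _ = 24 * (‖x‖ ^ 4)⁻¹ := one_mul _
        _ ≤ 1000 * C * (‖x‖ ^ 4)⁻¹ := by gcongr; linarith
    · rw [ek, max_eq_right h'.le]
      have i1 : ‖x‖⁻¹ ≤ (l / 2)⁻¹ := by gcongr
      have i2 : (‖x‖ ^ 2)⁻¹ ≤ ((l / 2) ^ 2)⁻¹ := by gcongr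
      have i3 : (‖x‖ ^ 3)⁻¹ ≤ ((l / 2) ^ 3)⁻¹ := by gcongr
      have i4 : (‖x‖ ^ 4)⁻¹ ≤ ((l / 2) ^ 4)⁻¹ := by gcongr
      have b0 : |nk ε x| ≤ (l / 2)⁻¹ := by
        rw [abs_of_nonneg n0]
        exact n0'.trans i1
      have c1 := hC l hl x m i j
      have c2 := hC l hl x m m j
      have c3 := hC l hl x m j i
      have c4 := hC l hl x m m i
      have key := DK_8 (DK_m c1.2.2.1 b0) (DK_m c1.2.1 (nm.trans i2))
        (DK_m c2.2.1 (ni.trans i2)) (DK_m c3.1 (nmi.trans (mul_le_mul_of_nonneg_left i3 (by norm_num))))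
        (DK_m c4.2.1 (nj.trans i2)) (DK_m c1.1 (nmj.trans (mul_le_mul_of_nonneg_left i3 (by norm_num))))
        (DK_m c2.1 (nij'.trans (mul_le_mul_of_nonneg_left i3 (by norm_num))))
        (hlast.trans (mul_le_mul_of_nonneg_left (mul_le_mul_of_nonneg_left i4 (by norm_num)) (by norm_num)))
      refine key.trans ?_
      have e : (50 * C / l ^ 3 * (l / 2)⁻¹ + 10 * C / l ^ 2 * ((l / 2) ^ 2)⁻¹) +
          (10 * C / l ^ 2 * ((l / 2) ^ 2)⁻¹ + 3 * C / l * (4 * ((l / 2) ^ 3)⁻¹)) +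
          ((10 * C / l ^ 2 * ((l / 2) ^ 2)⁻¹ + 3 * C / l * (4 * ((l / 2) ^ 3)⁻¹)) +
          (3 * C / l * (4 * ((l / 2) ^ 3)⁻¹) + 1 * (24 * ((l / 2) ^ 4)⁻¹))) = (508 * C + 384) * (l ^ 4)⁻¹ := by
        field_simp
        ring
      rw [e]
      have : 0 < (l ^ 4)⁻¹ := by positivity
      nlinarith only [hC1, this]

end Pool.Agent.H94.LS
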