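/-
ROW DP (MP_09540e_DS). Pressure inequality with the far kernel |x|⁻⁴. PROOF.
cv3: g = dv F is continuous, integrable and bounded (Pe_dv in H16/TU/Pe.lean). By the differentiation lemmas inside Pc.lean (used for cv2: Pc_G, pd i of the integral is the integral of the derivative of the kernel), pd j (pd i (fun y => ∫ k2 (x-y) g x dx)) y = ∫ (pd j (pd i k2)) (x-y) g x dx (two signs cancel).
Now g x = ∑_k pd k (F k) x, and ibpI (Ba.lean; the kernel q x = (pd j (pd i k2)) (x - y) is smooth, bounded with bounded first derivatives by k_b, k_b3; F k is TF): ∫ q pd k (F k) = - ∫ pd k q F k, with |pd k q x| = |(pd k (pd j (pd i k2))) (x-y)| ≤ C (max ‖x-y‖ l)⁻⁴ (k_b3). Sum over k: ≤ C FB l F y (FB's integrand is integrable: bounded continuous kernel times integrable).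
pB: as pA/pAe (H16/TU/Pf.lean, Pe.lean): Pf_lim reduces to the regularised pressure qe ε; q2: c0 ∫ ∑ pd k (qe) F k = - (near + far); the near part is Pe_nearA; the far part ∫ src2 v G2, G2 = ∫ k2 (x-y) dv F x dx: s2 (Ps.lean; hypotheses from cv2) gives ∑_ij ∫ v_i v_j pd j (pd i G2), each at most ∫ ‖v‖² C FB (cv3; Pe_int, Pe_vi; FB l F is continuous and bounded: as Pe_FA).
-/
import Pool.Agent.H94.LS.DK

set_option autoImplicit false

open Set Filter Topology MeasureTheory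
open scoped ContDiff

namespace Pool.Agent.H94.LS

open Pool.Agent.H16 Pool.Agent.H87.NS Pool.Agent.H72.CC Pool.Agent.H16.TU

theorem DP_ibp {q f : E3 → ℝ} {M : ℝ} (hq : ContDiff ℝ ∞ q) (hM : ∀ x, |q x| ≤ M)
    (i : Fin 3) (hM' : ∀ x, |pd i q x| ≤ M) (hf : TF f) (y : E3) :
    ∫ x, q (x - y) * pd i f x = - ∫ x, pd i q (x - y) * f x := by
  have hq1 : ContDiff ℝ 1 q := hq.of_le (by norm_cast)
  have e1 : ∀ x, fderiv ℝ (fun x => q (x - y)) x (e i) = pd i q (x - y) := by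
    intro x
    rw [fderiv_comp_sub]
    rfl
  have hdk : Differentiable ℝ (fun x => q (x - y)) :=
    (hq1.differentiable one_ne_zero).comp (differentiable_id.sub_const y)
  have h4 := integral_mul_fderiv_eq_neg_fderiv_mul_of_integrable (μ := (volume : Measure E3))
    (f := fun x => q (x - y)) (g := f) (v := e i)
    (by
      simp only [e1]
      exact Pc_int (pd_smooth hq i).continuous hM' hf.int y)
    (Pc_int hq.continuous hM (hf.intd i) y)
    (Pc_int hq.continuous hM hf.int y)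
    (fun x _ => hdk x) (fun x _ => hf.c1.differentiable one_ne_zero x)
  simp only [e1] at h4
  exact h4

theorem DP_FB {l : ℝ} (hl : 0 < l) {g : E3 → ℝ} (hg : Integrable g) :
    (∀ y, Integrable (fun x => ((max ‖x - y‖ l) ^ 4)⁻¹ * g x)) ∧
    Continuous (fun y => ∫ x, ((max ‖x - y‖ l) ^ 4)⁻¹ * g x) ∧
      ∃ B : ℝ, ∀ y, |∫ x, ((max ‖x - y‖ l) ^ 4)⁻¹ * g x| ≤ B := by
  have hbd : ∀ y x : E3, ‖((max ‖x - y‖ l) ^ 4)⁻¹ * g x‖ ≤ (l ^ 4)⁻¹ * |g x| := by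
    intro y x
    have h1 : 0 < max ‖x - y‖ l := lt_max_of_lt_right hl
    rw [Real.norm_eq_abs, abs_mul, abs_of_nonneg (a := ((max ‖x - y‖ l) ^ 4)⁻¹) (by positivity)]
    refine mul_le_mul_of_nonneg_right ?_ (abs_nonneg _)
    exact inv_anti₀ (by positivity) (pow_le_pow_left₀ hl.le (le_max_right _ _) 4)
  have hc : ∀ x : E3, Continuous fun y : E3 => ((max ‖x - y‖ l) ^ 4)⁻¹ := by
    intro x
    refine Continuous.inv₀ ?_ fun y => ?_
    · exact (((continuous_const.sub continuous_id).norm).max continuous_const).pow 4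
    · have h1 : 0 < max ‖x - y‖ l := lt_max_of_lt_right hl
      positivity
  have hc' : ∀ y : E3, Continuous fun x : E3 => ((max ‖x - y‖ l) ^ 4)⁻¹ := by
    intro y
    refine Continuous.inv₀ ?_ fun x => ?_
    · exact (((continuous_id.sub continuous_const).norm).max continuous_const).pow 4
    · have h1 : 0 < max ‖x - y‖ l := lt_max_of_lt_right hl
      positivity
  have hi : Integrable (fun x => (l ^ 4)⁻¹ * |g x|) := hg.abs.const_mul _
  refine ⟨fun y => ?_, ?_, (∫ x, (l ^ 4)⁻¹ * |g x|), fun y => ?_⟩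
  · exact Integrable.mono' hi ((hc' y).aestronglyMeasurable.mul hg.aestronglyMeasurable)
      (Eventually.of_forall (hbd y))
  · refine continuous_of_dominated (fun y => ?_) (fun y => Eventually.of_forall (hbd y)) hi
      (Eventually.of_forall fun x => ?_)
    · exact (hc' y).aestronglyMeasurable.mul hg.aestronglyMeasurable
    · exact (hc x).mul continuous_const
  · rw [← Real.norm_eq_abs]
    exact norm_integral_le_of_norm_le hi (Eventually.of_forall (hbd y))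

theorem DP_sum {F : Fin 3 → E3 → ℝ} (hF : ∀ k, TF (F k)) : Integrable (fun x => ∑ k : Fin 3, |F k x|) :=
  integrable_finsetSum _ fun k _ => (hF k).int.abs

theorem cv3 : ∃ C : ℝ, 0 < C ∧ ∀ ε l : ℝ, 0 < ε → 0 < l → ∀ F : Fin 3 → E3 → ℝ, (∀ k, TF (F k)) → ∀ (i j : Fin 3) (y : E3),
    |pd j (pd i (fun y => ∫ x, k2 ε l (x - y) * dv F x)) y| ≤ C * FB l F y := by
  obtain ⟨C₀, hC₀, hk⟩ := k_b
  obtain ⟨C, hC, hk3⟩ := k_b3
  refine ⟨C, hC, fun ε l hε hl F hF i j y => ?_⟩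
  obtain ⟨gc, gi, B, hB⟩ := Pe_dv hF
  have hκ := (k_sm hε hl).2.2
  have hl2 : 0 ≤ C₀ / l ^ 2 := by positivity
  have hl3 : 0 ≤ C₀ * (l ^ 3)⁻¹ := by positivity
  have hl4 : 0 ≤ C * (l ^ 4)⁻¹ := by positivity
  have hl1 : 0 ≤ 2 / l := by positivity
  obtain ⟨M, hMd⟩ : ∃ M, M = 2 / l + C₀ / l ^ 2 + C₀ * (l ^ 3)⁻¹ + C * (l ^ 4)⁻¹ := ⟨_, rfl⟩
  have hM : ∀ x, |k2 ε l x| ≤ M := fun x => by
    have h := (k_b0 hε hl x).2.2.1
    linarith
  have hM' : ∀ i x, |pd i (k2 ε l) x| ≤ M := fun i x => by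
    have h := (hk ε l hε hl x i i).2.2.1
    linarith
  have hM2 : ∀ i j x, |pd i (pd j (k2 ε l)) x| ≤ M := fun i j x => by
    have h := (hk ε l hε hl x i j).2.2.2
    have h2 : ((max ‖x‖ l) ^ 3)⁻¹ ≤ (l ^ 3)⁻¹ :=
      inv_anti₀ (pow_pos hl 3) (pow_le_pow_left₀ hl.le (le_max_right _ _) 3)
    have h3 := mul_le_mul_of_nonneg_left h2 hC₀.le
    linarith
  have hM3 : ∀ m i j x, |pd m (pd i (pd j (k2 ε l))) x| ≤ M := fun m i j x => by
    have h := hk3 ε l hε hl x m i j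
    have h2 : ((max ‖x‖ l) ^ 4)⁻¹ ≤ (l ^ 4)⁻¹ :=
      inv_anti₀ (pow_pos hl 4) (pow_le_pow_left₀ hl.le (le_max_right _ _) 4)
    have h3 := mul_le_mul_of_nonneg_left h2 hC.le
    linarith
  obtain ⟨-, -, h3⟩ := Pc_C2 hκ hM hM' hM2 gi
  show |pd j (pd i (Pc_G (k2 ε l) (dv F))) y| ≤ C * FB l F y
  rw [h3]
  have hq : ContDiff ℝ ∞ (pd j (pd i (k2 ε l))) := pd_smooth (pd_smooth hκ i) j
  have e1 : Pc_G (pd j (pd i (k2 ε l))) (dv F) y =
      ∫ x, ∑ k : Fin 3, - (pd k (pd j (pd i (k2 ε l))) (x - y) * F k x) := by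
    have i1 : ∀ k : Fin 3, Integrable (fun x => pd j (pd i (k2 ε l)) (x - y) * pd k (F k) x) :=
      fun k => Pc_int hq.continuous (hM2 j i) ((hF k).intd k) y
    have i2 : ∀ k : Fin 3, Integrable (fun x => pd k (pd j (pd i (k2 ε l))) (x - y) * F k x) :=
      fun k => Pc_int (pd_smooth hq k).continuous (hM3 k j i) (hF k).int y
    unfold Pc_G
    have e2 : ∀ x, pd j (pd i (k2 ε l)) (x - y) * dv F x =
        ∑ k : Fin 3, pd j (pd i (k2 ε l)) (x - y) * pd k (F k) x := by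
      intro x
      unfold dv
      rw [Finset.mul_sum]
    simp only [e2]
    have i3 : ∀ k : Fin 3, Integrable (fun x => - (pd k (pd j (pd i (k2 ε l))) (x - y) * F k x)) :=
      fun k => (i2 k).neg
    rw [integral_finsetSum _ fun k _ => i1 k, integral_finsetSum _ fun k _ => i3 k]
    refine Finset.sum_congr rfl fun k _ => ?_
    rw [DP_ibp hq (hM2 j i) k (hM3 k j i) (hF k) y, integral_neg]
  rw [e1]
  unfold FB
  rw [← integral_const_mul, ← Real.norm_eq_abs]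
  have hI := (DP_FB hl (DP_sum hF)).1 y
  refine norm_integral_le_of_norm_le (hI.const_mul C) (Eventually.of_forall fun x => ?_)
  rw [Real.norm_eq_abs]
  refine (Finset.abs_sum_le_sum_abs _ _).trans ?_
  rw [← mul_assoc, Finset.mul_sum]
  refine Finset.sum_le_sum fun k _ => ?_
  rw [abs_neg, abs_mul]
  exact mul_le_mul_of_nonneg_right (hk3 ε l hε hl (x - y) k j i) (abs_nonneg _)

theorem DP_far : ∃ C : ℝ, 0 < C ∧ ∀ ε l : ℝ, 0 < ε → 0 < l → ∀ v : E3 → E3, Vf v →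
    ∀ F : Fin 3 → E3 → ℝ, (∀ k, TF (F k)) →
    |∫ y, src2 v y * ∫ x, k2 ε l (x - y) * dv F x| ≤ C * ∫ y, ‖v y‖ ^ 2 * FB l F y := by
  obtain ⟨_, _, hc⟩ := cv2
  obtain ⟨C, hC, h3⟩ := cv3
  refine ⟨9 * C, by positivity, fun ε l hε hl v hv F hF => ?_⟩
  obtain ⟨gc, gi, B, gb⟩ := Pe_dv hF
  obtain ⟨hG, -, B', hB'⟩ := hc ε l hε hl (dv F) B gc gi gb
  have e1 : ∫ y, src2 v y * ∫ x, k2 ε l (x - y) * dv F x = ∑ i : Fin 3, ∑ j : Fin 3,
      ∫ x, v x i * v x j * pd j (pd i (fun y => ∫ x, k2 ε l (x - y) * dv F x)) x := s2 hv hG hB'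
  obtain ⟨-, w1, BF, w2⟩ := DP_FB hl (DP_sum hF)
  have e2 : ∀ i j : Fin 3,
      |∫ x, v x i * v x j * pd j (pd i (fun y => ∫ x, k2 ε l (x - y) * dv F x)) x| ≤
        C * ∫ y, ‖v y‖ ^ 2 * FB l F y := by
    intro i j
    refine Pe_int (Pe_vi hv).2.2.2 w1 w2 fun x => ?_
    rw [abs_mul]
    refine mul_le_mul ?_ (h3 ε l hε hl F hF i j x) (abs_nonneg _) (by positivity)
    rw [abs_mul, pow_two, ← Real.norm_eq_abs, ← Real.norm_eq_abs]
    exact mul_le_mul (PiLp.norm_apply_le _ _) (PiLp.norm_apply_le _ _) (norm_nonneg _)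
      (norm_nonneg _)
  rw [e1]
  refine (Finset.abs_sum_le_sum_abs _ _).trans ?_
  refine (Finset.sum_le_sum fun i _ => (Finset.abs_sum_le_sum_abs _ _).trans
    (Finset.sum_le_sum fun j _ => e2 i j)).trans ?_
  rw [Finset.sum_const, Finset.sum_const, Finset.card_univ, Fintype.card_fin, nsmul_eq_mul,
    nsmul_eq_mul]
  exact le_of_eq (by push_cast; ring)

theorem DP_e : ∃ C : ℝ, 0 < C ∧ ∀ ε l : ℝ, 0 < ε → 0 < l → ∀ v : E3 → E3, Vf v → ∀ F : Fin 3 → E3 → ℝ, (∀ k, TF (F k)) →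
    |∫ x, ∑ k : Fin 3, pd k (qe ε v) x * F k x| ≤
      C * ((∫ y, ‖v y‖ * √(gv v y) * NE l (dv F) y) + ∫ y, ‖v y‖ ^ 2 * FB l F y) := by
  obtain ⟨C1, hC1, h1⟩ := Pe_nearA
  obtain ⟨C2, hC2, h2⟩ := DP_far
  have hc0 := c0_pos
  refine ⟨(C1 + C2) / c0, by positivity, fun ε l hε hl v hv F hF => ?_⟩
  obtain ⟨gc, gi, Bg, gb⟩ := Pe_dv hF
  have k1' := h1 ε l hε hl v hv (dv F) Bg gc gi gb
  have k2' := h2 ε l hε hl v hv F hF
  have n1 := Pe_nn hC1 k1'
  have n2 := Pe_nn hC2 k2'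
  have hq := q2 hε hl hv hF
  rw [div_mul_eq_mul_div, le_div_iff₀ hc0]
  have h3 : |∫ x, ∑ k : Fin 3, pd k (qe ε v) x * F k x| * c0 =
      |c0 * ∫ x, ∑ k : Fin 3, pd k (qe ε v) x * F k x| := by
    rw [abs_mul, abs_of_pos hc0, mul_comm]
  rw [h3, hq, abs_neg]
  refine (abs_add_le _ _).trans ?_
  nlinarith [mul_nonneg hC1.le n2, mul_nonneg hC2.le n1]

theorem pB : ∃ C : ℝ, 0 < C ∧ ∀ (T : ℝ) (u : ℝ → E3 → E3) (p : ℝ → E3 → ℝ), IsHInfAxisymNS T u p → ∀ t ∈ Ioo 0 T,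
    ∀ F : Fin 3 → E3 → ℝ, (∀ k, TF (F k)) → ∀ l : ℝ, 0 < l →
    |∫ x, ∑ k : Fin 3, pd k (p t) x * F k x| ≤
      C * ((∫ y, ‖u t y‖ * √(gv (u t) y) * NE l (dv F) y) + ∫ y, ‖u t y‖ ^ 2 * FB l F y) := by
  obtain ⟨C, hC, h0⟩ := DP_e
  refine ⟨C, hC, fun T u p h t ht F hF l hl => ?_⟩
  have hv : Vf (u t) := vf_u h ⟨ht.1.le, ht.2⟩
  exact le_of_tendsto (Pf_lim h ht hF).abs (Eventually.of_forall fun n =>
    h0 (1 / ((n : ℝ) + 1)) l (by positivity) hl (u t) hv F hF)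

end Pool.Agent.H94.LS
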