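/-
ROW DN (MP_09540e_DS). The near kernel applied to a function in L⁴. PROOF. NE l g y = ∫_{ball y l} ‖x-y‖⁻² |g x| dx. Hölder on the ball with exponents 4/3 and 4: ≤ (∫_{ball y l} ‖x-y‖^(-8/3))^(3/4) (∫_{ball y l} |g|⁴)^(1/4) (integral_mul_le_Lp_mul_Lq_of_nonneg on the restricted measure).
Polar coordinates (as We_K_int in H16/TU/We.lean: integral_fun_norm_addHaar / integrableOn ... with the radial function s ↦ s^(-8/3), dimension 3): ∫_{ball 0 l} ‖x‖^(-8/3) dx = 3 · (4 π / 3) ∫_0^l s^(2 - 8/3) ds = 12 π l^(1/3). Fourth power: NE⁴ ≤ (12 π l^(1/3))³ ∫ |g|⁴ = (12 π)³ l ∫_{ball y l} g⁴.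
So C = (12 π)³ works (any absolute constant is fine). g is continuous, so bounded on the ball.
-/
import Pool.Agent.H94.LS.DDefs

set_option autoImplicit false

open Set Filter Topology MeasureTheory
open scoped ContDiff

namespace Pool.Agent.H94.LS

open Pool.Agent.H16 Pool.Agent.H87.NS Pool.Agent.H72.CC Pool.Agent.H16.TU

/-- The radial function `|x|^(-8/3)` on the ball of radius `l`. -/
theorem ne4_int {l : ℝ} (hl : 0 < l) :
    IntegrableOn (fun x : E3 => (fun r : ℝ => ((r ^ 2)⁻¹) ^ (4 / 3 : ℝ)) ‖x‖) (Metric.ball (0 : E3) l) volume ∧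
      ∫ x in Metric.ball (0 : E3) l, ((‖x‖ ^ 2)⁻¹) ^ (4 / 3 : ℝ) = 12 * Real.pi * l ^ (1 / 3 : ℝ) := by
  have hd : Module.finrank ℝ E3 = 3 := by simp
  have key : ∀ r : ℝ, 0 < r → r ^ 2 * ((r ^ 2)⁻¹) ^ (4 / 3 : ℝ) = r ^ (-(2 / 3) : ℝ) := by
    intro r hr
    have e1 : ((r ^ 2)⁻¹ : ℝ) = r ^ (-2 : ℝ) := by
      rw [Real.rpow_neg hr.le]
      norm_num
    rw [e1, ← Real.rpow_mul hr.le]
    have e2 : (r ^ 2 : ℝ) = r ^ (2 : ℝ) := by norm_num
    rw [e2, ← Real.rpow_add hr]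
    norm_num
  have hint : IntegrableOn (fun r : ℝ => r ^ (-(2 / 3) : ℝ)) (Ioo 0 l) volume :=
    (intervalIntegral.integrableOn_Ioo_rpow_iff hl).2 (by norm_num)
  refine ⟨?_, ?_⟩
  · refine (integrableOn_fun_norm_addHaar volume (f := fun r : ℝ => ((r ^ 2)⁻¹) ^ (4 / 3 : ℝ))).2 ?_
    refine (integrableOn_congr_fun (f := fun r : ℝ => r ^ (-(2 / 3) : ℝ)) ?_ measurableSet_Ioo).1 hint
    intro r hr
    beta_reduce
    rw [hd, smul_eq_mul]
    exact (key r hr.1).symm
  · have h1 : ∫ x in Metric.ball (0 : E3) l, ((‖x‖ ^ 2)⁻¹) ^ (4 / 3 : ℝ) =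
        ∫ x : E3, (Iio l).indicator (fun r : ℝ => ((r ^ 2)⁻¹) ^ (4 / 3 : ℝ)) ‖x‖ := by
      rw [← integral_indicator measurableSet_ball]
      refine integral_congr_ae (Filter.Eventually.of_forall fun x => ?_)
      beta_reduce
      by_cases h : ‖x‖ < l
      · rw [Set.indicator_of_mem (by rwa [mem_ball_zero_iff]), Set.indicator_of_mem (Set.mem_Iio.2 h)]
      · rw [Set.indicator_of_notMem (by rwa [mem_ball_zero_iff]), Set.indicator_of_notMem (by rwa [Set.mem_Iio])]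
    rw [h1, integral_fun_norm_addHaar volume, hd]
    have h2 : ∫ y in Ioi (0 : ℝ), y ^ (3 - 1) • (Iio l).indicator (fun r : ℝ => ((r ^ 2)⁻¹) ^ (4 / 3 : ℝ)) y =
        3 * l ^ (1 / 3 : ℝ) := by
      have h3 : ∫ y in Ioi (0 : ℝ), y ^ (3 - 1) • (Iio l).indicator (fun r : ℝ => ((r ^ 2)⁻¹) ^ (4 / 3 : ℝ)) y =
          ∫ y in Ioi (0 : ℝ), (Ioo 0 l).indicator (fun r => r ^ (-(2 / 3) : ℝ)) y := by
        refine setIntegral_congr_fun measurableSet_Ioi fun r hr => ?_
        have hr1 : 0 < r := hr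
        beta_reduce
        by_cases h : r < l
        · rw [Set.indicator_of_mem (Set.mem_Iio.2 h), Set.indicator_of_mem (Set.mem_Ioo.2 ⟨hr1, h⟩),
            smul_eq_mul]
          exact key r hr1
        · rw [Set.indicator_of_notMem (by rwa [Set.mem_Iio]), Set.indicator_of_notMem (by
            rw [Set.mem_Ioo]
            exact fun h' => h h'.2), smul_zero]
      rw [h3, setIntegral_indicator measurableSet_Ioo,
        Set.inter_eq_self_of_subset_right Ioo_subset_Ioi_self]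
      rw [← integral_Ioc_eq_integral_Ioo, ← intervalIntegral.integral_of_le hl.le,
        integral_rpow (Or.inl (by norm_num))]
      have e3 : (-(2 / 3) + 1 : ℝ) = 1 / 3 := by norm_num
      rw [e3, Real.zero_rpow (by norm_num)]
      ring
    rw [h2]
    have h4 : (volume : Measure E3).real (Metric.ball 0 1) = Real.pi * 4 / 3 := by
      rw [Measure.real, EuclideanSpace.volume_ball_fin_three, ENNReal.ofReal_one, one_pow, one_mul,
        ENNReal.toReal_ofReal (by positivity)]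
    rw [h4]
    simp only [nsmul_eq_mul, smul_eq_mul]
    push_cast
    ring

theorem ne4_int' {l : ℝ} (hl : 0 < l) (y : E3) :
    IntegrableOn (fun x : E3 => ((‖x - y‖ ^ 2)⁻¹) ^ (4 / 3 : ℝ)) (Metric.ball y l) volume ∧
      ∫ x in Metric.ball y l, ((‖x - y‖ ^ 2)⁻¹) ^ (4 / 3 : ℝ) = 12 * Real.pi * l ^ (1 / 3 : ℝ) := by
  obtain ⟨h1, h2⟩ := ne4_int hl
  rw [← integrable_indicator_iff measurableSet_ball] at h1
  rw [← integral_indicator measurableSet_ball] at h2
  have e : ∀ x : E3, (Metric.ball y l).indicator (fun x : E3 => ((‖x - y‖ ^ 2)⁻¹) ^ (4 / 3 : ℝ)) x =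
      (Metric.ball (0 : E3) l).indicator (fun x : E3 => ((‖x‖ ^ 2)⁻¹) ^ (4 / 3 : ℝ)) (x - y) := by
    intro x
    by_cases h : ‖x - y‖ < l
    · rw [Set.indicator_of_mem (by rwa [mem_ball_iff_norm]), Set.indicator_of_mem (by rwa [mem_ball_zero_iff])]
    · rw [Set.indicator_of_notMem (by rwa [mem_ball_iff_norm]),
        Set.indicator_of_notMem (by rwa [mem_ball_zero_iff])]
  have e' : (Metric.ball y l).indicator (fun x : E3 => ((‖x - y‖ ^ 2)⁻¹) ^ (4 / 3 : ℝ)) =
      fun x => (Metric.ball (0 : E3) l).indicator (fun x : E3 => ((‖x‖ ^ 2)⁻¹) ^ (4 / 3 : ℝ)) (x - y) := funext e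
  refine ⟨?_, ?_⟩
  · rw [← integrable_indicator_iff measurableSet_ball, e']
    exact h1.comp_sub_right y
  · rw [← integral_indicator measurableSet_ball, e', integral_sub_right_eq_self
      (fun x => (Metric.ball (0 : E3) l).indicator (fun x : E3 => ((‖x‖ ^ 2)⁻¹) ^ (4 / 3 : ℝ)) x) y]
    exact h2

theorem ne4 : ∃ C : ℝ, 0 < C ∧ ∀ l : ℝ, 0 < l → ∀ g : E3 → ℝ, Continuous g → ∀ y : E3,
    NE l g y ^ 4 ≤ C * l * ∫ x in Metric.ball y l, g x ^ 4 := by
  refine ⟨(12 * Real.pi) ^ 3, by positivity, fun l hl g hg y => ?_⟩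
  obtain ⟨hi, hv⟩ := ne4_int' hl y
  have hpq : (4 / 3 : ℝ).HolderConjugate 4 := by
    rw [Real.holderConjugate_iff]
    norm_num
  obtain ⟨M, hM⟩ : ∃ M : ℝ, ∀ x ∈ Metric.closedBall y l, ‖|g x|‖ ≤ M :=
    (isCompact_closedBall y l).exists_bound_of_continuousOn hg.abs.continuousOn
  haveI : IsFiniteMeasure (volume.restrict (Metric.ball y l)) :=
    ⟨by rw [Measure.restrict_apply_univ]; exact measure_ball_lt_top⟩
  have hmemg : MemLp (fun x => |g x|) (ENNReal.ofReal 4) (volume.restrict (Metric.ball y l)) := by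
    refine MemLp.of_bound hg.abs.aestronglyMeasurable M ?_
    exact (ae_restrict_iff' measurableSet_ball).2
      (Filter.Eventually.of_forall fun x hx => hM x (Metric.ball_subset_closedBall hx))
  have hmeas : AEStronglyMeasurable (fun x : E3 => (‖x - y‖ ^ 2)⁻¹) (volume.restrict (Metric.ball y l)) := by
    have : Measurable fun x : E3 => (‖x - y‖ ^ 2)⁻¹ := by fun_prop
    exact this.aestronglyMeasurable
  have hmemf : MemLp (fun x : E3 => (‖x - y‖ ^ 2)⁻¹) (ENNReal.ofReal (4 / 3))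
      (volume.restrict (Metric.ball y l)) := by
    rw [← integrable_norm_rpow_iff hmeas (by norm_num) ENNReal.ofReal_ne_top]
    rw [ENNReal.toReal_ofReal (by norm_num)]
    refine hi.congr (Filter.Eventually.of_forall fun x => ?_)
    beta_reduce
    rw [Real.norm_of_nonneg (by positivity)]
  have hH := integral_mul_le_Lp_mul_Lq_of_nonneg (μ := volume.restrict (Metric.ball y l)) hpq
    (f := fun x : E3 => (‖x - y‖ ^ 2)⁻¹) (g := fun x => |g x|)
    (Filter.Eventually.of_forall fun x => by positivity) (Filter.Eventually.of_forall fun x => abs_nonneg _)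
    hmemf hmemg
  rw [hv] at hH
  have hg4 : ∫ x in Metric.ball y l, |g x| ^ (4 : ℝ) = ∫ x in Metric.ball y l, g x ^ 4 := by
    refine integral_congr_ae (Filter.Eventually.of_forall fun x => ?_)
    beta_reduce
    have e1 : |g x| ^ (4 : ℝ) = |g x| ^ 4 := by
      rw [← Real.rpow_natCast]
      norm_num
    rw [e1]
    exact (even_two_mul 2).pow_abs (g x)
  rw [hg4] at hH
  have hI : 0 ≤ ∫ x in Metric.ball y l, g x ^ 4 := integral_nonneg fun x => by positivity
  have hN : 0 ≤ NE l g y := by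
    unfold NE
    exact integral_nonneg fun x => by positivity
  have h4 := pow_le_pow_left₀ hN hH 4
  refine h4.trans (le_of_eq ?_)
  rw [mul_pow]
  have e1 : ((12 * Real.pi * l ^ (1 / 3 : ℝ)) ^ (1 / (4 / 3 : ℝ))) ^ 4 = (12 * Real.pi) ^ 3 * l := by
    have h0 : 0 ≤ 12 * Real.pi * l ^ (1 / 3 : ℝ) := by positivity
    rw [← Real.rpow_natCast, ← Real.rpow_mul h0]
    have e2 : (1 / (4 / 3 : ℝ) * ((4 : ℕ) : ℝ)) = ((3 : ℕ) : ℝ) := by norm_num
    rw [e2, Real.rpow_natCast, mul_pow, ← Real.rpow_natCast (l ^ (1 / 3 : ℝ)), ← Real.rpow_mul hl.le]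
    norm_num
  have e3 : ((∫ x in Metric.ball y l, g x ^ 4) ^ (1 / (4 : ℝ))) ^ 4 = ∫ x in Metric.ball y l, g x ^ 4 := by
    rw [← Real.rpow_natCast, ← Real.rpow_mul hI]
    norm_num
  rw [e1, e3]

end Pool.Agent.H94.LS
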