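/-
ROW DQ (MP_09540e_DS). Uses DA (avg), DSo (locs), DN (ne4), DC (g_avg) (statements). The near part of the pressure. PROOF. Ψ = wt r r z, F k x = v x k * Ψ x, l = r/4. v divergence free: dv F x = ∑ v_k pd k Ψ, |dv F x| ≤ 3 ‖v x‖ (4/r) Ψ x (Wc.g1 of wt_wc with R = L = r). For ‖x - y'‖ < r/4: Ψ x ≤ 64 Ψ y' (wt_cmp, A = 1).
So NE l (dv F) y' ≤ (12/r) 64 Ψ y' NE l (fun x => ‖v x‖) y' (monotone integral, integrand bounded times the integrable kernel ne_ker). Put P y' = NE (r/4) (fun x => ‖v x‖) y'. The left side is ≤ (768/r) ∫ f Ψ with f = ‖v‖ √(gv v) P, f continuous (or see Pe_NE), bounded, integrable (P ≤ 13 (r/4) sup ‖v‖; ‖v‖ √gv integrable: Pe_vi).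
avg with a = r/4: ∫ f Ψ ≤ C 64 r⁻³ ∫_y Ψ y N y, N y = ∫_{ball y (r/4)} f. For y' ∈ ball y (r/4): ball y' (r/4) ⊆ ball y (r/2), ne4: P y'⁴ ≤ C (r/4) Q, Q = ∫_{ball y (r/2)} ‖v‖⁴. So N y ≤ (C r Q)^(1/4) ∫_{ball y (r/4)} ‖v‖ √gv; Cauchy-Schwarz: (∫_{ball y (r/4)} ‖v‖ √gv)² ≤ E1 r v y · G1 r v y.
So N⁸ ≤ (C r Q)² (E1 G1)⁴ ≤ C r² (C E1 G1³) E1⁴ G1⁴ = C r² E1⁵ G1⁷ ≤ C K⁵ r⁷ G⁷ (locs; E1 ≤ K r by Mo), i.e. x = N / r satisfies x⁸ ≤ a G⁷, a = C K⁵ / r. Elementary: then x ≤ η G + a / η⁷ for every η > 0 (if G ≥ a/η⁸ then a G⁷ ≤ (η G)⁸; else x⁸ ≤ a (a/η⁸)⁷ = (a/η⁷)⁸).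
Sum up: left side ≤ (768/r) 64 C r⁻³ ∫ Ψ r (η G + C K⁵/(r η⁷)) ≤ C' r⁻³ (η ∫ Ψ G + C K⁵/(r η⁷) · 10 r³) ≤ C' η C'' (DD + K/r) + C''' K⁵ / (η⁷ r) (g_avg). Choose η with C' C'' η ≤ δ; K, K⁵ ≤ (1+K)⁵.
-/
import Pool.Agent.H94.LS.DC
import Pool.Agent.H94.LS.DN

set_option autoImplicit false

open Set Filter Topology MeasureTheory
open scoped ContDiff

namespace Pool.Agent.H94.LS

open Pool.Agent.H16 Pool.Agent.H87.NS Pool.Agent.H72.CC Pool.Agent.H16.TU

theorem DQ_el {x a G η : ℝ} (ha : 0 ≤ a) (hG : 0 ≤ G) (hη : 0 < η)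
    (h : x ^ 8 ≤ a * G ^ 7) : x ≤ η * G + a / η ^ 7 := by
  by_contra hc
  push Not at hc
  obtain ⟨u, hu⟩ : ∃ u, u = η * G := ⟨_, rfl⟩
  obtain ⟨w, hw⟩ : ∃ w, w = a / η ^ 7 := ⟨_, rfl⟩
  have hu0 : 0 ≤ u := by rw [hu]; positivity
  have hw0 : 0 ≤ w := by rw [hw]; positivity
  rw [← hu, ← hw] at hc
  have h1 : (u + w) ^ 8 < x ^ 8 := pow_lt_pow_left₀ hc (by positivity) (by norm_num)
  have h2 : a * G ^ 7 = u ^ 7 * w := by
    rw [hu, hw]
    field_simp
  have h3 : u ^ 7 * w ≤ (u + w) ^ 8 := by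
    calc u ^ 7 * w ≤ (u + w) ^ 7 * (u + w) :=
          mul_le_mul (pow_le_pow_left₀ hu0 (by linarith) 7) (by linarith) hw0 (by positivity)
      _ = (u + w) ^ 8 := by ring
  linarith

/-- The divergence of the test field. -/
theorem DQ_dv {v : E3 → E3} (h : Vf v) {r z : ℝ} (hr : 0 < r) (x : E3) :
    |dv (fun k x => v x k * wt r r z x) x| ≤ 12 / r * (‖v x‖ * wt r r z x) := by
  have w := wt_wc hr le_rfl z
  have hv1 : ContDiff ℝ 1 v := h.sm.of_le (by exact_mod_cast le_top)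
  have hΨ : ContDiff ℝ 1 (wt r r z) := w.sm.of_le (by exact_mod_cast le_top)
  have e1 : dv (fun k x => v x k * wt r r z x) x = ∑ k : Fin 3, v x k * pd k (wt r r z) x := by
    unfold dv
    have h1 : ∀ k : Fin 3, pd k (fun x => v x k * wt r r z x) x =
        fderiv ℝ v x (e k) k * wt r r z x + v x k * pd k (wt r r z) x := by
      intro k
      have h2 := Psi_mul (f := fun x => v x k) (g := wt r r z) (x := x)
        ((contDiff_euclidean.1 hv1 k).differentiable one_ne_zero x)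
        (hΨ.differentiable one_ne_zero x) k
      rw [h2, pd_comp h.sm]
    simp only [h1]
    rw [Finset.sum_add_distrib, ← Finset.sum_mul, h.div x, zero_mul, zero_add]
  rw [e1]
  refine (Finset.abs_sum_le_sum_abs _ _).trans ?_
  calc ∑ i : Fin 3, |v x i * pd i (wt r r z) x| ≤ ∑ _i : Fin 3, ‖v x‖ * (4 / r * wt r r z x) := by
        refine Finset.sum_le_sum fun i _ => ?_
        rw [abs_mul]
        refine mul_le_mul ?_ (w.g1 i x) (abs_nonneg _) (norm_nonneg _)
        rw [← Real.norm_eq_abs]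
        exact PiLp.norm_apply_le _ _
    _ = 12 / r * (‖v x‖ * wt r r z x) := by
        rw [Finset.sum_const, Finset.card_univ, Fintype.card_fin, nsmul_eq_mul]
        push_cast
        ring

/-- The near kernel applied to the divergence. -/
theorem DQ_ne {v : E3 → E3} (h : Vf v) {r z : ℝ} (hr : 0 < r) (y : E3) :
    NE (r / 4) (dv (fun k x => v x k * wt r r z x)) y ≤ 768 / r * wt r r z y * NE (r / 4) (fun x => ‖v x‖) y := by
  obtain ⟨B, hB, hb, -, -⟩ := ba_vf h
  have hl : 0 < r / 4 := by positivity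
  have w := wt_wc hr le_rfl z
  have cn := (ba_gvc h.sm).2.1
  have hk := (ne_ker hl y).1
  have i1 : IntegrableOn (fun x => (‖x - y‖ ^ 2)⁻¹ * ‖v x‖) (Metric.ball y (r / 4)) :=
    hk.mul_bdd (c := B) cn.aestronglyMeasurable (Eventually.of_forall fun x => by
      rw [Real.norm_eq_abs, abs_of_nonneg (norm_nonneg _)]
      exact (hb x).1)
  unfold NE
  rw [← integral_const_mul]
  refine integral_mono_of_nonneg (Eventually.of_forall fun x => by positivity) ?_ ?_
  · have e1 : (fun x => 768 / r * wt r r z y * ((‖x - y‖ ^ 2)⁻¹ * |‖v x‖|)) =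
        fun x => 768 / r * wt r r z y * ((‖x - y‖ ^ 2)⁻¹ * ‖v x‖) := by
      funext x
      rw [abs_of_nonneg (norm_nonneg _)]
    rw [e1]
    exact i1.const_mul _
  · refine (ae_restrict_iff' measurableSet_ball).2 (Eventually.of_forall fun x hx => ?_)
    rw [Metric.mem_ball, dist_eq_norm] at hx
    have h1 := DQ_dv h (z := z) hr x
    have h2 := wt_cmp (A := 1) le_rfl hr le_rfl z (x := x) (y := y) (by linarith)
    have h3 : 0 ≤ (‖x - y‖ ^ 2)⁻¹ := by positivity
    have h4 : |dv (fun k x => v x k * wt r r z x) x| ≤ 768 / r * wt r r z y * ‖v x‖ := by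
      refine h1.trans ?_
      have h5 : ‖v x‖ * wt r r z x ≤ ‖v x‖ * (64 * wt r r z y) := by
        refine mul_le_mul_of_nonneg_left ?_ (norm_nonneg _)
        linarith
      calc 12 / r * (‖v x‖ * wt r r z x) ≤ 12 / r * (‖v x‖ * (64 * wt r r z y)) :=
            mul_le_mul_of_nonneg_left h5 (by positivity)
        _ = _ := by ring
    show (‖x - y‖ ^ 2)⁻¹ * |dv (fun k x => v x k * wt r r z x) x| ≤ 768 / r * wt r r z y * ((‖x - y‖ ^ 2)⁻¹ * |‖v x‖|)
    rw [abs_of_nonneg (norm_nonneg (v x))]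
    calc _ ≤ (‖x - y‖ ^ 2)⁻¹ * (768 / r * wt r r z y * ‖v x‖) := mul_le_mul_of_nonneg_left h4 h3
      _ = _ := by ring

theorem nea : ∀ δ : ℝ, 0 < δ → ∃ C : ℝ, 0 < C ∧ ∀ r K z : ℝ, 0 < r → 0 ≤ K → ∀ v : E3 → E3, Vf v → Mo r K v →
    ∫ y, ‖v y‖ * √(gv v y) * NE (r / 4) (dv (fun k x => v x k * wt r r z x)) y ≤ δ * DD v (wt r r z) + C * (1 + K) ^ 5 / r := by
  intro δ hδ
  obtain ⟨C₂, hC₂, h2⟩ := avg
  obtain ⟨C₃, hC₃, h3⟩ := g_avg
  obtain ⟨C, hC, h4⟩ := locs
  obtain ⟨Cn, hCn, hn4⟩ := ne4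
  obtain ⟨η, hη⟩ : ∃ η, η = δ / (49152 * C₂ * C₃) := ⟨_, rfl⟩
  have hη0 : 0 < η := by rw [hη]; positivity
  refine ⟨δ + 491520 * C₂ * (Cn ^ 2 * C / 16) / η ^ 7, by positivity, fun r K z hr hK v hv hm => ?_⟩
  obtain ⟨B, hB, hb, i2, ig⟩ := ba_vf hv
  have hl : 0 < r / 4 := by positivity
  have w := wt_wc hr le_rfl z
  have hV := (wt_int hr hr z).2
  obtain ⟨cg, cn, -⟩ := ba_gvc hv.sm
  have hg0 : ∀ x, 0 ≤ gv v x := fun x => (ba_gv x 0 0).1
  obtain ⟨h5, h6⟩ := h3 r K z hr hK v hv hm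
  -- the potential
  obtain ⟨P, hP⟩ : ∃ P : E3 → ℝ, P = NE (r / 4) (fun x => ‖v x‖) := ⟨_, rfl⟩
  obtain ⟨cP, bP⟩ := Pe_NE hl cn (B := B) fun x => by
    rw [abs_of_nonneg (norm_nonneg _)]
    exact (hb x).1
  rw [← hP] at cP bP
  have P0 : ∀ y, 0 ≤ P y := fun y => by
    rw [hP]
    unfold NE
    exact integral_nonneg fun x => by positivity
  obtain ⟨f, hf⟩ : ∃ f : E3 → ℝ, f = fun y => ‖v y‖ * √(gv v y) * P y := ⟨_, rfl⟩
  have cf : Continuous f := by rw [hf]; exact (cn.mul cg.sqrt).mul cP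
  have f0 : ∀ y, 0 ≤ f y := fun y => by
    have := P0 y
    rw [hf]
    positivity
  have iv := (Pe_vi hv).1
  have hPb : ∀ y, P y ≤ 13 * (r / 4) * B := fun y => (le_abs_self _).trans (bP y)
  have if' : Integrable f := by
    rw [hf]
    exact iv.mul_bdd (c := 13 * (r / 4) * B) cP.aestronglyMeasurable (Eventually.of_forall fun y => by
      rw [Real.norm_eq_abs]
      exact bP y)
  have fb : ∀ y, f y ≤ B * √B * (13 * (r / 4) * B) := fun y => by
    rw [hf]
    exact mul_le_mul (mul_le_mul (hb y).1 (Real.sqrt_le_sqrt (hb y).2.1) (Real.sqrt_nonneg _) hB) (hPb y) (P0 y) (by positivity)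
  obtain ⟨h7, h8, -⟩ := h2 r (r / 4) z hl (by linarith) f _ cf (fun x => ⟨f0 x, fb x⟩) if'
  have hG : ∀ y, 0 ≤ G1 r v y := fun y => by
    unfold G1
    refine integral_nonneg fun x => ?_
    have := hg0 x
    change 0 ≤ gv v x + (r ^ 2)⁻¹ * ‖v x‖ ^ 2
    positivity
  have hE0 : ∀ y, 0 ≤ E1 r v y := fun y => by
    unfold E1
    exact integral_nonneg fun x => by positivity
  have hE : ∀ y, E1 r v y ≤ K * r := fun y => hm y
  have hN : ∀ y, ∫ x in Metric.ball y (r / 4), f x ≤ η * r * G1 r v y + Cn ^ 2 * C / 16 * K ^ 5 / η ^ 7 := by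
    intro y
    obtain ⟨Q, hQ⟩ : ∃ Q : ℝ, Q = ∫ x in Metric.ball y (r / 2), ‖v x‖ ^ 4 := ⟨_, rfl⟩
    have hQ0 : 0 ≤ Q := by rw [hQ]; exact integral_nonneg fun x => by positivity
    obtain ⟨p, hp⟩ : ∃ p : ℝ, p = √√(Cn * (r / 4) * Q) := ⟨_, rfl⟩
    have hp0 : 0 ≤ p := by rw [hp]; exact Real.sqrt_nonneg _
    have hp4 : p ^ 4 = Cn * (r / 4) * Q := by
      have e1 : p ^ 4 = (p ^ 2) ^ 2 := by ring
      rw [e1, hp, Real.sq_sqrt (Real.sqrt_nonneg _), Real.sq_sqrt (by positivity)]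
    have hPp : ∀ x ∈ Metric.ball y (r / 4), P x ≤ p := by
      intro x hx
      have h9 := hn4 (r / 4) hl (fun x => ‖v x‖) cn x
      rw [← hP] at h9
      have hsub : Metric.ball x (r / 4) ⊆ Metric.ball y (r / 2) := by
        refine Metric.ball_subset_ball' ?_
        rw [Metric.mem_ball] at hx
        linarith
      have h10 : ∫ x in Metric.ball x (r / 4), ‖v x‖ ^ 4 ≤ Q := by
        rw [hQ]
        refine setIntegral_mono_set ?_ (Eventually.of_forall fun x => by positivity) (Eventually.of_forall hsub)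
        exact ((cn.pow 4).continuousOn.integrableOn_compact (isCompact_closedBall y (r / 2))).mono_set Metric.ball_subset_closedBall
      have h11 : P x ^ 4 ≤ p ^ 4 := by
        rw [hp4]
        exact h9.trans (mul_le_mul_of_nonneg_left h10 (by positivity))
      exact le_of_pow_le_pow_left₀ (by norm_num) hp0 h11
    obtain ⟨W, hW⟩ : ∃ W : ℝ, W = ∫ x in Metric.ball y (r / 4), ‖v x‖ * √(gv v x) := ⟨_, rfl⟩
    have hW0 : 0 ≤ W := by rw [hW]; exact integral_nonneg fun x => by positivity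
    have hNW : ∫ x in Metric.ball y (r / 4), f x ≤ p * W := by
      rw [hW, ← integral_const_mul]
      refine setIntegral_mono_on if'.integrableOn (iv.integrableOn.const_mul p) measurableSet_ball fun x hx => ?_
      rw [hf]
      have h12 := hPp x hx
      have h13 : 0 ≤ ‖v x‖ * √(gv v x) := by positivity
      show ‖v x‖ * √(gv v x) * P x ≤ p * (‖v x‖ * √(gv v x))
      nlinarith only [h12, h13]
    have hW2 : W ^ 2 ≤ E1 r v y * G1 r v y := by
      have hsub : Metric.ball y (r / 4) ⊆ Metric.ball y r := Metric.ball_subset_ball (by linarith)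
      have hsq : ∀ x, √(gv v x) ^ 2 = gv v x := fun x => Real.sq_sqrt (hg0 x)
      -- discriminant
      have hq : ∀ s : ℝ, 0 ≤ (∫ x in Metric.ball y (r / 4), ‖v x‖ ^ 2) * (s * s) + (-(2 * W)) * s +
          ∫ x in Metric.ball y (r / 4), gv v x := by
        intro s
        have e1 : (∫ x in Metric.ball y (r / 4), ‖v x‖ ^ 2) * (s * s) + (-(2 * W)) * s +
            ∫ x in Metric.ball y (r / 4), gv v x = ∫ x in Metric.ball y (r / 4), (s * ‖v x‖ - √(gv v x)) ^ 2 := by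
          have e2 : ∀ x, (s * ‖v x‖ - √(gv v x)) ^ 2 = (s * s) * ‖v x‖ ^ 2 + (-(2 * s)) * (‖v x‖ * √(gv v x)) + gv v x := by
            intro x
            have := hsq x
            linarith only [this]
          simp only [e2]
          have e3 : ∫ x in Metric.ball y (r / 4), ((s * s) * ‖v x‖ ^ 2 + (-(2 * s)) * (‖v x‖ * √(gv v x)) + gv v x) =
              (∫ x in Metric.ball y (r / 4), ((s * s) * ‖v x‖ ^ 2 + (-(2 * s)) * (‖v x‖ * √(gv v x)))) +
                ∫ x in Metric.ball y (r / 4), gv v x :=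
            integral_add ((i2.integrableOn.const_mul _).add (iv.integrableOn.const_mul _)) ig.integrableOn
          have e4 : ∫ x in Metric.ball y (r / 4), ((s * s) * ‖v x‖ ^ 2 + (-(2 * s)) * (‖v x‖ * √(gv v x))) =
              (∫ x in Metric.ball y (r / 4), (s * s) * ‖v x‖ ^ 2) +
                ∫ x in Metric.ball y (r / 4), (-(2 * s)) * (‖v x‖ * √(gv v x)) :=
            integral_add (i2.integrableOn.const_mul _) (iv.integrableOn.const_mul _)
          rw [e3, e4, integral_const_mul, integral_const_mul, hW]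
          ring
        rw [e1]
        exact integral_nonneg fun x => by positivity
      have hdisc := discrim_le_zero hq
      unfold discrim at hdisc
      have k1 : ∫ x in Metric.ball y (r / 4), ‖v x‖ ^ 2 ≤ E1 r v y :=
        setIntegral_mono_set i2.integrableOn (Eventually.of_forall fun x => by positivity) (Eventually.of_forall hsub)
      have k2 : ∫ x in Metric.ball y (r / 4), gv v x ≤ G1 r v y := by
        unfold G1
        calc ∫ x in Metric.ball y (r / 4), gv v x ≤ ∫ x in Metric.ball y r, gv v x :=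
              setIntegral_mono_set ig.integrableOn (Eventually.of_forall fun x => hg0 x) (Eventually.of_forall hsub)
          _ ≤ _ := setIntegral_mono ig.integrableOn (ig.integrableOn.add (i2.integrableOn.const_mul _)) fun x => by
              have : 0 ≤ (r ^ 2)⁻¹ * ‖v x‖ ^ 2 := by positivity
              show gv v x ≤ gv v x + (r ^ 2)⁻¹ * ‖v x‖ ^ 2
              linarith only [this]
      have k3 : 0 ≤ ∫ x in Metric.ball y (r / 4), gv v x := integral_nonneg fun x => hg0 x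
      have k4 := mul_le_mul k1 k2 k3 (hE0 y)
      linarith only [hdisc, k4]
    have h9 := (h4 v hv r hr y).1
    rw [← hQ] at h9
    have hN0 : 0 ≤ ∫ x in Metric.ball y (r / 4), f x := integral_nonneg fun x => f0 x
    have h10 : (∫ x in Metric.ball y (r / 4), f x) ^ 8 ≤ Cn ^ 2 * C / 16 * K ^ 5 * r ^ 7 * G1 r v y ^ 7 := by
      have g0 := hG y
      have e0 := hE0 y
      calc (∫ x in Metric.ball y (r / 4), f x) ^ 8 ≤ (p * W) ^ 8 := pow_le_pow_left₀ hN0 hNW 8
        _ = (p ^ 4) ^ 2 * (W ^ 2) ^ 4 := by ring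
        _ ≤ (Cn * (r / 4) * Q) ^ 2 * (E1 r v y * G1 r v y) ^ 4 := by
            rw [hp4]
            exact mul_le_mul_of_nonneg_left (pow_le_pow_left₀ (by positivity) hW2 4) (by positivity)
        _ = Cn ^ 2 / 16 * r ^ 2 * Q ^ 2 * (E1 r v y * G1 r v y) ^ 4 := by ring
        _ ≤ Cn ^ 2 / 16 * r ^ 2 * (C * E1 r v y * G1 r v y ^ 3) * (E1 r v y * G1 r v y) ^ 4 := by
            refine mul_le_mul_of_nonneg_right (mul_le_mul_of_nonneg_left h9 (by positivity)) (by positivity)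
        _ = Cn ^ 2 * C / 16 * r ^ 2 * E1 r v y ^ 5 * G1 r v y ^ 7 := by ring
        _ ≤ Cn ^ 2 * C / 16 * r ^ 2 * (K * r) ^ 5 * G1 r v y ^ 7 := by
            refine mul_le_mul_of_nonneg_right (mul_le_mul_of_nonneg_left (pow_le_pow_left₀ e0 (hE y) 5) (by positivity)) (by positivity)
        _ = _ := by ring
    have h14 := DQ_el (a := Cn ^ 2 * C / 16 * K ^ 5 * r ^ 7) (η := η * r) (by positivity) (hG y) (by positivity) h10
    refine h14.trans (le_of_eq ?_)
    congr 1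
    field_simp
  have h15 : ∫ y, wt r r z y * ∫ x in Metric.ball y (r / 4), f x ≤
      η * r * (∫ y, wt r r z y * G1 r v y) + Cn ^ 2 * C / 16 * K ^ 5 / η ^ 7 * VV (wt r r z) := by
    unfold VV
    rw [← integral_const_mul, ← integral_const_mul, ← integral_add (h5.const_mul _)
      (w.int.const_mul _)]
    refine integral_mono h7 ((h5.const_mul _).add (w.int.const_mul _)) fun y => ?_
    have h16 := mul_le_mul_of_nonneg_left (hN y) (w.nn y)
    change wt r r z y * ∫ x in Metric.ball y (r / 4), f x ≤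
      η * r * (wt r r z y * G1 r v y) + Cn ^ 2 * C / 16 * K ^ 5 / η ^ 7 * wt r r z y
    refine h16.trans (le_of_eq ?_)
    ring
  have h17 : ∫ y, wt r r z y * ∫ x in Metric.ball y (r / 4), f x ≤
      η * r * (C₃ * r ^ 3 * (DD v (wt r r z) + K / r)) + Cn ^ 2 * C / 16 * K ^ 5 / η ^ 7 * (10 * r ^ 2 * r) := by
    refine h15.trans (add_le_add ?_ ?_)
    · exact mul_le_mul_of_nonneg_left h6 (by positivity)
    · exact mul_le_mul_of_nonneg_left hV (by positivity)
  have h18 : ∫ x, f x * wt r r z x ≤ C₂ * ((r / 4) ^ 3)⁻¹ *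
      (η * r * (C₃ * r ^ 3 * (DD v (wt r r z) + K / r)) +
        Cn ^ 2 * C / 16 * K ^ 5 / η ^ 7 * (10 * r ^ 2 * r)) := by
    refine h8.trans ?_
    exact mul_le_mul_of_nonneg_left h17 (by positivity)
  have h19 : ∫ y, ‖v y‖ * √(gv v y) * NE (r / 4) (dv (fun k x => v x k * wt r r z x)) y ≤ 768 / r * ∫ x, f x * wt r r z x := by
    have ifw : Integrable (fun x => f x * wt r r z x) := wi w cf (K := B * √B * (13 * (r / 4) * B)) fun x => by
      rw [abs_of_nonneg (f0 x)]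
      exact fb x
    rw [← integral_const_mul]
    refine integral_mono_of_nonneg (Eventually.of_forall fun y => ?_) (ifw.const_mul _) (Eventually.of_forall fun y => ?_)
    · have : 0 ≤ NE (r / 4) (dv (fun k x => v x k * wt r r z x)) y := by
        unfold NE
        exact integral_nonneg fun x => by positivity
      show 0 ≤ ‖v y‖ * √(gv v y) * NE (r / 4) (dv (fun k x => v x k * wt r r z x)) y
      positivity
    · have h20 := DQ_ne hv (z := z) hr y
      have h21 : 0 ≤ ‖v y‖ * √(gv v y) := by positivity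
      show ‖v y‖ * √(gv v y) * NE (r / 4) (dv (fun k x => v x k * wt r r z x)) y ≤ 768 / r * (f y * wt r r z y)
      rw [hf, hP]
      calc _ ≤ ‖v y‖ * √(gv v y) * (768 / r * wt r r z y * NE (r / 4) (fun x => ‖v x‖) y) :=
            mul_le_mul_of_nonneg_left h20 h21
        _ = _ := by ring
  refine h19.trans ((mul_le_mul_of_nonneg_left h18 (by positivity)).trans ?_)
  have e1 : 768 / r * (C₂ * ((r / 4) ^ 3)⁻¹ *
      (η * r * (C₃ * r ^ 3 * (DD v (wt r r z) + K / r)) +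
        Cn ^ 2 * C / 16 * K ^ 5 / η ^ 7 * (10 * r ^ 2 * r))) =
      (49152 * C₂ * C₃ * η) * DD v (wt r r z) +
        ((49152 * C₂ * C₃ * η) * K + 491520 * C₂ * (Cn ^ 2 * C / 16) / η ^ 7 * K ^ 5) / r := by
    field_simp
    ring
  have e2 : 49152 * C₂ * C₃ * η = δ := by
    rw [hη]
    field_simp
  rw [e1, e2]
  have hK1 : K ≤ (1 + K) ^ 5 := by
    have : 1 + K ≤ (1 + K) ^ 5 := le_self_pow₀ (by linarith) (by norm_num)
    linarith
  have hK5 : K ^ 5 ≤ (1 + K) ^ 5 := pow_le_pow_left₀ hK (by linarith) 5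
  refine add_le_add le_rfl (div_le_div_of_nonneg_right ?_ hr.le)
  have h21 := mul_le_mul_of_nonneg_left hK1 hδ.le
  have h22 := mul_le_mul_of_nonneg_left hK5 (show 0 ≤ 491520 * C₂ * (Cn ^ 2 * C / 16) / η ^ 7 by positivity)
  linarith only [h21, h22]

end Pool.Agent.H94.LS
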