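/-
ROW DI (MP_09540e_DS). Uses DP (pB), DF (far), DC, DQ (statements). The dissipation is bounded by the energy at the same scale. PROOF. helper94.
-/
import Pool.Agent.H94.LS.DP
import Pool.Agent.H94.LS.DF
import Pool.Agent.H94.LS.DQ

set_option autoImplicit false

open Set Filter Topology MeasureTheory
open scoped ContDiff

namespace Pool.Agent.H94.LS

open Pool.Agent.H16 Pool.Agent.H87.NS Pool.Agent.H72.CC Pool.Agent.H16.TU

theorem DI_DD0 {c : ℝ} {v : E3 → E3} {Ψ : E3 → ℝ} (w : Wc c Ψ) : 0 ≤ DD v Ψ :=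
  integral_nonneg fun x => mul_nonneg (ba_gv x 0 0).1 (w.nn x)

theorem DI_tf {v : E3 → E3} (h : Vf v) {c : ℝ} {Ψ : E3 → ℝ} (w : Wc c Ψ) (k : Fin 3) : TF (fun x => v x k * Ψ x) := by
  obtain ⟨K, hK⟩ := h.db
  refine ba_tf (K := K) w ?_ ?_
  · exact (contDiff_euclidean.1 (h.sm.of_le (by exact_mod_cast le_top : (1 : WithTop ℕ∞) ≤ ∞))) k
  · intro x
    exact ⟨(DB_BL (hK k)).1 x, fun i => (DB_BL (DB_pd (hK k) i)).1 x⟩

/-- The first part of the right side of the energy identity. -/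
theorem DI_a {v : E3 → E3} (h : Vf v) {r z : ℝ} (hr : 0 < r) :
    ∫ x, ‖v x‖ ^ 2 * (lap (wt r r z) x + adv (v x) (wt r r z) x) ≤
      24 / r ^ 2 * SS v (wt r r z) + 12 / r * ∫ x, ‖v x‖ ^ 3 * wt r r z x := by
  have w := wt_wc hr le_rfl z
  obtain ⟨K, hK0, hK, -, -⟩ := ba_vf h
  have hc := (ba_gvc h.sm).2.1
  have i2 : Integrable fun x => ‖v x‖ ^ 2 * wt r r z x := wi (K := K ^ 2) w (hc.pow 2) fun x => by
    rw [abs_of_nonneg (by positivity)]
    exact pow_le_pow_left₀ (norm_nonneg _) (hK x).1 2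
  have i3 : Integrable fun x => ‖v x‖ ^ 3 * wt r r z x := wi (K := K ^ 3) w (hc.pow 3) fun x => by
    rw [abs_of_nonneg (by positivity)]
    exact pow_le_pow_left₀ (norm_nonneg _) (hK x).1 3
  have hle : ∀ x, |‖v x‖ ^ 2 * (lap (wt r r z) x + adv (v x) (wt r r z) x)| ≤
      24 / r ^ 2 * (‖v x‖ ^ 2 * wt r r z x) + 12 / r * (‖v x‖ ^ 3 * wt r r z x) := by
    intro x
    have h1 := wt_lap hr le_rfl z x
    have h2 : |adv (v x) (wt r r z) x| ≤ 12 / r * (‖v x‖ * wt r r z x) := by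
      unfold adv
      refine (Finset.abs_sum_le_sum_abs _ _).trans ?_
      calc ∑ i : Fin 3, |v x i * pd i (wt r r z) x| ≤ ∑ _i : Fin 3, ‖v x‖ * (4 / r * wt r r z x) := by
            refine Finset.sum_le_sum fun i _ => ?_
            rw [abs_mul]
            refine mul_le_mul ?_ (w.g1 i x) (abs_nonneg _) (norm_nonneg _)
            rw [← Real.norm_eq_abs]
            exact PiLp.norm_apply_le _ _
        _ = 12 / r * (‖v x‖ * wt r r z x) := by
            rw [Finset.sum_const, Finset.card_univ, Fintype.card_fin, nsmul_eq_mul]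
            push_cast
            ring
    rw [abs_mul, abs_of_nonneg (by positivity : (0:ℝ) ≤ ‖v x‖ ^ 2)]
    calc ‖v x‖ ^ 2 * |lap (wt r r z) x + adv (v x) (wt r r z) x|
        ≤ ‖v x‖ ^ 2 * (24 / r ^ 2 * wt r r z x + 12 / r * (‖v x‖ * wt r r z x)) :=
          mul_le_mul_of_nonneg_left ((abs_add_le _ _).trans (add_le_add h1 h2)) (by positivity)
      _ = _ := by ring
  calc _ ≤ ∫ x, (24 / r ^ 2 * (‖v x‖ ^ 2 * wt r r z x) + 12 / r * (‖v x‖ ^ 3 * wt r r z x)) := by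
        refine (le_abs_self _).trans ?_
        rw [← Real.norm_eq_abs]
        refine norm_integral_le_of_norm_le ((i2.const_mul _).add (i3.const_mul _)) (Eventually.of_forall fun x => ?_)
        rw [Real.norm_eq_abs]
        exact hle x
    _ = _ := by
        rw [integral_add (i2.const_mul _) (i3.const_mul _), integral_const_mul, integral_const_mul]
        rfl

/-- The integral of the test field. -/
theorem DI_b {v : E3 → E3} (h : Vf v) {r z : ℝ} (hr : 0 < r) :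
    ∫ x, ∑ k : Fin 3, |v x k * wt r r z x| ≤ 3 / 2 * (r * SS v (wt r r z) + 10 * r ^ 2) := by
  have w := wt_wc hr le_rfl z
  obtain ⟨K, hK0, hK, -, -⟩ := ba_vf h
  have hc := (ba_gvc h.sm).2.1
  have i2 : Integrable fun x => ‖v x‖ ^ 2 * wt r r z x := wi (K := K ^ 2) w (hc.pow 2) fun x => by
    rw [abs_of_nonneg (by positivity)]
    exact pow_le_pow_left₀ (norm_nonneg _) (hK x).1 2
  have hV := (wt_int hr hr z).2
  have hle : ∀ x, |(∑ k : Fin 3, |v x k * wt r r z x|)| ≤ 3 / 2 * (r * (‖v x‖ ^ 2 * wt r r z x) + r⁻¹ * wt r r z x) := by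
    intro x
    rw [abs_of_nonneg (Finset.sum_nonneg fun _ _ => abs_nonneg _)]
    have h0 := w.nn x
    calc ∑ k : Fin 3, |v x k * wt r r z x| ≤ ∑ _k : Fin 3, ‖v x‖ * wt r r z x := by
          refine Finset.sum_le_sum fun k _ => ?_
          rw [abs_mul, abs_of_nonneg h0, ← Real.norm_eq_abs]
          exact mul_le_mul_of_nonneg_right (PiLp.norm_apply_le _ _) h0
      _ = 3 * ‖v x‖ * wt r r z x := by
          rw [Finset.sum_const, Finset.card_univ, Fintype.card_fin, nsmul_eq_mul]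
          push_cast
          ring
      _ ≤ 3 / 2 * (r * ‖v x‖ ^ 2 + r⁻¹) * wt r r z x := by
          refine mul_le_mul_of_nonneg_right ?_ h0
          have h1 : r * r⁻¹ = 1 := mul_inv_cancel₀ hr.ne'
          have h2 : 0 < r⁻¹ := inv_pos.2 hr
          have h3 : r * ‖v x‖ ^ 2 + r⁻¹ - 2 * ‖v x‖ = r⁻¹ * (r * ‖v x‖ - 1) ^ 2 := by
            have : r⁻¹ * (r * ‖v x‖ - 1) ^ 2 = (r * r⁻¹) * (r * ‖v x‖ ^ 2) - 2 * (r * r⁻¹) * ‖v x‖ + r⁻¹ := by ring
            rw [this, h1]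
            ring
          have h4 : 0 ≤ r⁻¹ * (r * ‖v x‖ - 1) ^ 2 := by positivity
          linarith only [h3, h4]
      _ = _ := by ring
  calc ∫ x, ∑ k : Fin 3, |v x k * wt r r z x| ≤ ∫ x, 3 / 2 * (r * (‖v x‖ ^ 2 * wt r r z x) + r⁻¹ * wt r r z x) := by
        refine (le_abs_self _).trans ?_
        rw [← Real.norm_eq_abs]
        refine norm_integral_le_of_norm_le (((i2.const_mul r).add (w.int.const_mul r⁻¹)).const_mul (3/2)) (Eventually.of_forall fun x => ?_)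
        rw [Real.norm_eq_abs]
        exact hle x
    _ = 3 / 2 * (r * SS v (wt r r z) + r⁻¹ * VV (wt r r z)) := by
        rw [integral_const_mul, integral_add (i2.const_mul r) (w.int.const_mul r⁻¹), integral_const_mul, integral_const_mul]
        rfl
    _ ≤ _ := by
        have h1 : r⁻¹ * VV (wt r r z) ≤ r⁻¹ * (10 * r ^ 2 * r) := mul_le_mul_of_nonneg_left hV (inv_pos.2 hr).le
        have h2 : r⁻¹ * (10 * r ^ 2 * r) = 10 * r ^ 2 := by field_simp
        linarith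

theorem slice : ∃ C : ℝ, 0 < C ∧ ∀ (T : ℝ) (u : ℝ → E3 → E3) (p : ℝ → E3 → ℝ), IsHInfAxisymNS T u p → ∀ t ∈ Ioo 0 T, ∀ r K z : ℝ,
    0 < r → 0 ≤ K → Mo r K (u t) →
    (∫ x, ‖u t x‖ ^ 2 * (lap (wt r r z) x + adv (u t x) (wt r r z) x)) / 2 -
      ∫ x, (∑ k : Fin 3, pd k (p t) x * (u t x k * wt r r z x)) ≤ 1 / 2 * DD (u t) (wt r r z) + C * (1 + K) ^ 5 / r := by
  obtain ⟨Cp, hCp, Hp⟩ := pB
  obtain ⟨Cf, hCf, Hf⟩ := far
  obtain ⟨Cs, hCs, Hs⟩ := mo_ss
  obtain ⟨Cc, hCc, Hc⟩ := cub (1 / 24) (by norm_num)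
  obtain ⟨Cn, hCn, Hn⟩ := nea (1 / (4 * Cp)) (by positivity)
  refine ⟨12 * Cs + 6 * Cc + Cp * (Cn + Cf * (3 / 2 * (Cs + 10))), by positivity, ?_⟩
  intro T u p h t ht r K z hr hK hM
  have hv : Vf (u t) := vf_u h ⟨ht.1.le, ht.2⟩
  have w := wt_wc hr le_rfl z
  have hD : 0 ≤ DD (u t) (wt r r z) := DI_DD0 w
  have hS0 : 0 ≤ SS (u t) (wt r r z) := integral_nonneg fun x => mul_nonneg (by positivity) (w.nn x)
  have a1 := DI_a hv (z := z) hr
  have a2 := Hs r K z hr hK (u t) hv hM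
  have a3 := Hc r K z hr hK (u t) hv hM
  have a4 := Hn r K z hr hK (u t) hv hM
  have hF : ∀ k : Fin 3, TF ((fun (k : Fin 3) x => u t x k * wt r r z x) k) := fun k => DI_tf hv w k
  have a5 := Hf r K hr hK (u t) hv hM (fun k x => u t x k * wt r r z x) hF
  have a6 := DI_b hv (z := z) hr
  have a7 := Hp T u p h t ht (fun k x => u t x k * wt r r z x) hF (r / 4) (by positivity)
  have hL1 : 1 ≤ 1 + K := by linarith only [hK]
  have hL5 : (1 + K) ≤ (1 + K) ^ 5 := le_self_pow₀ hL1 (by norm_num)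
  have hL2 : (1 + K) ^ 2 ≤ (1 + K) ^ 5 := pow_le_pow_right₀ hL1 (by norm_num)
  have hr' : 0 < r⁻¹ := inv_pos.2 hr
  obtain ⟨L, hL⟩ : ∃ L : ℝ, L = (1 + K) ^ 5 / r := ⟨_, rfl⟩
  have hLr : (1 + K) ^ 5 = L * r := by rw [hL]; field_simp
  have hL0 : 0 ≤ L := by rw [hL]; positivity
  -- the energy term
  have b1 : 24 / r ^ 2 * SS (u t) (wt r r z) ≤ 24 * Cs * L := by
    calc 24 / r ^ 2 * SS (u t) (wt r r z) ≤ 24 / r ^ 2 * (Cs * K * r) := mul_le_mul_of_nonneg_left a2 (by positivity)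
      _ = 24 * Cs * (K / r) := by field_simp
      _ ≤ 24 * Cs * L := by
        refine mul_le_mul_of_nonneg_left ?_ (by positivity)
        rw [hL]
        exact div_le_div_of_nonneg_right (by linarith only [hL5]) hr.le
  have b2 : 12 / r * ∫ x, ‖u t x‖ ^ 3 * wt r r z x ≤ 1 / 2 * DD (u t) (wt r r z) + 12 * Cc * L := by
    calc 12 / r * ∫ x, ‖u t x‖ ^ 3 * wt r r z x ≤ 12 / r * (r * (1 / 24 * DD (u t) (wt r r z) + Cc * (1 + K) ^ 5 / r)) :=
          mul_le_mul_of_nonneg_left a3 (by positivity)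
      _ = 1 / 2 * DD (u t) (wt r r z) + 12 * Cc * L := by
        rw [hL]
        field_simp
        ring
  -- the far term
  have b3 : ∫ y, ‖u t y‖ ^ 2 * FB (r / 4) (fun k x => u t x k * wt r r z x) y ≤ Cf * (3 / 2 * (Cs + 10)) * L := by
    have c1 : r * SS (u t) (wt r r z) + 10 * r ^ 2 ≤ (Cs + 10) * (1 + K) * r ^ 2 := by
      have c2 : r * SS (u t) (wt r r z) ≤ r * (Cs * K * r) := mul_le_mul_of_nonneg_left a2 hr.le
      have c3 : 0 ≤ r ^ 2 := by positivity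
      have c4 : (Cs + 10) * (1 + K) * r ^ 2 - (r * (Cs * K * r) + 10 * r ^ 2) = (Cs + 10 * K) * r ^ 2 := by ring
      have c5 : 0 ≤ (Cs + 10 * K) * r ^ 2 := by positivity
      linarith only [c2, c5]
    calc _ ≤ Cf * K / r ^ 3 * ∫ x, ∑ k : Fin 3, |u t x k * wt r r z x| := a5
      _ ≤ Cf * K / r ^ 3 * (3 / 2 * ((Cs + 10) * (1 + K) * r ^ 2)) :=
        mul_le_mul_of_nonneg_left (a6.trans (mul_le_mul_of_nonneg_left c1 (by norm_num))) (by positivity)
      _ = Cf * (3 / 2 * (Cs + 10)) * (K * (1 + K) / r) := by field_simp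
      _ ≤ Cf * (3 / 2 * (Cs + 10)) * L := by
        refine mul_le_mul_of_nonneg_left ?_ (by positivity)
        rw [hL]
        refine div_le_div_of_nonneg_right ?_ hr.le
        linarith only [hK, hL2]
  have b4 : |∫ x, ∑ k : Fin 3, pd k (p t) x * (u t x k * wt r r z x)| ≤
      1 / 4 * DD (u t) (wt r r z) + Cp * (Cn + Cf * (3 / 2 * (Cs + 10))) * L := by
    refine a7.trans ?_
    have c1 : Cn * (1 + K) ^ 5 / r = Cn * L := by rw [hL]; ring
    rw [c1] at a4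
    have c2 : Cp * (1 / (4 * Cp) * DD (u t) (wt r r z)) = 1 / 4 * DD (u t) (wt r r z) := by field_simp
    have c3 := mul_le_mul_of_nonneg_left (add_le_add a4 b3) hCp.le
    calc _ ≤ _ := c3
      _ = Cp * (1 / (4 * Cp) * DD (u t) (wt r r z)) + Cp * (Cn + Cf * (3 / 2 * (Cs + 10))) * L := by ring
      _ = _ := by rw [c2]
  have b5 := neg_abs_le (∫ x, ∑ k : Fin 3, pd k (p t) x * (u t x k * wt r r z x))
  have e1 : (12 * Cs + 6 * Cc + Cp * (Cn + Cf * (3 / 2 * (Cs + 10)))) * (1 + K) ^ 5 / r =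
      12 * Cs * L + 6 * Cc * L + Cp * (Cn + Cf * (3 / 2 * (Cs + 10))) * L := by
    rw [hL]
    ring
  rw [e1]
  linarith only [a1, b1, b2, b4, b5]

/-- The weight is at least `1/8` on the ball. -/
theorem DI_wt {r z : ℝ} (hr : 0 < r) {x : E3} (hx : x ∈ Metric.ball (axp z) r) : 1 / 8 ≤ wt r r z x := by
  rw [Metric.mem_ball, dist_eq_norm] at hx
  have h1 : ‖x - axp z‖ ^ 2 = rsq x + (x 2 - z) ^ 2 := by
    rw [norm_sq_eq]
    simp [axp, rsq]
  have h2 : ‖x - axp z‖ ^ 2 ≤ r ^ 2 := pow_le_pow_left₀ (norm_nonneg _) hx.le 2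
  have h3 : 0 ≤ rsq x := by unfold rsq; positivity
  have h4 : rsq x / r ^ 2 ≤ 1 := by
    rw [div_le_one (by positivity)]
    nlinarith [sq_nonneg (x 2 - z)]
  have h5 : (x 2 - z) ^ 2 / r ^ 2 ≤ 1 := by
    rw [div_le_one (by positivity)]
    linarith
  have h6 : 0 ≤ rsq x / r ^ 2 := by positivity
  have h7 : 0 ≤ (x 2 - z) ^ 2 / r ^ 2 := by positivity
  unfold wt
  have h8 : ((2:ℝ) ^ 2)⁻¹ ≤ ((1 + rsq x / r ^ 2) ^ 2)⁻¹ :=
    inv_anti₀ (by positivity) (pow_le_pow_left₀ (by positivity) (by linarith) 2)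
  have h9 : (2:ℝ)⁻¹ ≤ (1 + (x 2 - z) ^ 2 / r ^ 2)⁻¹ := inv_anti₀ (by positivity) (by linarith)
  calc (1:ℝ) / 8 = ((2:ℝ) ^ 2)⁻¹ * (2:ℝ)⁻¹ := by norm_num
    _ ≤ _ := mul_le_mul h8 h9 (by norm_num) (by positivity)

theorem diss : ∃ C : ℝ, 0 < C ∧ ∀ (T : ℝ) (u : ℝ → E3 → E3) (p : ℝ → E3 → ℝ), IsHInfAxisymNS T u p → ∀ s t r K : ℝ,
    0 ≤ s → s ≤ t → t < T → t ≤ s + r ^ 2 → 0 < r → 0 ≤ K → (∀ τ ∈ Icc s t, Mo r K (u τ)) → ∀ z : ℝ,
    ∫ τ in s..t, ∫ x in Metric.ball (axp z) r, gv (u τ) x ≤ C * (1 + K) ^ 5 * r := by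
  obtain ⟨C, hC, H⟩ := slice
  obtain ⟨Cs, hCs, Hs⟩ := mo_ss
  refine ⟨8 * (Cs + 2 * C), by positivity, ?_⟩
  intro T u p h s t r K hs hst htT htr hr hK hM z
  have w := wt_wc hr le_rfl z
  have hL1 : 1 ≤ 1 + K := by linarith
  have hL5 : (1 + K) ≤ (1 + K) ^ 5 := le_self_pow₀ hL1 (by norm_num)
  have hsub : Icc s t ⊆ Ico 0 T := fun τ hτ => ⟨hs.trans hτ.1, lt_of_le_of_lt hτ.2 htT⟩
  have iD : IntervalIntegrable (fun τ => DD (u τ) (wt r r z)) volume s t :=
    ((tc_u h w).2.1.mono hsub).intervalIntegrable_of_Icc hst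
  have hen := enA h w hs hst htT
  have hint := enA_int h w hs hst htT
  have hmono := intervalIntegral.integral_mono_on_of_le_Ioo hst hint
    ((iD.const_mul (1/2)).add (intervalIntegrable_const (c := C * (1 + K) ^ 5 / r))) (by
    intro τ hτ
    exact H T u p h τ ⟨lt_of_le_of_lt hs hτ.1, lt_trans hτ.2 htT⟩ r K z hr hK (hM τ ⟨hτ.1.le, hτ.2.le⟩))
  rw [intervalIntegral.integral_add (iD.const_mul (1/2)) intervalIntegrable_const,
    intervalIntegral.integral_const_mul, intervalIntegral.integral_const, smul_eq_mul] at hmono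
  have hSt : 0 ≤ SS (u t) (wt r r z) := integral_nonneg fun x => mul_nonneg (by positivity) (w.nn x)
  have hSs := Hs r K z hr hK (u s) (vf_u h ⟨hs, lt_of_le_of_lt hst htT⟩) (hM s ⟨le_rfl, hst⟩)
  have h1 : (t - s) * (C * (1 + K) ^ 5 / r) ≤ C * (1 + K) ^ 5 * r := by
    calc (t - s) * (C * (1 + K) ^ 5 / r) ≤ r ^ 2 * (C * (1 + K) ^ 5 / r) :=
          mul_le_mul_of_nonneg_right (by linarith only [htr]) (by positivity)
      _ = C * (1 + K) ^ 5 * r := by field_simp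
  have h2 : Cs * K * r ≤ Cs * (1 + K) ^ 5 * r := by
    refine mul_le_mul_of_nonneg_right (mul_le_mul_of_nonneg_left ?_ hCs.le) hr.le
    linarith
  have h3 : ∫ τ in s..t, DD (u τ) (wt r r z) ≤ (Cs + 2 * C) * (1 + K) ^ 5 * r := by
    have e1 : (Cs + 2 * C) * (1 + K) ^ 5 * r = Cs * (1 + K) ^ 5 * r + 2 * (C * (1 + K) ^ 5 * r) := by ring
    rw [e1]
    linarith
  have h4 : ∀ τ ∈ Icc s t, ∫ x in Metric.ball (axp z) r, gv (u τ) x ≤ 8 * DD (u τ) (wt r r z) := by
    intro τ hτ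
    have hv := vf_u h (hsub hτ)
    obtain ⟨K', hK', hb, -, i1⟩ := ba_vf hv
    have hc := (ba_gvc hv.sm).1
    have i2 : Integrable fun x => gv (u τ) x * wt r r z x := by
      refine Integrable.mono' i1 (hc.mul w.sm.continuous).aestronglyMeasurable (Eventually.of_forall fun x => ?_)
      have := (ba_gv (v := u τ) x 0 0).1
      rw [Real.norm_eq_abs, abs_of_nonneg (mul_nonneg this (w.nn x))]
      exact mul_le_of_le_one_right this (w.le x)
    calc ∫ x in Metric.ball (axp z) r, gv (u τ) x ≤ ∫ x in Metric.ball (axp z) r, 8 * (gv (u τ) x * wt r r z x) := by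
          refine setIntegral_mono_on i1.integrableOn (i2.const_mul 8).integrableOn measurableSet_ball fun x hx => ?_
          have h5 := DI_wt hr hx
          have h6 := (ba_gv (v := u τ) x 0 0).1
          nlinarith only [h5, h6]
      _ ≤ ∫ x, 8 * (gv (u τ) x * wt r r z x) :=
          setIntegral_le_integral (i2.const_mul 8) (Eventually.of_forall fun x =>
            mul_nonneg (by norm_num) (mul_nonneg (ba_gv (v := u τ) x 0 0).1 (w.nn x)))
      _ = 8 * DD (u τ) (wt r r z) := by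
          rw [integral_const_mul]
          rfl
  have h5 : ∫ τ in s..t, ∫ x in Metric.ball (axp z) r, gv (u τ) x ≤ 8 * ∫ τ in s..t, DD (u τ) (wt r r z) := by
    rw [← intervalIntegral.integral_const_mul]
    by_cases hi : IntervalIntegrable (fun τ => ∫ x in Metric.ball (axp z) r, gv (u τ) x) volume s t
    · exact intervalIntegral.integral_mono_on hst hi (iD.const_mul 8) h4
    · rw [intervalIntegral.integral_undef hi]
      refine intervalIntegral.integral_nonneg hst fun τ _ => ?_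
      have := DI_DD0 (v := u τ) w
      linarith
  calc _ ≤ _ := h5
    _ ≤ 8 * ((Cs + 2 * C) * (1 + K) ^ 5 * r) := by linarith
    _ = _ := by ring

end Pool.Agent.H94.LS
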