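import Pool.Agent.H90.AX.Res

/-! Decay of the circulation through the good scales: the constants may depend on the scale. -/

set_option autoImplicit false

open Set Filter Topology MeasureTheory
open scoped ContDiff

namespace Pool.Agent.H94.LS

open Pool.Agent.H16 Pool.Agent.H87.NS Pool.Agent.H72.CC

/-- The energy of the axial velocity in the cylinder of radius and half height `a` around `(0,0,z)`. -/
noncomputable def aE (v : E3 → E3) (z a : ℝ) : ℝ := ∫ x in {x : E3 | rad x < a ∧ |x 2 - z| < a}, v x 2 ^ 2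

/-- The scale `a` is good, with the constant `κ`. -/
def Gd (t₀ : ℝ) (u : ℝ → E3 → E3) (t z a κ : ℝ) : Prop :=
  ∀ s : ℝ, t₀ < s → t - a ^ 2 ≤ s → s ≤ t → aE (u s) z a ≤ κ * a

theorem stpA : Pool.Agent.H90.AX.Stp Gd := by
  obtain ⟨C₁, hC₁, H⟩ := Pool.Agent.H90.AX.stp
  refine ⟨C₁, hC₁, fun T u p h t₀ t ρ z K g h0 ht hρ hρt hK hg hb => H T u p h t₀ t ρ z K g h0 ht hρ hρt hK ?_ hb⟩
  refine ⟨fun _ => K, continuousOn_const, fun _ => by linarith, fun s hs hs0 r hr => ?_, ?_⟩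
  · have hsT : s ∈ Ico 0 T := ⟨by linarith, by linarith [hs.2]⟩
    have h1 := Pool.Agent.H90.AX.uz_sq (axF_of h.ns hsT) (a := ρ) (r := r) (z := z) hr.1 hr.2
    have h2 : aE (u s) z ρ ≤ K * ρ := hg s hs0 hs.1 hs.2
    have h3 : (1 : ℝ) ≤ 4 * Real.pi := by linarith [Real.pi_gt_three]
    have h4 : r ^ 2 / (4 * Real.pi) ≤ r ^ 2 := div_le_self (sq_nonneg r) h3
    have h5 : 0 ≤ K * ρ := by positivity
    calc _ ≤ r ^ 2 / (4 * Real.pi) * aE (u s) z ρ := h1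
      _ ≤ r ^ 2 / (4 * Real.pi) * (K * ρ) := mul_le_mul_of_nonneg_left h2 (by positivity)
      _ ≤ r ^ 2 * (K * ρ) := mul_le_mul_of_nonneg_right h4 h5
      _ = K * ρ * r ^ 2 := by ring
  · rw [intervalIntegral.integral_const, smul_eq_mul]
    refine le_of_eq ?_
    ring

/-- The elements of `S` between `n₁` and `n`. -/
def sel (S : Finset ℕ) (n₁ n : ℕ) : Finset ℕ := S.filter fun j => n₁ ≤ j ∧ j < n

theorem sel_zero (S : Finset ℕ) (n₁ : ℕ) : sel S n₁ n₁ = ∅ := by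
  unfold sel
  rw [Finset.filter_eq_empty_iff]
  intro j _ h
  omega

theorem sel_skip (S : Finset ℕ) {n₁ n : ℕ} (h : n ∉ S) : sel S n₁ (n + 1) = sel S n₁ n := by
  unfold sel
  refine Finset.filter_congr fun j hj => ?_
  constructor
  · rintro ⟨h1, h2⟩
    refine ⟨h1, ?_⟩
    rcases Nat.lt_succ_iff_lt_or_eq.1 h2 with h3 | h3
    · exact h3
    · exact absurd (h3 ▸ hj) h
  · rintro ⟨h1, h2⟩
    exact ⟨h1, by omega⟩

theorem sel_succ (S : Finset ℕ) {n₁ n : ℕ} (h : n ∈ S) (hn : n₁ ≤ n) : sel S n₁ (n + 1) = insert n (sel S n₁ n) := by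
  unfold sel
  ext j
  rw [Finset.mem_insert, Finset.mem_filter, Finset.mem_filter]
  constructor
  · rintro ⟨h1, h2, h3⟩
    rcases Nat.lt_succ_iff_lt_or_eq.1 h3 with h4 | h4
    · exact Or.inr ⟨h1, h2, h4⟩
    · exact Or.inl h4
  · rintro (h1 | ⟨h1, h2, h3⟩)
    · rw [h1]
      exact ⟨h, hn, by omega⟩
    · exact ⟨h1, h2, by omega⟩

theorem sel_notMem (S : Finset ℕ) (n₁ n : ℕ) : n ∉ sel S n₁ n := by
  unfold sel
  rw [Finset.mem_filter]
  omega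

/-- The sum over the selected scales. -/
theorem sel_sum {S : Finset ℕ} {n₁ n : ℕ} (hS : ∀ j ∈ S, j < n) {f : ℕ → ℝ} (h1 : ∀ j ∈ S, f j ≤ 1) :
    ∑ j ∈ S, f j ≤ ∑ j ∈ sel S n₁ n, f j + n₁ := by
  have h2 : S = sel S n₁ n ∪ S.filter (fun j => j < n₁) := by
    ext j
    unfold sel
    rw [Finset.mem_union, Finset.mem_filter, Finset.mem_filter]
    constructor
    · intro hj
      by_cases h : n₁ ≤ j
      · exact Or.inl ⟨hj, h, hS j hj⟩
      · exact Or.inr ⟨hj, by omega⟩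
    · rintro (h | h)
      · exact h.1
      · exact h.1
  have h3 : Disjoint (sel S n₁ n) (S.filter (fun j => j < n₁)) := by
    rw [Finset.disjoint_left]
    intro j hj hj'
    unfold sel at hj
    rw [Finset.mem_filter] at hj hj'
    omega
  have h4 : ∑ j ∈ S.filter (fun j => j < n₁), f j ≤ n₁ := by
    calc ∑ j ∈ S.filter (fun j => j < n₁), f j ≤ ∑ _j ∈ S.filter (fun j => j < n₁), (1 : ℝ) :=
          Finset.sum_le_sum fun j hj => h1 j (Finset.mem_filter.1 hj).1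
      _ = (S.filter (fun j => j < n₁)).card := by simp
      _ ≤ ((Finset.range n₁).card : ℝ) := by
          have : (S.filter (fun j => j < n₁)).card ≤ (Finset.range n₁).card := by
            refine Finset.card_le_card fun j hj => ?_
            rw [Finset.mem_range]
            exact (Finset.mem_filter.1 hj).2
          exact_mod_cast this
      _ = n₁ := by rw [Finset.card_range]
  calc ∑ j ∈ S, f j = ∑ j ∈ sel S n₁ n ∪ S.filter (fun j => j < n₁), f j := by rw [← h2]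
    _ = ∑ j ∈ sel S n₁ n, f j + ∑ j ∈ S.filter (fun j => j < n₁), f j := Finset.sum_union h3
    _ ≤ _ := by linarith

/-- A product of numbers `1 - a` is at most the exponential of minus the sum. -/
theorem prod_le_exp (S : Finset ℕ) {a : ℕ → ℝ} (h1 : ∀ j ∈ S, a j ≤ 1) : ∏ j ∈ S, (1 - a j) ≤ Real.exp (-∑ j ∈ S, a j) := by
  rw [← Finset.sum_neg_distrib, Real.exp_sum]
  refine Finset.prod_le_prod (fun j hj => by linarith [h1 j hj]) fun j _ => ?_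
  have := Real.add_one_le_exp (-a j)
  linarith

/-- **The iteration.** -/
theorem iter {Gd : ℝ → (ℝ → E3 → E3) → ℝ → ℝ → ℝ → ℝ → Prop} {C₁ : ℝ}
    (HS : ∀ (T : ℝ) (u : ℝ → E3 → E3) (p : ℝ → E3 → ℝ), IsHInfAxisymNS T u p →
      ∀ t₀ t ρ z K g : ℝ, 0 ≤ t₀ → t < T → 0 < ρ → ρ ^ 2 < t - t₀ → 1 ≤ K → Gd t₀ u t z ρ K →
      (∀ t' ∈ Icc (t - ρ ^ 2) t, ∀ x ∈ Metric.ball (axp z) ρ, |circ (u t') x| ≤ g) →
      ∀ t' ∈ Icc (t - ρ ^ 2 / 16) t, ∀ x ∈ Metric.ball (axp z) (ρ / 4),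
        |circ (u t') x| ≤ (1 - Real.exp (-(C₁ * K ^ 23))) * g)
    {T t₀ : ℝ} {u : ℝ → E3 → E3} {p : ℝ → E3 → ℝ} (h : IsHInfAxisymNS T u p) (ht₀ : 0 ≤ t₀) {b M : ℝ}
    (hM : ∀ t ∈ Ico 0 T, ∀ x, rad x ≤ b → |circ (u t) x| ≤ M) {t z : ℝ} (htT : t < T) {n₁ : ℕ}
    (hn₁b : (1/4 : ℝ) ^ n₁ < b) (hn₁d : ((1/4 : ℝ) ^ n₁) ^ 2 < t - t₀) {S : Finset ℕ} {κ : ℕ → ℝ}
    (hK : ∀ n ∈ S, 1 ≤ κ n) (hS : ∀ n ∈ S, Gd t₀ u t z ((1/4) ^ n) (κ n)) :
    ∀ n : ℕ, n₁ ≤ n → ∀ t' ∈ Icc (t - ((1/4) ^ n) ^ 2) t, ∀ x ∈ Metric.ball (axp z) ((1/4) ^ n),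
      |circ (u t') x| ≤ (∏ j ∈ sel S n₁ n, (1 - Real.exp (-(C₁ * κ j ^ 23)))) * M := by
  have hpos : ∀ n : ℕ, (0:ℝ) < (1/4) ^ n := fun n => by positivity
  have hle : ∀ n : ℕ, n₁ ≤ n → (1/4 : ℝ) ^ n ≤ (1/4) ^ n₁ := fun n hn =>
    pow_le_pow_of_le_one (by norm_num) (by norm_num) hn
  have hsq : ∀ n : ℕ, n₁ ≤ n → ((1/4 : ℝ) ^ n) ^ 2 < t - t₀ := fun n hn =>
    lt_of_le_of_lt (pow_le_pow_left₀ (hpos n).le (hle n hn) 2) hn₁d
  intro n hn
  induction n, hn using Nat.le_induction with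
  | base =>
    intro t' ht' x hx
    rw [sel_zero, Finset.prod_empty, one_mul]
    have hx1 : rad x ≤ b := by
      have h2 : rad x ≤ ‖x - axp z‖ := StepA_rad x z
      rw [Metric.mem_ball, dist_eq_norm] at hx
      linarith
    refine hM t' ⟨?_, lt_of_le_of_lt ht'.2 htT⟩ x hx1
    have h1 := ht'.1
    linarith
  | succ n hn ih =>
    have e1 : ((1/4 : ℝ) ^ (n + 1)) ^ 2 = ((1/4) ^ n) ^ 2 / 16 := by ring
    have e2 : (1/4 : ℝ) ^ (n + 1) = (1/4) ^ n / 4 := by ring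
    by_cases hnS : n ∈ S
    · rw [sel_succ S hnS hn, Finset.prod_insert (sel_notMem S n₁ n), e1, e2, mul_assoc]
      exact HS T u p h t₀ t ((1/4) ^ n) z (κ n) _ ht₀ htT (hpos n) (hsq n hn) (hK n hnS) (hS n hnS) ih
    · rw [sel_skip S hnS]
      intro t' ht' x hx
      rw [e1] at ht'
      rw [e2] at hx
      refine ih t' ⟨?_, ht'.2⟩ x ?_
      · have := ht'.1
        have h3 : 0 ≤ ((1/4 : ℝ) ^ n) ^ 2 := by positivity
        linarith
      · rw [Metric.mem_ball] at hx ⊢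
        have := hpos n
        linarith

end Pool.Agent.H94.LS
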