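import Pool.Agent.H94.TQ.Z
import Pool.Agent.H94.LS.Iter

/-! The criterion at one scale after the decay of the circulation through the good scales. -/

set_option autoImplicit false

open Set Filter Topology MeasureTheory
open scoped ContDiff

namespace Pool.Agent.H94.LS

open Pool.Agent.H16 Pool.Agent.H87.NS Pool.Agent.H72.CC Pool.Agent.H16.TU Pool.Agent.H94.EP

/-- The scaled energy at the scale `r` is at most `K`. -/
def EB (T t₀ : ℝ) (u : ℝ → E3 → E3) (r K : ℝ) : Prop :=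
  ∫ x, ‖u 0 x‖ ^ 2 ≤ K * r ∨
    (∀ t ∈ Ico t₀ T, ∀ z, ∫ x in Metric.ball (axp z) r, ‖u t x‖ ^ 2 ≤ K * r) ∧
    (∀ s t : ℝ, t₀ ≤ s → s ≤ t → t < T → t ≤ s + r ^ 2 → ∀ z,
      ∫ τ in s..t, ∫ x in Metric.ball (axp z) r, gv (u τ) x ≤ K * r)

theorem EB_mono {T t₀ t₁ : ℝ} {u : ℝ → E3 → E3} {r K K' : ℝ} (h : EB T t₀ u r K) (ht : t₀ ≤ t₁) (hr : 0 < r) (hK : K ≤ K') :
    EB T t₁ u r K' := by
  have hKr : K * r ≤ K' * r := mul_le_mul_of_nonneg_right hK hr.le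
  rcases h with h | ⟨h1, h2⟩
  · exact Or.inl (h.trans hKr)
  · exact Or.inr ⟨fun t ht1 z => (h1 t ⟨ht.trans ht1.1, ht1.2⟩ z).trans hKr,
      fun s t hs hst htT hts z => (h2 s t (ht.trans hs) hst htT hts z).trans hKr⟩

/-- Few good scales. -/
theorem few {S : Finset ℕ} {f : ℕ → ℝ} (h1 : ∀ j ∈ S, f j ≤ 1) {N : ℕ} (hS : (N : ℝ) < ∑ j ∈ S, f j) : ∃ n ∈ S, N ≤ n := by
  by_contra hc
  push Not at hc
  have h2 : S ⊆ Finset.range N := fun j hj => Finset.mem_range.2 (hc j hj)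
  have h3 : ∑ j ∈ S, f j ≤ S.card := by
    calc ∑ j ∈ S, f j ≤ ∑ _j ∈ S, (1 : ℝ) := Finset.sum_le_sum h1
      _ = S.card := by simp
  have h4 : (S.card : ℝ) ≤ N := by
    have := Finset.card_le_card h2
    rw [Finset.card_range] at this
    exact_mod_cast this
  linarith

theorem Main_a1 {K : ℝ} (hK : 0 ≤ K) : 2 + (K + 1) ≤ (2 + K) ^ 2 := by nlinarith

theorem Main_a2 {A r K : ℝ} (hr : 0 < r) (hr1 : r < 1) (h : r * A ≤ 1) (hK : 0 ≤ K) : A * r ^ 2 ≤ K + 1 := by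
  have e1 : A * r ^ 2 = (r * A) * r := by ring
  rw [e1]
  have h1 : (r * A) * r ≤ 1 * r := mul_le_mul_of_nonneg_right h hr.le
  linarith

theorem Main_a3 {x y K : ℝ} (h1 : x ≤ 1) (h2 : y ≤ 1) (h3 : 0 ≤ y) (hK : 0 ≤ K) : x * y ≤ K + 1 := by
  have h4 : x * y ≤ 1 * y := mul_le_mul_of_nonneg_right h1 h3
  linarith

theorem main : ∃ A : ℝ, 0 < A ∧ ∀ (T t₀ : ℝ) (u : ℝ → E3 → E3) (p : ℝ → E3 → ℝ),
    IsHInfAxisymNS T u p → 0 ≤ t₀ → t₀ < T →
    (∀ b : ℝ, ∃ r K : ℝ, 0 < r ∧ 0 ≤ K ∧ EB T t₀ u r K ∧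
      ∀ t ∈ Ioo t₀ T, ∀ z : ℝ, ∃ (S : Finset ℕ) (κ : ℕ → ℝ),
        (∀ n ∈ S, 4 * r ≤ (1/4) ^ n ∧ 1 ≤ κ n ∧ Gd t₀ u t z ((1/4) ^ n) (κ n)) ∧
        b + Real.log (Real.log (2 + K)) ≤ ∑ n ∈ S, Real.exp (-(A * κ n ^ 23))) →
    ∃ C r₁ : ℝ, 0 < r₁ ∧ ∀ t ∈ Ico 0 T, ∀ x, rad x < r₁ → |circ (u t) x| ≤ C * rad x := by
  obtain ⟨C₁, hC₁, HS⟩ := stpA
  obtain ⟨c, hc, Hc⟩ := Pool.Agent.H94.TQ.twoTQ
  refine ⟨C₁, hC₁, fun T t₀ u p h ht₀ ht₀T hyp => ?_⟩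
  obtain ⟨b₀, M, hb₀, hM1, hM⟩ := Pool.Agent.H94.WL.near h
  have hM0 : 0 < M := by linarith
  obtain ⟨t₁, ht₁⟩ : ∃ t₁ : ℝ, t₁ = (t₀ + T) / 2 := ⟨_, rfl⟩
  have ht₁0 : t₀ < t₁ := by rw [ht₁]; linarith
  have ht₁T : t₁ < T := by rw [ht₁]; linarith
  obtain ⟨d, hd⟩ : ∃ d : ℝ, d = t₁ - t₀ := ⟨_, rfl⟩
  have hd0 : 0 < d := by rw [hd]; linarith
  obtain ⟨n₁, hn₁⟩ := exists_pow_lt_of_lt_one (show 0 < min b₀ (min 1 d) by positivity) (show (1/4 : ℝ) < 1 by norm_num)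
  have hn₁b : (1/4 : ℝ) ^ n₁ < b₀ := lt_of_lt_of_le hn₁ (min_le_left _ _)
  have hn₁1 : (1/4 : ℝ) ^ n₁ < 1 := lt_of_lt_of_le hn₁ ((min_le_right _ _).trans (min_le_left _ _))
  have hn₁d : (1/4 : ℝ) ^ n₁ < d := lt_of_lt_of_le hn₁ ((min_le_right _ _).trans (min_le_right _ _))
  have hpos : ∀ n : ℕ, (0:ℝ) < (1/4) ^ n := fun n => by positivity
  have hn₁d2 : ((1/4 : ℝ) ^ n₁) ^ 2 < d :=
    (pow_le_of_le_one (hpos n₁).le hn₁1.le two_ne_zero).trans_lt hn₁d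
  -- the data at `t₁`
  have hv : Pool.Agent.H94.EP.Vs (u t₁) := Pool.Agent.H37.EP.vs_of h ⟨ht₀.trans ht₁0.le, ht₁T⟩
  obtain ⟨riV, -, riO, riZ, -⟩ := Pool.Agent.H87.EP.vs_ri hv
  obtain ⟨B1, hB1⟩ := riV.db 0
  obtain ⟨B2, hB2⟩ := riO.db 0
  obtain ⟨B3, hB3⟩ := riZ.db 0
  obtain ⟨A, hA⟩ : ∃ A : ℝ, A = 1 + |B1| + |B2| + |B3| := ⟨_, rfl⟩
  have a1 := abs_nonneg B1
  have a2 := abs_nonneg B2
  have a3 := abs_nonneg B3
  have hA1 : 1 ≤ A := by linarith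
  have hA0 : 0 < A := by linarith
  obtain ⟨N₂, hN₂⟩ := exists_pow_lt_of_lt_one (show 0 < 1 / A by positivity) (show (1/4 : ℝ) < 1 by norm_num)
  -- the number `b`
  obtain ⟨b, hb⟩ : ∃ b : ℝ, b = n₁ + N₂ + 3 + |Real.log (2 * M / c)| := ⟨_, rfl⟩
  have hlb := abs_nonneg (Real.log (2 * M / c))
  have hn₁0 : (0:ℝ) ≤ n₁ := Nat.cast_nonneg _
  have hN₂0 : (0:ℝ) ≤ N₂ := Nat.cast_nonneg _
  obtain ⟨r, K, hr, hK, hE, hyp⟩ := hyp b
  obtain ⟨L, hL⟩ : ∃ L : ℝ, L = Real.log (2 + K) := ⟨_, rfl⟩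
  have hL2 : Real.log 2 ≤ L := by
    rw [hL]
    exact Real.log_le_log (by norm_num) (by linarith)
  have hl2 : (0.69 : ℝ) < Real.log 2 := by linarith [Real.log_two_gt_d9]
  have hL0 : 0 < L := by linarith
  have hLL : -1 < Real.log L := by
    rw [Real.lt_log_iff_exp_lt hL0]
    have h1 : Real.exp (-1) < 0.5 := by
      rw [Real.exp_neg, inv_lt_comm₀ (Real.exp_pos _) (by norm_num)]
      have := Real.exp_one_gt_d9
      norm_num
      linarith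
    linarith
  have hterm : ∀ (κ : ℕ → ℝ) (S : Finset ℕ), (∀ n ∈ S, 1 ≤ κ n) → ∀ n ∈ S, Real.exp (-(C₁ * κ n ^ 23)) ≤ 1 := by
    intro κ S hκ n hn
    rw [Real.exp_le_one_iff]
    have := hκ n hn
    have : 0 ≤ C₁ * κ n ^ 23 := by positivity
    linarith
  -- the radius is small
  have hrA : 4 * r < 1 / A := by
    obtain ⟨S, κ, hS, hsum⟩ := hyp t₁ ⟨ht₁0, ht₁T⟩ 0
    rw [← hL] at hsum
    obtain ⟨n, hn, hn2⟩ := few (N := N₂) (hterm κ S fun n hn => (hS n hn).2.1) (by linarith)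
    exact (hS n hn).1.trans_lt (lt_of_le_of_lt (pow_le_pow_of_le_one (by norm_num) (by norm_num) hn2) hN₂)
  have hr1 : r < 1 := by
    have : 1 / A ≤ 1 := by
      rw [div_le_one hA0]
      exact hA1
    linarith
  have hrA' : r * A ≤ 1 := by
    have h1 : r < 1 / A := by linarith
    rw [lt_div_iff₀ hA0] at h1
    exact h1.le
  -- the circulation is small
  have g1 : ∀ t ∈ Ico t₁ T, ∀ x, rad x < r → |circ (u t) x| ≤ c / Real.log (2 + (K + 1)) ^ (3 / 4 : ℝ) := by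
    intro t ht x hx
    obtain ⟨S, κ, hS, hsum⟩ := hyp t ⟨ht₁0.trans_le ht.1, ht.2⟩ (x 2)
    rw [← hL] at hsum
    have hκ : ∀ n ∈ S, 1 ≤ κ n := fun n hn => (hS n hn).2.1
    obtain ⟨s, hs, hs2⟩ := few (N := n₁) (hterm κ S hκ) (by linarith)
    have hne : S.Nonempty := ⟨s, hs⟩
    obtain ⟨n, hn⟩ : ∃ n : ℕ, n = S.max' hne + 1 := ⟨_, rfl⟩
    have hmax := S.max'_mem hne
    have hlt : ∀ j ∈ S, j < n := fun j hj => by
      have := S.le_max' j hj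
      omega
    have hn1 : n₁ ≤ n := by
      have := hlt s hs
      omega
    have hrn : r ≤ (1/4 : ℝ) ^ n := by
      have h1 := (hS _ hmax).1
      have h2 : (1/4 : ℝ) ^ n = (1/4) ^ (S.max' hne) / 4 := by rw [hn]; ring
      linarith
    have h1 := iter HS h ht₀ hM (t := t) (z := x 2) ht.2 hn₁b (by linarith [ht.1]) hκ (fun n hn => (hS n hn).2.2) n hn1
      t ⟨by linarith [sq_nonneg ((1/4 : ℝ) ^ n)], le_rfl⟩ x (by
        rw [Metric.mem_ball, dist_eq_norm, Pool.Agent.H87.NS.Crit_axp]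
        exact hx.trans_le hrn)
    have h2 := prod_le_exp (sel S n₁ n) (a := fun j => Real.exp (-(C₁ * κ j ^ 23))) fun j hj => by
      unfold sel at hj
      exact hterm κ S hκ j (Finset.mem_filter.1 hj).1
    have h3 := sel_sum (n₁ := n₁) hlt (f := fun j => Real.exp (-(C₁ * κ j ^ 23))) (hterm κ S hκ)
    obtain ⟨W, hW⟩ : ∃ W : ℝ, W = ∑ j ∈ sel S n₁ n, Real.exp (-(C₁ * κ j ^ 23)) := ⟨_, rfl⟩
    rw [← hW] at h2 h3
    have h4 : |Real.log (2 * M / c)| + Real.log L ≤ W := by linarith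
    have h5 : Real.exp (-W) ≤ c / (2 * M) * L⁻¹ := by
      have e1 : Real.exp (-|Real.log (2 * M / c)|) ≤ c / (2 * M) := by
        calc Real.exp (-|Real.log (2 * M / c)|) ≤ Real.exp (-Real.log (2 * M / c)) :=
              Real.exp_le_exp.2 (neg_le_neg (le_abs_self _))
          _ = c / (2 * M) := by
            rw [Real.exp_neg, Real.exp_log (by positivity), inv_div]
      calc Real.exp (-W) ≤ Real.exp (-|Real.log (2 * M / c)| + -Real.log L) := Real.exp_le_exp.2 (by linarith)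
        _ = Real.exp (-|Real.log (2 * M / c)|) * L⁻¹ := by
          rw [Real.exp_add, Real.exp_neg (Real.log L), Real.exp_log hL0]
        _ ≤ _ := mul_le_mul_of_nonneg_right e1 (by positivity)
    have h6 : Real.log (2 + (K + 1)) ≤ 2 * L := by
      rw [hL]
      have e1 : Real.log ((2 + K) ^ 2) = 2 * Real.log (2 + K) := by
        rw [Real.log_pow]
        norm_num
      rw [← e1]
      exact Real.log_le_log (by linarith) (Main_a1 hK)
    have h7 : 0 < Real.log (2 + (K + 1)) := Real.log_pos (by linarith)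
    have h8 : Real.log (2 + (K + 1)) ^ (3 / 4 : ℝ) ≤ 2 * L := by
      calc Real.log (2 + (K + 1)) ^ (3 / 4 : ℝ) ≤ (2 * L) ^ (3 / 4 : ℝ) := Real.rpow_le_rpow h7.le h6 (by norm_num)
        _ ≤ (2 * L) ^ (1 : ℝ) := Real.rpow_le_rpow_of_exponent_le (by linarith) (by norm_num)
        _ = 2 * L := Real.rpow_one _
    have h9 : 0 < Real.log (2 + (K + 1)) ^ (3 / 4 : ℝ) := Real.rpow_pos_of_pos h7 _
    calc |circ (u t) x| ≤ (∏ j ∈ sel S n₁ n, (1 - Real.exp (-(C₁ * κ j ^ 23)))) * M := h1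
      _ ≤ (c / (2 * M) * L⁻¹) * M := mul_le_mul_of_nonneg_right (h2.trans h5) hM0.le
      _ = c / (2 * L) := by field_simp
      _ ≤ c / Real.log (2 + (K + 1)) ^ (3 / 4 : ℝ) := div_le_div_of_nonneg_left hc.le h9 h8
  -- the swirl at `t₁`
  have g3 : ∀ x, rad x < r → |circ (u t₁) x| ≤ (K + 1) * (rad x / r) ^ 2 := by
    intro x hx
    have h1 : circ (u t₁) x = rsq x * sV (u t₁) x := circ_eq hv.ax x
    have h2 : |sV (u t₁) x| ≤ A := ((DB_BL hB1).1 x).trans ((le_abs_self B1).trans (by linarith))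
    have h3 : rsq x = rad x ^ 2 := (rad_sq' x).symm
    rw [h1, abs_mul, h3, abs_of_nonneg (sq_nonneg _)]
    have h4 : (K + 1) * (rad x / r) ^ 2 = rad x ^ 2 * ((K + 1) / r ^ 2) := by
      field_simp
    rw [h4]
    refine mul_le_mul_of_nonneg_left (h2.trans ?_) (sq_nonneg _)
    rw [le_div_iff₀ (by positivity)]
    exact Main_a2 hr hr1 hrA' hK
  -- the vorticity at `t₁`
  have g4 : ∀ z, ∫ x in Metric.ball (axp z) r, (curl (u t₁) x 0 ^ 2 + curl (u t₁) x 1 ^ 2) / rsq x ≤ (K + 1) / r ^ 3 := by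
    intro z
    have iO := (DB_BL hB2).2
    have iZ := (DB_BL hB3).2
    have e2 : ∫ x in Metric.ball (axp z) r, (curl (u t₁) x 0 ^ 2 + curl (u t₁) x 1 ^ 2) / rsq x =
        ∫ x in Metric.ball (axp z) r, (Pool.Agent.H94.EP.Zz (u t₁) x ^ 2 + sO (u t₁) x ^ 2) := by
      refine integral_congr_ae (ae_restrict_of_ae ?_)
      filter_upwards [Pool.Agent.H87.NS.axis_null] with x hx
      have hx' : 0 < rsq x := by
        rw [← rad_sq']
        positivity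
      exact Pool.Agent.H94.EP.curl_sq hv.ax hx'
    rw [e2]
    have hi : Integrable (fun x => Pool.Agent.H94.EP.Zz (u t₁) x ^ 2 + sO (u t₁) x ^ 2) := iZ.1.add iO.1
    have h1 : ∫ x in Metric.ball (axp z) r, (Pool.Agent.H94.EP.Zz (u t₁) x ^ 2 + sO (u t₁) x ^ 2) ≤
        ∫ x, (Pool.Agent.H94.EP.Zz (u t₁) x ^ 2 + sO (u t₁) x ^ 2) :=
      setIntegral_le_integral hi (Eventually.of_forall fun x => by positivity)
    rw [integral_add iZ.1 iO.1] at h1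
    have h2 : (∫ x, Pool.Agent.H94.EP.Zz (u t₁) x ^ 2) + ∫ x, sO (u t₁) x ^ 2 ≤ A := by
      have h3 := iZ.2
      have h4 := iO.2
      have h5 := le_abs_self B2
      have h6 := le_abs_self B3
      linarith
    refine h1.trans (h2.trans ?_)
    rw [le_div_iff₀ (by positivity)]
    have h5 : A * r ^ 3 = (r * A) * r ^ 2 := by ring
    have h6 : r ^ 2 ≤ 1 := pow_le_one₀ hr.le hr1.le
    have h7 : 0 ≤ r * A := by positivity
    rw [h5]
    exact Main_a3 hrA' h6 (sq_nonneg r) hK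
  obtain ⟨C, hC⟩ := Hc T u p h t₁ r (K + 1) (ht₀.trans ht₁0.le) ht₁T hr (by linarith) g1
    (EB_mono hE ht₁0.le hr (by linarith)) g3 g4
  obtain ⟨K', hK'⟩ := svwDB h ht₁T
  refine ⟨max C |K'|, r, hr, fun t ht x hx => ?_⟩
  have hR : 0 ≤ rad x := Real.sqrt_nonneg _
  rcases le_or_gt t₁ t with hta | hta
  · exact (hC t ⟨hta, ht.2⟩ x hx).trans (mul_le_mul_of_nonneg_right (le_max_left _ _) hR)
  · have hvt := axF_of h.ns ht
    have h1 : |sV (u t) x| ≤ K' := (DB_BL (hK' t ⟨ht.1, hta.le⟩).1).1 x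
    rw [circ_eq hvt, abs_mul, ← rad_sq', abs_of_nonneg (by positivity)]
    have h2 := le_abs_self K'
    have h3 : rad x ^ 2 ≤ rad x := pow_le_of_le_one hR (hx.le.trans hr1.le) two_ne_zero
    calc rad x ^ 2 * |sV (u t) x| ≤ rad x * |K'| :=
          mul_le_mul h3 (h1.trans h2) (abs_nonneg _) hR
      _ = |K'| * rad x := mul_comm _ _
      _ ≤ _ := mul_le_mul_of_nonneg_right (le_max_right _ _) hR

end Pool.Agent.H94.LS
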