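import Pool.Agent.H94.LS.Main
import Pool.Agent.H94.LS.DI

/-! The criterion with the energy alone at one scale. -/

set_option autoImplicit false

open Set Filter Topology MeasureTheory
open scoped ContDiff

namespace Pool.Agent.H94.LS

open Pool.Agent.H16 Pool.Agent.H87.NS Pool.Agent.H72.CC Pool.Agent.H16.TU Pool.Agent.H94.EP

/-- The scaled energy at the scale `r` is at most `K`: the total energy, or the energy in each ball, or the energy and the dissipation in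
each ball centred on the axis. -/
def EB2 (T t₀ : ℝ) (u : ℝ → E3 → E3) (r K : ℝ) : Prop :=
  ∫ x, ‖u 0 x‖ ^ 2 ≤ K * r ∨ (∀ t ∈ Ico t₀ T, ∀ y : E3, ∫ x in Metric.ball y r, ‖u t x‖ ^ 2 ≤ K * r) ∨
    (∀ t ∈ Ico t₀ T, ∀ z, ∫ x in Metric.ball (axp z) r, ‖u t x‖ ^ 2 ≤ K * r) ∧
    (∀ s t : ℝ, t₀ ≤ s → s ≤ t → t < T → t ≤ s + r ^ 2 → ∀ z,
      ∫ τ in s..t, ∫ x in Metric.ball (axp z) r, gv (u τ) x ≤ K * r)

theorem eb2 : ∃ c : ℝ, 0 ≤ c ∧ ∀ (T t₀ : ℝ) (u : ℝ → E3 → E3) (p : ℝ → E3 → ℝ), IsHInfAxisymNS T u p → 0 ≤ t₀ → ∀ r K : ℝ, 0 < r → 0 ≤ K →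
    EB2 T t₀ u r K → ∃ K' : ℝ, 0 ≤ K' ∧ EB T t₀ u r K' ∧ Real.log (Real.log (2 + K')) ≤ Real.log (Real.log (2 + K)) + c := by
  obtain ⟨C, hC, H⟩ := diss
  obtain ⟨m, hm⟩ := pow_unbounded_of_one_lt (2 + C) (one_lt_two : (1 : ℝ) < 2)
  have hm1 : (1:ℝ) ≤ 5 + m := by
    have : (0:ℝ) ≤ m := Nat.cast_nonneg _
    linarith
  have hc0 : 0 ≤ Real.log (5 + m) := Real.log_nonneg hm1
  refine ⟨Real.log (5 + m), hc0, ?_⟩
  intro T t₀ u p h h0 r K hr hK hE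
  rcases hE with hE | hE | hE
  · exact ⟨K, hK, Or.inl hE, by linarith⟩
  · refine ⟨K + C * (1 + K) ^ 5, by positivity, Or.inr ⟨fun t ht z => ?_, fun s t hs hst htT htr z => ?_⟩, ?_⟩
    · refine (hE t ht (axp z)).trans (mul_le_mul_of_nonneg_right ?_ hr.le)
      have : 0 ≤ C * (1 + K) ^ 5 := by positivity
      linarith
    · refine (H T u p h s t r K (h0.trans hs) hst htT htr hr hK (fun τ hτ => hE τ ⟨hs.trans hτ.1, lt_of_le_of_lt hτ.2 htT⟩) z).trans ?_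
      exact mul_le_mul_of_nonneg_right (by linarith) hr.le
    · have hl : 0 < Real.log (2 + K) := Real.log_pos (by linarith)
      have h1 : 2 + (K + C * (1 + K) ^ 5) ≤ (2 + K) ^ (5 + m) := by
        have e1 : (1 + K) ^ 5 ≤ (2 + K) ^ 5 := pow_le_pow_left₀ (by linarith) (by linarith) 5
        have e2 : 2 + K ≤ (2 + K) ^ 5 := le_self_pow₀ (by linarith) (by norm_num)
        have e3 : (2 + C) ≤ (2 + K) ^ m := hm.le.trans (pow_le_pow_left₀ (by norm_num) (by linarith) m)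
        have e4 : 0 ≤ (2 + K) ^ 5 := by positivity
        calc 2 + (K + C * (1 + K) ^ 5) ≤ (2 + K) ^ 5 + C * (2 + K) ^ 5 := by nlinarith
          _ ≤ (2 + K) ^ 5 * (2 + C) := by nlinarith
          _ ≤ (2 + K) ^ 5 * (2 + K) ^ m := mul_le_mul_of_nonneg_left e3 e4
          _ = _ := by rw [pow_add]
      have h2 : Real.log (2 + (K + C * (1 + K) ^ 5)) ≤ (5 + m) * Real.log (2 + K) := by
        calc _ ≤ Real.log ((2 + K) ^ (5 + m)) := Real.log_le_log (by positivity) h1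
          _ = _ := by
            rw [Real.log_pow]
            push_cast
            ring
      have h3 : 0 < Real.log (2 + (K + C * (1 + K) ^ 5)) := Real.log_pos (by
        have : 0 ≤ C * (1 + K) ^ 5 := by positivity
        linarith)
      calc _ ≤ Real.log ((5 + m) * Real.log (2 + K)) := Real.log_le_log h3 h2
        _ = _ := by
          rw [Real.log_mul (by positivity) hl.ne']
          ring
  · exact ⟨K, hK, Or.inr hE, by linarith⟩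

theorem main2 : ∃ A : ℝ, 0 < A ∧ ∀ (T t₀ : ℝ) (u : ℝ → E3 → E3) (p : ℝ → E3 → ℝ),
    IsHInfAxisymNS T u p → 0 ≤ t₀ → t₀ < T →
    (∀ b : ℝ, ∃ r K : ℝ, 0 < r ∧ 0 ≤ K ∧ EB2 T t₀ u r K ∧
      ∀ t ∈ Ioo t₀ T, ∀ z : ℝ, ∃ (S : Finset ℕ) (κ : ℕ → ℝ),
        (∀ n ∈ S, 4 * r ≤ (1/4) ^ n ∧ 1 ≤ κ n ∧ Gd t₀ u t z ((1/4) ^ n) (κ n)) ∧
        b + Real.log (Real.log (2 + K)) ≤ ∑ n ∈ S, Real.exp (-(A * κ n ^ 23))) →
    ∃ C r₁ : ℝ, 0 < r₁ ∧ ∀ t ∈ Ico 0 T, ∀ x, rad x < r₁ → |circ (u t) x| ≤ C * rad x := by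
  obtain ⟨A, hA, H⟩ := main
  obtain ⟨c, hc, hE⟩ := eb2
  refine ⟨A, hA, fun T t₀ u p h h0 hT hyp => H T t₀ u p h h0 hT fun b => ?_⟩
  obtain ⟨r, K, hr, hK, h1, h2⟩ := hyp (b + c)
  obtain ⟨K', hK', h3, h4⟩ := hE T t₀ u p h h0 r K hr hK h1
  refine ⟨r, K', hr, hK', h3, fun t ht z => ?_⟩
  obtain ⟨S, κ, hS, hsum⟩ := h2 t ht z
  exact ⟨S, κ, hS, by linarith⟩

end Pool.Agent.H94.LS
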